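import Pool.Agent.Lib.MP_24a1b5_co.Mg.G002

section

set_option autoImplicit false

namespace Pool.Agent.Lib.MP_24a1b5_co

open Complex (I)

lemma expo {x y s : ℝ} (hx : 0 ≤ x) (hy : 0 ≤ y) (hs : 1 ≤ s) (hs2 : s ≤ 2) :
    |Real.exp (-y) - Real.exp (-x) * (1 - (y - x))| ≤ |y - x| ^ s := by
  have h1 : |Real.exp (-y) - Real.exp (-x) * (1 - (y - x))| ≤ |y - x| ^ 2 ∧
      |Real.exp (-y) - Real.exp (-x) * (1 - (y - x))| ≤ |y - x| := by
    have ex1 : Real.exp (-x) ≤ 1 := by rw [Real.exp_le_one_iff]; linarith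
    have ey1 : Real.exp (-y) ≤ 1 := by rw [Real.exp_le_one_iff]; linarith
    have ex0 := Real.exp_pos (-x)
    have ey0 := Real.exp_pos (-y)
    rcases le_total x y with h | h
    · have hd : 0 ≤ y - x := by linarith
      have e1 : Real.exp (-y) = Real.exp (-x) * Real.exp (-(y - x)) := by
        rw [← Real.exp_add]; congr 1; ring
      have e2 : Real.exp (-(y - x)) ≤ 1 / (1 + (y - x)) := by
        rw [Real.exp_neg, ← one_div]
        apply one_div_le_one_div_of_le (by linarith)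
        linarith [Real.add_one_le_exp (y - x)]
      have e3 : 1 - (y - x) ≤ Real.exp (-(y - x)) := by
        linarith [Real.add_one_le_exp (-(y - x))]
      have e4 : Real.exp (-y) - Real.exp (-x) * (1 - (y - x)) =
          Real.exp (-x) * (Real.exp (-(y - x)) - (1 - (y - x))) := by rw [e1]; ring
      have e5 : 0 ≤ Real.exp (-(y - x)) - (1 - (y - x)) := by linarith
      have e6 : Real.exp (-(y - x)) - (1 - (y - x)) ≤ (y - x) ^ 2 / (1 + (y - x)) := by
        have : 1 / (1 + (y - x)) - (1 - (y - x)) = (y - x) ^ 2 / (1 + (y - x)) := by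
          field_simp; ring
        linarith
      have e7 : (y - x) ^ 2 / (1 + (y - x)) ≤ (y - x) ^ 2 := by
        apply div_le_self (sq_nonneg _); linarith
      have e8 : (y - x) ^ 2 / (1 + (y - x)) ≤ (y - x) := by
        rw [div_le_iff₀ (by linarith)]; nlinarith
      rw [e4, abs_of_nonneg (mul_nonneg ex0.le e5), abs_of_nonneg hd]
      constructor
      · calc _ ≤ 1 * (Real.exp (-(y - x)) - (1 - (y - x))) :=
              mul_le_mul_of_nonneg_right ex1 e5
          _ ≤ _ := by linarith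
      · calc _ ≤ 1 * (Real.exp (-(y - x)) - (1 - (y - x))) :=
              mul_le_mul_of_nonneg_right ex1 e5
          _ ≤ _ := by linarith
    · have hd : 0 ≤ x - y := by linarith
      have e1 : Real.exp (-x) = Real.exp (-y) * Real.exp (-(x - y)) := by
        rw [← Real.exp_add]; congr 1; ring
      have e3 : 1 - (x - y) ≤ Real.exp (-(x - y)) := by
        linarith [Real.add_one_le_exp (-(x - y))]
      have e3' : Real.exp (-(x - y)) * (1 + (x - y)) ≤ 1 := by
        have := Real.add_one_le_exp (x - y)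
        calc Real.exp (-(x - y)) * (1 + (x - y))
            ≤ Real.exp (-(x - y)) * Real.exp (x - y) :=
              mul_le_mul_of_nonneg_left (by linarith) (Real.exp_pos _).le
          _ = 1 := by rw [← Real.exp_add]; simp
      have e4 : Real.exp (-y) - Real.exp (-x) * (1 - (y - x)) =
          Real.exp (-y) * (1 - Real.exp (-(x - y)) * (1 + (x - y))) := by rw [e1]; ring
      have e5 : 0 ≤ 1 - Real.exp (-(x - y)) * (1 + (x - y)) := by linarith
      have e6 : 1 - Real.exp (-(x - y)) * (1 + (x - y)) ≤ (x - y) ^ 2 := by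
        have := mul_le_mul_of_nonneg_right e3 (by linarith : 0 ≤ 1 + (x - y))
        nlinarith
      have e7 : 1 - Real.exp (-(x - y)) * (1 + (x - y)) ≤ x - y := by
        rcases le_total (x - y) 1 with h1 | h1
        · nlinarith
        · have : 0 ≤ Real.exp (-(x - y)) * (1 + (x - y)) := by positivity
          linarith
      rw [e4, abs_of_nonneg (mul_nonneg ey0.le e5), abs_sub_comm, abs_of_nonneg hd]
      constructor
      · calc _ ≤ 1 * (1 - Real.exp (-(x - y)) * (1 + (x - y))) :=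
              mul_le_mul_of_nonneg_right ey1 e5
          _ ≤ _ := by linarith
      · calc _ ≤ 1 * (1 - Real.exp (-(x - y)) * (1 + (x - y))) :=
              mul_le_mul_of_nonneg_right ey1 e5
          _ ≤ _ := by linarith
  obtain ⟨h2, h3⟩ := h1
  rcases le_total |y - x| 1 with h | h
  · refine h2.trans ?_
    rw [← Real.rpow_natCast]
    exact Real.rpow_le_rpow_of_exponent_ge' (abs_nonneg _) h (by linarith) (by exact_mod_cast hs2)
  · exact h3.trans (Real.self_le_rpow_of_one_le h hs)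

lemma cexp2 (y : ℝ) :
    ‖Complex.exp (y * I) - 1 - y * I + (y : ℂ) ^ 2 / 2‖ ≤ 4 * |y| ^ (9 / 4 : ℝ) := by
  rcases le_total |y| 1 with h | h
  · have hn : ‖(y * I : ℂ)‖ = |y| := by
      rw [norm_mul, Complex.norm_I, mul_one, Complex.norm_real, Real.norm_eq_abs]
    have h1 := Complex.exp_bound (x := y * I) (by rw [hn]; exact h) (n := 3) (by norm_num)
    rw [hn] at h1
    have e1 : Complex.exp (y * I) - 1 - y * I + (y : ℂ) ^ 2 / 2 =
        Complex.exp (y * I) - ∑ m ∈ Finset.range 3, (y * I : ℂ) ^ m / (m.factorial : ℂ) := by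
      simp only [Finset.sum_range_succ, Finset.sum_range_zero, Nat.factorial, pow_zero, pow_one]
      have : (y * I : ℂ) ^ 2 = - (y : ℂ) ^ 2 := by
        rw [mul_pow, Complex.I_sq]; ring
      rw [this]
      push_cast
      ring
    rw [e1]
    refine h1.trans ?_
    have h2 : |y| ^ 3 ≤ |y| ^ (9 / 4 : ℝ) := by
      rw [← Real.rpow_natCast]
      exact Real.rpow_le_rpow_of_exponent_ge' (abs_nonneg _) h (by norm_num) (by norm_num)
    have h3 : (0 : ℝ) ≤ |y| ^ 3 := by positivity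
    norm_num [Nat.factorial]
    linarith
  · have h1 : ‖Complex.exp (y * I)‖ = 1 := Complex.norm_exp_ofReal_mul_I y
    have h2 : ‖(y * I : ℂ)‖ = |y| := by
      rw [norm_mul, Complex.norm_I, mul_one, Complex.norm_real, Real.norm_eq_abs]
    have h3 : ‖(y : ℂ) ^ 2 / 2‖ = |y| ^ 2 / 2 := by
      rw [norm_div, norm_pow, Complex.norm_real, Real.norm_eq_abs]
      norm_num
    calc ‖Complex.exp (y * I) - 1 - y * I + (y : ℂ) ^ 2 / 2‖
        ≤ ‖Complex.exp (y * I) - 1 - y * I‖ + ‖(y : ℂ) ^ 2 / 2‖ := norm_add_le _ _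
      _ ≤ (‖Complex.exp (y * I) - 1‖ + ‖(y * I : ℂ)‖) + ‖(y : ℂ) ^ 2 / 2‖ := by
          gcongr; exact norm_sub_le _ _
      _ ≤ ((‖Complex.exp (y * I)‖ + ‖(1 : ℂ)‖) + ‖(y * I : ℂ)‖) + ‖(y : ℂ) ^ 2 / 2‖ := by
          gcongr; exact norm_sub_le _ _
      _ = 2 + |y| + |y| ^ 2 / 2 := by rw [h1, h2, h3, norm_one]; ring
      _ ≤ 4 * |y| ^ 2 := by nlinarith
      _ ≤ 4 * |y| ^ (9 / 4 : ℝ) := by
          have : |y| ^ 2 ≤ |y| ^ (9 / 4 : ℝ) := by
            rw [← Real.rpow_natCast]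
            exact Real.rpow_le_rpow_of_exponent_le h (by norm_num)
          linarith

lemma prod_bound {b x x' : ℝ} (hx : |x'| ≤ |x|) :
    |b| * ‖Complex.exp (x' * I) - 1‖ ≤ 2 * (|b| ^ (9 / 8 : ℝ) + |x| ^ (9 / 4 : ℝ)) := by
  have n1 : ‖Complex.exp (x' * I) - 1‖ ≤ 2 := by
    calc _ ≤ ‖Complex.exp (x' * I)‖ + ‖(1 : ℂ)‖ := norm_sub_le _ _
      _ = 2 := by rw [Complex.norm_exp_ofReal_mul_I, norm_one]; norm_num
  have n2 : ‖Complex.exp (x' * I) - 1‖ ≤ |x| := by
    have := Real.norm_exp_I_mul_ofReal_sub_one_le (x := x')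
    rw [mul_comm] at this
    exact this.trans (by rw [Real.norm_eq_abs]; exact hx)
  have n0 := norm_nonneg (Complex.exp (x' * I) - 1)
  have pb := Real.rpow_nonneg (abs_nonneg b) (9 / 8 : ℝ)
  have px := Real.rpow_nonneg (abs_nonneg x) (9 / 4 : ℝ)
  rcases le_total 1 |b| with hb | hb
  · have h1 : |b| ≤ |b| ^ (9 / 8 : ℝ) := Real.self_le_rpow_of_one_le hb (by norm_num)
    nlinarith [abs_nonneg b]
  · rcases le_total 1 |x| with hx1 | hx1
    · have h1 : 1 ≤ |x| ^ (9 / 4 : ℝ) := Real.one_le_rpow hx1 (by norm_num)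
      nlinarith [abs_nonneg b]
    · rcases le_total |b| (|x| ^ 2) with h | h
      · have h1 : |x| ^ 3 ≤ |x| ^ (9 / 4 : ℝ) := by
          rw [← Real.rpow_natCast]
          exact Real.rpow_le_rpow_of_exponent_ge' (abs_nonneg _) hx1 (by norm_num) (by norm_num)
        have h2 : |b| * ‖Complex.exp (x' * I) - 1‖ ≤ |x| ^ 2 * |x| :=
          mul_le_mul h n2 n0 (by positivity)
        nlinarith
      · have h1 : |x| ≤ |b| ^ (1 / 8 : ℝ) := by
          have h3 : |x| ^ 8 ≤ |b| := by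
            calc |x| ^ 8 ≤ |x| ^ 2 := pow_le_pow_of_le_one (abs_nonneg _) hx1 (by norm_num)
              _ ≤ |b| := h
          calc |x| = (|x| ^ (8 : ℕ)) ^ (1 / 8 : ℝ) := by
                rw [← Real.rpow_natCast, ← Real.rpow_mul (abs_nonneg _)]
                norm_num
            _ ≤ |b| ^ (1 / 8 : ℝ) := Real.rpow_le_rpow (by positivity) h3 (by norm_num)
        have h2 : |b| * |b| ^ (1 / 8 : ℝ) = |b| ^ (9 / 8 : ℝ) := by
          rcases (abs_nonneg b).eq_or_lt with h0 | h0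
          · rw [← h0, Real.zero_rpow (by norm_num), Real.zero_rpow (by norm_num), mul_zero]
          · rw [show (9 / 8 : ℝ) = 1 + 1 / 8 by norm_num, Real.rpow_add h0, Real.rpow_one]
        have h4 : |b| * ‖Complex.exp (x' * I) - 1‖ ≤ |b| * |b| ^ (1 / 8 : ℝ) :=
          mul_le_mul_of_nonneg_left (n2.trans h1) (abs_nonneg _)
        rw [h2] at h4
        linarith

lemma eps_rpow_le {ε s : ℝ} (h0 : 0 ≤ ε) (h1 : ε ≤ 1) (hs : 1 ≤ s) : ε ^ s ≤ ε := by
  calc ε ^ s ≤ ε ^ (1 : ℝ) := Real.rpow_le_rpow_of_exponent_ge' h0 h1 (by norm_num) hs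
    _ = ε := Real.rpow_one ε

lemma step {ε u0 u1 x : ℝ} (h0 : 0 ≤ ε) (h1 : ε ≤ 1) (hu0 : 0 ≤ u0) (hu1 : 0 ≤ u1) :
    ‖((1 - ε : ℝ) : ℂ) * (Real.exp (-u0) : ℂ) * Complex.exp ((-(ε * x) : ℝ) * I) +
      (ε : ℂ) * (Real.exp (-u1) : ℂ) * Complex.exp (((1 - ε) * x : ℝ) * I) -
      (Real.exp (-(u0 + (ε * (u1 - u0) + ε * (1 - ε) * x ^ 2 / 2))) : ℂ)‖ ≤
    12 * (ε * (|x| ^ (9 / 4 : ℝ) + |u1 - u0| ^ (9 / 8 : ℝ))) := by
  set b := u1 - u0 with hb
  set Δ := ε * b + ε * (1 - ε) * x ^ 2 / 2 with hΔ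
  have hε1 : 0 ≤ 1 - ε := by linarith
  have hu : 0 ≤ u0 + Δ := by
    have : u0 + Δ = (1 - ε) * u0 + ε * u1 + ε * (1 - ε) * x ^ 2 / 2 := by rw [hΔ, hb]; ring
    rw [this]; positivity
  set r1 := Real.exp (-u1) - Real.exp (-u0) * (1 - b) with hr1
  set r2 := Real.exp (-(u0 + Δ)) - Real.exp (-u0) * (1 - Δ) with hr2
  have b1 : |r1| ≤ |b| ^ (9 / 8 : ℝ) := expo hu0 hu1 (by norm_num) (by norm_num)
  have b2 : |r2| ≤ |Δ| ^ (9 / 8 : ℝ) := by
    have := expo (s := 9 / 8) hu0 hu (by norm_num) (by norm_num)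
    have e : u0 + Δ - u0 = Δ := by ring
    rw [e] at this
    exact this
  set c1 := Complex.exp ((-(ε * x) : ℝ) * I) - 1 - ((-(ε * x) : ℝ) : ℂ) * I +
    ((-(ε * x) : ℝ) : ℂ) ^ 2 / 2 with hc1
  set c2 := Complex.exp (((1 - ε) * x : ℝ) * I) - 1 - (((1 - ε) * x : ℝ) : ℂ) * I +
    (((1 - ε) * x : ℝ) : ℂ) ^ 2 / 2 with hc2
  set c3 := Complex.exp (((1 - ε) * x : ℝ) * I) - 1 with hc3
  have n1 : ‖c1‖ ≤ 4 * |-(ε * x)| ^ (9 / 4 : ℝ) := cexp2 _
  have n2 : ‖c2‖ ≤ 4 * |(1 - ε) * x| ^ (9 / 4 : ℝ) := cexp2 _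
  have hx' : |(1 - ε) * x| ≤ |x| := by
    rw [abs_mul, abs_of_nonneg hε1]
    nlinarith [abs_nonneg x]
  have n3 : |b| * ‖c3‖ ≤ 2 * (|b| ^ (9 / 8 : ℝ) + |x| ^ (9 / 4 : ℝ)) := prod_bound hx'
  set X := |x| ^ (9 / 4 : ℝ) with hX
  set B := |b| ^ (9 / 8 : ℝ) with hB
  have hX0 : 0 ≤ X := Real.rpow_nonneg (abs_nonneg _) _
  have hB0 : 0 ≤ B := Real.rpow_nonneg (abs_nonneg _) _
  have n1' : (1 - ε) * ‖c1‖ ≤ 4 * (ε * X) := by
    have : |-(ε * x)| ^ (9 / 4 : ℝ) ≤ ε * X := by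
      rw [abs_neg, abs_mul, abs_of_nonneg h0, Real.mul_rpow h0 (abs_nonneg _)]
      exact mul_le_mul_of_nonneg_right (eps_rpow_le h0 h1 (by norm_num)) hX0
    have h2 : (1 - ε) * ‖c1‖ ≤ 1 * ‖c1‖ :=
      mul_le_mul_of_nonneg_right (by linarith) (norm_nonneg _)
    linarith
  have n2' : ε * ‖c2‖ ≤ 4 * (ε * X) := by
    have : |(1 - ε) * x| ^ (9 / 4 : ℝ) ≤ X :=
      Real.rpow_le_rpow (abs_nonneg _) hx' (by norm_num)
    have h2 : ε * ‖c2‖ ≤ ε * (4 * X) := mul_le_mul_of_nonneg_left (by linarith) h0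
    linarith
  have n3' : ε * (|b| * ‖c3‖) ≤ 2 * (ε * B) + 2 * (ε * X) := by
    have := mul_le_mul_of_nonneg_left n3 h0
    linarith
  have n4 : ε * |r1| ≤ ε * B := mul_le_mul_of_nonneg_left b1 h0
  have n5 : |r2| ≤ 11 / 10 * (ε * B) + 11 / 10 * (ε * X) := by
    have hΔ1 : |Δ| ≤ ε * (|b| + x ^ 2) := by
      calc |Δ| ≤ |ε * b| + |ε * (1 - ε) * x ^ 2 / 2| := abs_add_le _ _
        _ = ε * |b| + ε * (1 - ε) * x ^ 2 / 2 := by
            rw [abs_mul, abs_of_nonneg h0, abs_of_nonneg (a := ε * (1 - ε) * x ^ 2 / 2)]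
            positivity
        _ ≤ _ := by
            have t1 := mul_nonneg h0 (sq_nonneg x)
            have t2 := mul_nonneg (mul_nonneg h0 h0) (sq_nonneg x)
            nlinarith
    have h2 : |Δ| ^ (9 / 8 : ℝ) ≤ (ε * (|b| + x ^ 2)) ^ (9 / 8 : ℝ) :=
      Real.rpow_le_rpow (abs_nonneg _) hΔ1 (by norm_num)
    rw [Real.mul_rpow h0 (by positivity)] at h2
    have h3 := F.num4 (abs_nonneg b) (sq_nonneg x)
    rw [F.sq_rpow] at h3
    have h4 : ε ^ (9 / 8 : ℝ) * (|b| + x ^ 2) ^ (9 / 8 : ℝ) ≤ ε * (11 / 10 * (B + X)) :=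
      mul_le_mul (eps_rpow_le h0 h1 (by norm_num)) h3 (by positivity) h0
    linarith
  have key : ((1 - ε : ℝ) : ℂ) * (Real.exp (-u0) : ℂ) * Complex.exp ((-(ε * x) : ℝ) * I) +
      (ε : ℂ) * (Real.exp (-u1) : ℂ) * Complex.exp (((1 - ε) * x : ℝ) * I) -
      (Real.exp (-(u0 + Δ)) : ℂ) =
      (Real.exp (-u0) : ℂ) * (((1 - ε : ℝ) : ℂ) * c1 + (ε : ℂ) * c2 - (ε : ℂ) * ((b : ℂ) * c3)) +
        (ε : ℂ) * (r1 : ℂ) * Complex.exp (((1 - ε) * x : ℝ) * I) - (r2 : ℂ) := by
    have q1 : (Real.exp (-u1) : ℂ) = r1 + (Real.exp (-u0) : ℂ) * (1 - b) := by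
      rw [hr1]; push_cast; ring
    have q2 : (Real.exp (-(u0 + Δ)) : ℂ) = r2 + (Real.exp (-u0) : ℂ) * (1 - Δ) := by
      rw [hr2]; push_cast; ring
    rw [q1, q2, hc1, hc2, hc3]
    generalize Complex.exp ((-(ε * x) : ℝ) * I) = z1
    generalize Complex.exp (((1 - ε) * x : ℝ) * I) = z2
    generalize (Real.exp (-u0) : ℂ) = e0
    rw [hΔ]
    push_cast
    ring
  rw [key]
  have e0 : ‖(Real.exp (-u0) : ℂ)‖ ≤ 1 := by
    rw [Complex.norm_real, Real.norm_of_nonneg (Real.exp_pos _).le, Real.exp_le_one_iff]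
    linarith
  have nε : ‖(ε : ℂ)‖ = ε := by rw [Complex.norm_real, Real.norm_of_nonneg h0]
  have nε1 : ‖((1 - ε : ℝ) : ℂ)‖ = 1 - ε := by rw [Complex.norm_real, Real.norm_of_nonneg hε1]
  calc _ ≤ ‖(Real.exp (-u0) : ℂ) * (((1 - ε : ℝ) : ℂ) * c1 + (ε : ℂ) * c2 -
            (ε : ℂ) * ((b : ℂ) * c3)) +
          (ε : ℂ) * (r1 : ℂ) * Complex.exp (((1 - ε) * x : ℝ) * I)‖ + ‖(r2 : ℂ)‖ :=
        norm_sub_le _ _
    _ ≤ ‖(Real.exp (-u0) : ℂ) * (((1 - ε : ℝ) : ℂ) * c1 + (ε : ℂ) * c2 -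
            (ε : ℂ) * ((b : ℂ) * c3))‖ +
          ‖(ε : ℂ) * (r1 : ℂ) * Complex.exp (((1 - ε) * x : ℝ) * I)‖ + ‖(r2 : ℂ)‖ := by
        gcongr; exact norm_add_le _ _
    _ ≤ ((1 - ε) * ‖c1‖ + ε * ‖c2‖ + ε * (|b| * ‖c3‖)) + ε * |r1| + |r2| := by
        apply add_le_add
        · apply add_le_add
          · rw [norm_mul]
            have t1 : ‖((1 - ε : ℝ) : ℂ) * c1 + (ε : ℂ) * c2 - (ε : ℂ) * ((b : ℂ) * c3)‖ ≤
                (1 - ε) * ‖c1‖ + ε * ‖c2‖ + ε * (|b| * ‖c3‖) := by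
              calc _ ≤ ‖((1 - ε : ℝ) : ℂ) * c1 + (ε : ℂ) * c2‖ + ‖(ε : ℂ) * ((b : ℂ) * c3)‖ :=
                    norm_sub_le _ _
                _ ≤ ‖((1 - ε : ℝ) : ℂ) * c1‖ + ‖(ε : ℂ) * c2‖ + ‖(ε : ℂ) * ((b : ℂ) * c3)‖ := by
                    gcongr; exact norm_add_le _ _
                _ = _ := by
                    rw [norm_mul, norm_mul, norm_mul, norm_mul, nε, nε1, Complex.norm_real,
                      Real.norm_eq_abs]
            calc _ ≤ 1 * ‖((1 - ε : ℝ) : ℂ) * c1 + (ε : ℂ) * c2 - (ε : ℂ) * ((b : ℂ) * c3)‖ :=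
                  mul_le_mul_of_nonneg_right e0 (norm_nonneg _)
              _ ≤ _ := by rw [one_mul]; exact t1
          · rw [norm_mul, norm_mul, nε, Complex.norm_exp_ofReal_mul_I, mul_one,
              Complex.norm_real, Real.norm_eq_abs]
        · rw [Complex.norm_real, Real.norm_eq_abs]
    _ ≤ _ := by
        have := mul_nonneg h0 hX0
        have := mul_nonneg h0 hB0
        linarith

end Pool.Agent.Lib.MP_24a1b5_co
end

section

set_option autoImplicit false

namespace Pool.Agent.Lib.MP_24a1b5_co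

open Complex (I)

namespace F

variable {V : Type*} {l : ℝ}

/-- centred characteristic functions of the number of occupied vertices: free, and with all
roots unoccupied -/
noncomputable def ch (l φ : ℝ) : F V → ℂ × ℂ
  | nil => (1, 1)
  | cons _ c r =>
    ((((1 - eps l c : ℝ) : ℂ) * (ch l φ c).1 *
        Complex.exp ((-(eps l c * (φ * Dd l c)) : ℝ) * I) +
      (eps l c : ℂ) * (ch l φ c).2 *
        Complex.exp (((1 - eps l c) * (φ * Dd l c) : ℝ) * I)) * (ch l φ r).1,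
     (ch l φ c).1 * (ch l φ r).2)

lemma norm_ch_le (hl : 0 < l) (φ : ℝ) : ∀ f : F V, ‖(ch l φ f).1‖ ≤ 1 ∧ ‖(ch l φ f).2‖ ≤ 1
  | nil => by simp [ch]
  | cons v c r => by
      obtain ⟨c1, c2⟩ := norm_ch_le hl φ c
      obtain ⟨r1, r2⟩ := norm_ch_le hl φ r
      have he := eps_pos hl c
      have he1 := eps_lt_one hl c
      constructor
      · rw [ch]
        simp only
        rw [norm_mul]
        have h1 : ‖((1 - eps l c : ℝ) : ℂ) * (ch l φ c).1 *
            Complex.exp ((-(eps l c * (φ * Dd l c)) : ℝ) * I) +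
            (eps l c : ℂ) * (ch l φ c).2 *
            Complex.exp (((1 - eps l c) * (φ * Dd l c) : ℝ) * I)‖ ≤ 1 := by
          calc _ ≤ ‖((1 - eps l c : ℝ) : ℂ) * (ch l φ c).1 *
                Complex.exp ((-(eps l c * (φ * Dd l c)) : ℝ) * I)‖ +
                ‖(eps l c : ℂ) * (ch l φ c).2 *
                Complex.exp (((1 - eps l c) * (φ * Dd l c) : ℝ) * I)‖ := norm_add_le _ _
            _ = (1 - eps l c) * ‖(ch l φ c).1‖ + eps l c * ‖(ch l φ c).2‖ := by
                rw [norm_mul, norm_mul, norm_mul, norm_mul, Complex.norm_exp_ofReal_mul_I,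
                  Complex.norm_exp_ofReal_mul_I, Complex.norm_real, Complex.norm_real,
                  Real.norm_of_nonneg he.le, Real.norm_of_nonneg (by linarith), mul_one, mul_one]
            _ ≤ (1 - eps l c) * 1 + eps l c * 1 := by
                apply add_le_add
                · exact mul_le_mul_of_nonneg_left c1 (by linarith)
                · exact mul_le_mul_of_nonneg_left c2 he.le
            _ = 1 := by ring
        exact mul_le_one₀ h1 (norm_nonneg _) r1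
      · rw [ch]
        simp only
        rw [norm_mul]
        exact mul_le_one₀ c1 (norm_nonneg _) r2

/-- one step error -/
noncomputable def eta (l φ : ℝ) (c : F V) : ℝ :=
  12 * (eps l c * (|φ * Dd l c| ^ (9 / 4 : ℝ) + |φ ^ 2 / 2 * Bb l c| ^ (9 / 8 : ℝ)))

lemma eta_nonneg (hl : 0 < l) (φ : ℝ) (c : F V) : 0 ≤ eta l φ c := by
  have h1 := eps_pos hl c
  have h2 := Real.rpow_nonneg (abs_nonneg (φ * Dd l c)) (9 / 4 : ℝ)
  have h3 := Real.rpow_nonneg (abs_nonneg (φ ^ 2 / 2 * Bb l c)) (9 / 8 : ℝ)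
  rw [eta]; positivity

lemma norm_mul_sub_mul_le {a b c d : ℂ} (ha : ‖a‖ ≤ 1) (hd : ‖d‖ ≤ 1) :
    ‖a * b - c * d‖ ≤ ‖a - c‖ + ‖b - d‖ := by
  have : a * b - c * d = a * (b - d) + (a - c) * d := by ring
  rw [this]
  calc _ ≤ ‖a * (b - d)‖ + ‖(a - c) * d‖ := norm_add_le _ _
    _ = ‖a‖ * ‖b - d‖ + ‖a - c‖ * ‖d‖ := by rw [norm_mul, norm_mul]
    _ ≤ 1 * ‖b - d‖ + ‖a - c‖ * 1 := by
        apply add_le_add
        · exact mul_le_mul_of_nonneg_right ha (norm_nonneg _)
        · exact mul_le_mul_of_nonneg_left hd (norm_nonneg _)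
    _ = _ := by ring

/-- comparison with Gaussian characteristic functions -/
lemma gauss (hl : 0 < l) (φ : ℝ) : ∀ f : F V,
    ‖(ch l φ f).1 - (Real.exp (-(φ ^ 2 / 2 * Vr l f)) : ℂ)‖ ≤ ts (eta l φ) f ∧
    ‖(ch l φ f).2 - (Real.exp (-(φ ^ 2 / 2 * (Vr l f - SB l f))) : ℂ)‖ ≤ ts (eta l φ) f
  | nil => by simp [ch, Vr, SB, ts]
  | cons v c r => by
      obtain ⟨c1, c2⟩ := gauss hl φ c
      obtain ⟨r1, r2⟩ := gauss hl φ r
      have he := eps_pos hl c
      have he1 := eps_lt_one hl c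
      have hη := eta_nonneg hl φ c
      have e1 : Vr l (cons v c r) = eps l c * Bb l c + eps l c * (1 - eps l c) * (Dd l c) ^ 2 +
          Vr l c + Vr l r := rfl
      have e2 : SB l (cons v c r) = eps l c * (- SB l c) +
          eps l c * (1 - eps l c) * (Dd l c) ^ 2 + SB l r := rfl
      have e3 : ts (eta l φ) (cons v c r) = eta l φ c + ts (eta l φ) c + ts (eta l φ) r := rfl
      have hexp : ∀ x : ℝ, 0 ≤ x → ‖(Real.exp (-x) : ℂ)‖ ≤ 1 := by
        intro x hx
        rw [Complex.norm_real, Real.norm_of_nonneg (Real.exp_pos _).le, Real.exp_le_one_iff]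
        linarith
      have hVc := Vr_nonneg hl c
      have hVo := Vout_nonneg hl c
      have hVr := Vr_nonneg hl r
      have hVro := Vout_nonneg hl r
      have hφ : 0 ≤ φ ^ 2 / 2 := by positivity
      obtain ⟨nc1, nc2⟩ := norm_ch_le hl φ c
      obtain ⟨nr1, nr2⟩ := norm_ch_le hl φ r
      constructor
      · -- first component
        set P := ((1 - eps l c : ℝ) : ℂ) * (ch l φ c).1 *
            Complex.exp ((-(eps l c * (φ * Dd l c)) : ℝ) * I) +
            (eps l c : ℂ) * (ch l φ c).2 *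
            Complex.exp (((1 - eps l c) * (φ * Dd l c) : ℝ) * I) with hP
        set Q := ((1 - eps l c : ℝ) : ℂ) * (Real.exp (-(φ ^ 2 / 2 * Vr l c)) : ℂ) *
            Complex.exp ((-(eps l c * (φ * Dd l c)) : ℝ) * I) +
            (eps l c : ℂ) * (Real.exp (-(φ ^ 2 / 2 * (Vr l c - SB l c))) : ℂ) *
            Complex.exp (((1 - eps l c) * (φ * Dd l c) : ℝ) * I) with hQ
        set g : ℝ := eps l c * Bb l c + eps l c * (1 - eps l c) * (Dd l c) ^ 2 + Vr l c with hg
        have hg0 : 0 ≤ g := by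
          have h1 : g = (1 - eps l c) * Vr l c + eps l c * (Vr l c - SB l c) +
              eps l c * (1 - eps l c) * (Dd l c) ^ 2 := by rw [hg, Bb]; ring
          have h2 : 0 ≤ 1 - eps l c := by linarith
          rw [h1]; positivity
        have hch : (ch l φ (cons v c r)).1 = P * (ch l φ r).1 := rfl
        have s1 : ‖P - Q‖ ≤ ts (eta l φ) c := by
          have : P - Q = ((1 - eps l c : ℝ) : ℂ) *
              ((ch l φ c).1 - (Real.exp (-(φ ^ 2 / 2 * Vr l c)) : ℂ)) *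
              Complex.exp ((-(eps l c * (φ * Dd l c)) : ℝ) * I) +
              (eps l c : ℂ) *
              ((ch l φ c).2 - (Real.exp (-(φ ^ 2 / 2 * (Vr l c - SB l c))) : ℂ)) *
              Complex.exp (((1 - eps l c) * (φ * Dd l c) : ℝ) * I) := by
            rw [hP, hQ]; ring
          rw [this]
          calc _ ≤ ‖((1 - eps l c : ℝ) : ℂ) *
              ((ch l φ c).1 - (Real.exp (-(φ ^ 2 / 2 * Vr l c)) : ℂ)) *
              Complex.exp ((-(eps l c * (φ * Dd l c)) : ℝ) * I)‖ +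
              ‖(eps l c : ℂ) *
              ((ch l φ c).2 - (Real.exp (-(φ ^ 2 / 2 * (Vr l c - SB l c))) : ℂ)) *
              Complex.exp (((1 - eps l c) * (φ * Dd l c) : ℝ) * I)‖ := norm_add_le _ _
            _ = (1 - eps l c) * ‖(ch l φ c).1 - (Real.exp (-(φ ^ 2 / 2 * Vr l c)) : ℂ)‖ +
                eps l c *
                ‖(ch l φ c).2 - (Real.exp (-(φ ^ 2 / 2 * (Vr l c - SB l c))) : ℂ)‖ := by
                rw [norm_mul, norm_mul, norm_mul, norm_mul, Complex.norm_exp_ofReal_mul_I,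
                  Complex.norm_exp_ofReal_mul_I, Complex.norm_real, Complex.norm_real,
                  Real.norm_of_nonneg he.le, Real.norm_of_nonneg (by linarith), mul_one, mul_one]
            _ ≤ (1 - eps l c) * ts (eta l φ) c + eps l c * ts (eta l φ) c := by
                apply add_le_add
                · exact mul_le_mul_of_nonneg_left c1 (by linarith)
                · exact mul_le_mul_of_nonneg_left c2 he.le
            _ = _ := by ring
        have s2 : ‖Q - (Real.exp (-(φ ^ 2 / 2 * g)) : ℂ)‖ ≤ eta l φ c := by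
          have h := step (ε := eps l c) (u0 := φ ^ 2 / 2 * Vr l c)
            (u1 := φ ^ 2 / 2 * (Vr l c - SB l c)) (x := φ * Dd l c) he.le he1.le
            (mul_nonneg hφ hVc) (mul_nonneg hφ hVo)
          have hb : φ ^ 2 / 2 * (Vr l c - SB l c) - φ ^ 2 / 2 * Vr l c =
              φ ^ 2 / 2 * Bb l c := by rw [Bb]; ring
          rw [hb] at h
          have hgg : φ ^ 2 / 2 * Vr l c + (eps l c * (φ ^ 2 / 2 * Bb l c) +
              eps l c * (1 - eps l c) * (φ * Dd l c) ^ 2 / 2) = φ ^ 2 / 2 * g := by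
            rw [hg]; ring
          rw [hgg] at h
          exact h
        have s3 : ‖P‖ ≤ 1 := by
          have h1 := (norm_ch_le hl φ (cons v c nil)).1
          have h2 : (ch l φ (cons v c nil)).1 = P * 1 := rfl
          rw [h2, mul_one] at h1
          exact h1
        have hE : (Real.exp (-(φ ^ 2 / 2 * Vr l (cons v c r))) : ℂ) =
            (Real.exp (-(φ ^ 2 / 2 * g)) : ℂ) * (Real.exp (-(φ ^ 2 / 2 * Vr l r)) : ℂ) := by
          rw [← Complex.ofReal_mul, ← Real.exp_add, e1]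
          congr 2
          rw [hg]; ring
        rw [hch, hE, e3]
        have h5 := norm_mul_sub_mul_le (a := P) (b := (ch l φ r).1)
          (c := (Real.exp (-(φ ^ 2 / 2 * g)) : ℂ))
          (d := (Real.exp (-(φ ^ 2 / 2 * Vr l r)) : ℂ)) s3 (hexp _ (mul_nonneg hφ hVr))
        have h6 : ‖P - (Real.exp (-(φ ^ 2 / 2 * g)) : ℂ)‖ ≤ ts (eta l φ) c + eta l φ c := by
          calc _ ≤ ‖P - Q‖ + ‖Q - (Real.exp (-(φ ^ 2 / 2 * g)) : ℂ)‖ := norm_sub_le_norm_sub_add_norm_sub _ _ _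
            _ ≤ _ := add_le_add s1 s2
        linarith
      · have hch : (ch l φ (cons v c r)).2 = (ch l φ c).1 * (ch l φ r).2 := rfl
        have hE : (Real.exp (-(φ ^ 2 / 2 * (Vr l (cons v c r) - SB l (cons v c r)))) : ℂ) =
            (Real.exp (-(φ ^ 2 / 2 * Vr l c)) : ℂ) *
              (Real.exp (-(φ ^ 2 / 2 * (Vr l r - SB l r))) : ℂ) := by
          rw [← Complex.ofReal_mul, ← Real.exp_add, e1, e2]
          congr 2
          rw [Bb]; ring
        rw [hch, hE, e3]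
        have h5 := norm_mul_sub_mul_le (a := (ch l φ c).1) (b := (ch l φ r).2)
          (c := (Real.exp (-(φ ^ 2 / 2 * Vr l c)) : ℂ))
          (d := (Real.exp (-(φ ^ 2 / 2 * (Vr l r - SB l r))) : ℂ)) nc1
          (hexp _ (mul_nonneg hφ hVro))
        linarith

lemma ts_eta_le (hl : 0 < l) (hl2 : l ≤ 9 / 2) (φ : ℝ) (f : F V) :
    ts (eta l φ) f ≤ 10000000 * (|φ| ^ (9 / 4 : ℝ) * sz f) := by
  have h1 := ts_gD_le hl hl2 f
  have h2 := ts_gB_le hl hl2 f
  have hφ0 : 0 ≤ |φ| ^ (9 / 4 : ℝ) := Real.rpow_nonneg (abs_nonneg _) _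
  have h3 : ts (eta l φ) f ≤ ts (fun c => (12 * |φ| ^ (9 / 4 : ℝ)) * (gD l c + gB l c)) f := by
    apply ts_mono
    intro c
    have he := eps_pos hl c
    have a1 : |φ * Dd l c| ^ (9 / 4 : ℝ) = |φ| ^ (9 / 4 : ℝ) * |Dd l c| ^ (9 / 4 : ℝ) := by
      rw [abs_mul, Real.mul_rpow (abs_nonneg _) (abs_nonneg _)]
    have a2 : |φ ^ 2 / 2 * Bb l c| ^ (9 / 8 : ℝ) ≤
        |φ| ^ (9 / 4 : ℝ) * |Bb l c| ^ (9 / 8 : ℝ) := by
      rw [abs_mul, Real.mul_rpow (abs_nonneg _) (abs_nonneg _)]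
      apply mul_le_mul_of_nonneg_right _ (Real.rpow_nonneg (abs_nonneg _) _)
      rw [← sq_rpow φ]
      apply Real.rpow_le_rpow (abs_nonneg _) _ (by norm_num)
      rw [abs_of_nonneg (by positivity)]
      nlinarith [sq_nonneg φ]
    have a3 : |φ * Dd l c| ^ (9 / 4 : ℝ) + |φ ^ 2 / 2 * Bb l c| ^ (9 / 8 : ℝ) ≤
        |φ| ^ (9 / 4 : ℝ) * (|Dd l c| ^ (9 / 4 : ℝ) + |Bb l c| ^ (9 / 8 : ℝ)) := by
      rw [a1]; linarith
    have a4 := mul_le_mul_of_nonneg_left a3 he.le
    calc eta l φ c = 12 * (eps l c * (|φ * Dd l c| ^ (9 / 4 : ℝ) +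
          |φ ^ 2 / 2 * Bb l c| ^ (9 / 8 : ℝ))) := rfl
      _ ≤ 12 * (eps l c * (|φ| ^ (9 / 4 : ℝ) *
          (|Dd l c| ^ (9 / 4 : ℝ) + |Bb l c| ^ (9 / 8 : ℝ)))) := by linarith
      _ = _ := by rw [gD, gB]; ring
  rw [ts_mul, ts_add] at h3
  refine h3.trans ?_
  have h4 : ts (gD l) f + ts (gB l) f ≤ 608400 * sz f := by linarith
  calc 12 * |φ| ^ (9 / 4 : ℝ) * (ts (gD l) f + ts (gB l) f)
      ≤ 12 * |φ| ^ (9 / 4 : ℝ) * (608400 * sz f) :=
        mul_le_mul_of_nonneg_left h4 (by positivity)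
    _ = 7300800 * (|φ| ^ (9 / 4 : ℝ) * sz f) := by ring
    _ ≤ _ := by
        have : 0 ≤ |φ| ^ (9 / 4 : ℝ) * (sz f : ℝ) := mul_nonneg hφ0 (Nat.cast_nonneg _)
        linarith

/-- the Gaussian approximation of the characteristic function -/
lemma gauss' (hl : 0 < l) (hl2 : l ≤ 9 / 2) (φ : ℝ) (f : F V) :
    ‖(ch l φ f).1 - (Real.exp (-(φ ^ 2 / 2 * Vr l f)) : ℂ)‖ ≤
      10000000 * (|φ| ^ (9 / 4 : ℝ) * sz f) :=
  (gauss hl φ f).1.trans (ts_eta_le hl hl2 φ f)

lemma ZF_pos (hl : 0 < l) : ∀ f : F V, 0 < (ZF l f).1 ∧ (ZF l f).2 = Lo l f * (ZF l f).1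
  | nil => by simp [ZF, Lo]
  | cons v c r => by
      obtain ⟨c1, c2⟩ := ZF_pos hl c
      obtain ⟨r1, r2⟩ := ZF_pos hl r
      have hL := Lo_pos hl c
      constructor
      · rw [ZF]
        simp only
        rw [c2]
        positivity
      · rw [ZF, Lo]
        simp only
        rw [c2, r2]
        have : 1 + l * Lo l c ≠ 0 := by positivity
        field_simp

lemma ZF_ofReal (l : ℝ) : ∀ f : F V, (ZF (l : ℂ) f).1 = ((ZF l f).1 : ℂ) ∧
    (ZF (l : ℂ) f).2 = ((ZF l f).2 : ℂ)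
  | nil => by simp [ZF]
  | cons v c r => by
      obtain ⟨c1, c2⟩ := ZF_ofReal l c
      obtain ⟨r1, r2⟩ := ZF_ofReal l r
      constructor
      · rw [ZF, ZF]
        simp only
        rw [c1, c2, r1]
        push_cast
        ring
      · rw [ZF, ZF]
        simp only
        rw [c1, r2]
        push_cast
        ring

lemma ZF_ch (hl : 0 < l) (φ : ℝ) : ∀ f : F V,
    (ZF ((l : ℂ) * Complex.exp (φ * I)) f).1 =
      ((ZF l f).1 : ℂ) * (ch l φ f).1 * Complex.exp ((φ * Mn l f : ℝ) * I) ∧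
    (ZF ((l : ℂ) * Complex.exp (φ * I)) f).2 =
      ((ZF l f).2 : ℂ) * (ch l φ f).2 * Complex.exp ((φ * (Mn l f - SD l f) : ℝ) * I)
  | nil => by simp [ZF, ch, Mn, ts, SD]
  | cons v c r => by
      obtain ⟨c1, c2⟩ := ZF_ch hl φ c
      obtain ⟨r1, r2⟩ := ZF_ch hl φ r
      obtain ⟨-, hc⟩ := ZF_pos hl c
      obtain ⟨-, hr⟩ := ZF_pos hl r
      have hL := Lo_pos hl c
      have e1 : Mn l (cons v c r) = eps l c * Dd l c + Mn l c + Mn l r := rfl
      have e2 : SD l (cons v c r) = eps l c * Dd l c + SD l r := rfl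
      have hne : (1 + l * Lo l c) ≠ 0 := by positivity
      have h1 : (1 + l * Lo l c) * (1 - eps l c) = 1 := by
        rw [← one_sub_eps hl c]; field_simp
      have h2 : (1 + l * Lo l c) * eps l c = l * Lo l c := by
        rw [eps]; field_simp
      have h1' : (1 + (l : ℂ) * (Lo l c : ℂ)) * ((1 - eps l c : ℝ) : ℂ) = 1 := by
        have := congrArg (fun x : ℝ => (x : ℂ)) h1
        push_cast at this ⊢
        exact this
      have h2' : (1 + (l : ℂ) * (Lo l c : ℂ)) * (eps l c : ℂ) = l * (Lo l c : ℂ) := by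
        have := congrArg (fun x : ℝ => (x : ℂ)) h2
        push_cast at this ⊢
        exact this
      constructor
      · have hZ : (ZF ((l : ℂ) * Complex.exp (φ * I)) (cons v c r)).1 =
            ((ZF ((l : ℂ) * Complex.exp (φ * I)) c).1 + (l : ℂ) * Complex.exp (φ * I) *
              (ZF ((l : ℂ) * Complex.exp (φ * I)) c).2) *
              (ZF ((l : ℂ) * Complex.exp (φ * I)) r).1 := rfl
        have hZl : (ZF l (cons v c r)).1 = ((ZF l c).1 + l * (ZF l c).2) * (ZF l r).1 := rfl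
        have hch : (ch l φ (cons v c r)).1 = (((1 - eps l c : ℝ) : ℂ) * (ch l φ c).1 *
            Complex.exp ((-(eps l c * (φ * Dd l c)) : ℝ) * I) +
            (eps l c : ℂ) * (ch l φ c).2 *
            Complex.exp (((1 - eps l c) * (φ * Dd l c) : ℝ) * I)) * (ch l φ r).1 := rfl
        rw [hZ, c1, c2, r1, hZl, hch, hc]
        -- exponentials
        have x1 : Complex.exp ((φ * Mn l (cons v c r) : ℝ) * I) =
            Complex.exp ((φ * Mn l c : ℝ) * I) * Complex.exp ((φ * Mn l r : ℝ) * I) *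
            Complex.exp ((eps l c * (φ * Dd l c) : ℝ) * I) := by
          rw [← Complex.exp_add, ← Complex.exp_add, e1]
          congr 1
          push_cast
          ring
        have x2 : Complex.exp ((-(eps l c * (φ * Dd l c)) : ℝ) * I) *
            Complex.exp ((eps l c * (φ * Dd l c) : ℝ) * I) = 1 := by
          rw [← Complex.exp_add, ← Complex.exp_zero]
          congr 1
          push_cast
          ring
        have x3 : Complex.exp ((φ * Mn l c : ℝ) * I) *
            (Complex.exp (((1 - eps l c) * (φ * Dd l c) : ℝ) * I) *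
            Complex.exp ((eps l c * (φ * Dd l c) : ℝ) * I)) =
            Complex.exp (φ * I) * Complex.exp ((φ * (Mn l c - SD l c) : ℝ) * I) := by
          rw [← Complex.exp_add, ← Complex.exp_add, ← Complex.exp_add]
          congr 1
          rw [Dd]
          push_cast
          ring
        rw [x1]
        generalize Complex.exp ((φ * Mn l c : ℝ) * I) = a at *
        generalize Complex.exp ((φ * Mn l r : ℝ) * I) = b at *
        generalize Complex.exp ((eps l c * (φ * Dd l c) : ℝ) * I) = c' at *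
        generalize Complex.exp ((-(eps l c * (φ * Dd l c)) : ℝ) * I) = d at *
        generalize Complex.exp (((1 - eps l c) * (φ * Dd l c) : ℝ) * I) = e at *
        generalize Complex.exp (φ * I) = f0 at *
        generalize Complex.exp ((φ * (Mn l c - SD l c) : ℝ) * I) = g at *
        generalize (ch l φ c).1 = p at *
        generalize (ch l φ c).2 = q at *
        generalize (ch l φ r).1 = t at *
        generalize ((1 - eps l c : ℝ) : ℂ) = w1 at *
        rw [show (((ZF l c).1 + l * (Lo l c * (ZF l c).1)) * (ZF l r).1 : ℝ) =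
          (1 + l * Lo l c) * (ZF l c).1 * (ZF l r).1 by ring]
        push_cast
        generalize ((ZF l c).1 : ℂ) = z1 at *
        generalize ((ZF l r).1 : ℂ) = z2 at *
        generalize (Lo l c : ℂ) = L at *
        generalize (eps l c : ℂ) = w2 at *
        generalize (l : ℂ) = l' at *
        -- goal: (z1 p a + l' f0 (L z1 q g)) (z2 t b) = (1 + l' L) z1 z2 ((w1 p d + w2 q e) t) (a b c')
        have y1 : (1 + l' * L) * z1 * z2 * ((w1 * p * d + w2 * q * e) * t) * (a * b * c') =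
            z1 * z2 * t * b * (((1 + l' * L) * w1) * p * a * (d * c') +
              ((1 + l' * L) * w2) * q * (a * (e * c'))) := by ring
        rw [y1, h1', h2', x2, x3]
        ring
      · have hZ : (ZF ((l : ℂ) * Complex.exp (φ * I)) (cons v c r)).2 =
            (ZF ((l : ℂ) * Complex.exp (φ * I)) c).1 *
              (ZF ((l : ℂ) * Complex.exp (φ * I)) r).2 := rfl
        have hZl : (ZF l (cons v c r)).2 = (ZF l c).1 * (ZF l r).2 := rfl
        have hch : (ch l φ (cons v c r)).2 = (ch l φ c).1 * (ch l φ r).2 := rfl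
        rw [hZ, c1, r2, hZl, hch]
        have x1 : Complex.exp ((φ * (Mn l (cons v c r) - SD l (cons v c r)) : ℝ) * I) =
            Complex.exp ((φ * Mn l c : ℝ) * I) *
              Complex.exp ((φ * (Mn l r - SD l r) : ℝ) * I) := by
          rw [← Complex.exp_add, e1, e2]
          congr 1
          push_cast
          ring
        rw [x1]
        push_cast
        ring

end F

end Pool.Agent.Lib.MP_24a1b5_co
end
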