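import Pool.Agent.Lib.MP_24a1b5_co.CA2
import Pool.Agent.Lib.MP_24a1b5_co.Cat.Pos
import Pool.Agent.Lib.MP_24a1b5_co.Ends
import Pool.Prelude.Def_F_f5f3026a

section

/-!
# The invariant of a rooted tree

`U = u(x)`, `U' = u(y)`, `H = h(x)`, `H' = h(y)`, where `u`, `h` are the independence polynomials of the
rooted tree without its root, and without the closed neighbourhood of its root.
-/

set_option autoImplicit false

namespace Pool.Agent.MP24a1b5.CA

variable {R : Type*} [CommRing R]

/-- `x ^ n μ(x)` for the word with the list `l` -/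
def mx (x : R) (n : ℕ) (l : List R) : R := ev (fun i => x ^ (i + 1 + n)) l

lemma mx_succ (x : R) (n : ℕ) (l : List R) : mx x (n + 1) l = x * mx x n l := by
  rw [mx, mx, ← ev_smul]
  exact ev_congr (fun i => by ring) l

lemma mx_zero_cons (x : R) (n : ℕ) (l : List R) : mx x n (0 :: l) = x * mx x n l := by
  rw [mx, mx, ev_cons, ← ev_smul, zero_mul, zero_add]
  exact ev_congr (fun i => by ring) l

lemma mx_cons (x : R) (k : R) (l : List R) : mx x 0 (k :: l) = x * (k + mx x 0 l) := by
  rw [mx, mx, ev_cons, mul_add, ← ev_smul]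
  congr 1
  · ring
  · exact ev_congr (fun i => by ring) l

/-- the three forms of a word; `a = μ(x)`, `a' = μ(y)` -/
def fS (k a a' U U' H H' : R) : R := k * (U * U') + a * (U * H') + a' * (U' * H)

/-- the second form -/
def fA (x y k a a' U U' H H' : R) : R :=
  (k + a + a') * (U * U') + y * (k + a') * (U * H') + x * (k + a) * (U' * H)

/-- the third form -/
def fV (x y k a a' U U' H H' : R) : R :=
  ((x + y) * k + x * a + y * a') * (U * U') + x * y * ((k + a) * (U * H') + (k + a') * (U' * H))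

/-- the fourth form -/
def fQ (x y k a a' U U' H H' : R) : R :=
  (x + y) * (k + a + a') * (U * U') + x * y * ((k + a') * (U * H') + (k + a) * (U' * H))

/-- `P` is closed under sums and under products with the elements of `Cn x y` -/
structure IsCone (x y : R) (P : R → Prop) : Prop where
  add : ∀ z w, P z → P w → P (z + w)
  mul : ∀ c ∈ Cn x y, ∀ z, P z → P (c * z)

/-- the invariant of a rooted tree -/
structure Inv (x y : R) (P : R → Prop) (U U' H H' : R) : Prop where
  N : P (H * H')
  S : ∀ k l, Wd x y k l → P (fS k (mx x 0 l) (mx y 0 l) U U' H H')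
  A : ∀ k l, Wd x y k l → P (fA x y k (mx x 0 l) (mx y 0 l) U U' H H')
  V : ∀ k l, Wd x y k l → P (fV x y k (mx x 0 l) (mx y 0 l) U U' H H')

variable {x y U U' H H' k : R} {l : List R} {P : R → Prop}


lemma sum_mem (h : Wd x y k l) : (x + y) * k + x * mx x 0 l + y * mx y 0 l ∈ Cn x y := by
  have h1 := h.W.pos.hk
  have e : ev (fun i => x ^ (i + 2) + y ^ (i + 2)) l = x * mx x 0 l + y * mx y 0 l := by
    rw [ev_add, ← mx_succ, ← mx_succ]; rfl
  rw [e, ← add_assoc] at h1
  exact h1

lemma Wd.W' (h : Wd x y k l) : Wd x y ((x + y) * k + x * mx x 0 l + y * mx y 0 l) (k :: l) := by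
  have e : ev (fun i => x ^ (i + 2) + y ^ (i + 2)) l = x * mx x 0 l + y * mx y 0 l := by
    rw [ev_add, ← mx_succ, ← mx_succ]; rfl
  have h1 := h.W
  rw [e, ← add_assoc] at h1
  exact h1

/-- the sums `M_i` -/
lemma mx_g (n : ℕ) (l : List R) :
    (x - y) * ev (fun i => g x y (i + 1 + n)) l = mx x n l - mx y n l := by
  rw [mx, mx, ← ev_sub, ← ev_smul]
  refine ev_congr (fun i => ?_) l
  have key : ∀ m, (x - y) * g x y m = x ^ m - y ^ m := by
    intro m
    induction m using Nat.twoStepInduction with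
    | zero => simp
    | one => simp
    | more m ih1 ih2 =>
      rw [g_succ]
      linear_combination (x + y) * ih2 - x * y * ih1
  exact key _

/-- `x ^ m = g m · x - x y g (m - 1)` in the form needed for lists -/
lemma mx_eq (l : List R) :
    mx x 0 l = x * ev (fun i => g x y (i + 1)) l - x * y * ev (fun i => g x y i) l := by
  rw [mx, ← ev_smul, ← ev_smul, ← ev_sub]
  refine ev_congr (fun i => ?_) l
  rw [add_zero, pow_eq x y i]
  ring

lemma mx_eq' (l : List R) :
    mx y 0 l = y * ev (fun i => g x y (i + 1)) l - x * y * ev (fun i => g x y i) l := by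
  rw [mx, ← ev_smul, ← ev_smul, ← ev_sub]
  refine ev_congr (fun i => ?_) l
  rw [add_zero, pow_eq y x i, g_symm x y, g_symm x y]
  ring

lemma M_rec (n : ℕ) (l : List R) : ev (fun i => g x y (i + n + 2)) l =
    (x + y) * ev (fun i => g x y (i + n + 1)) l - x * y * ev (fun i => g x y (i + n)) l := by
  rw [← ev_smul, ← ev_smul, ← ev_sub]
  exact ev_congr (fun i => g_succ x y (i + n)) l

lemma t0_mem (h : Wd x y k l) : k + mx x 0 l + mx y 0 l ∈ Cn x y := by
  cases h with
  | nil => simp [mx]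
  | @B k l h =>
    rw [mx_zero_cons, mx_zero_cons]
    exact sum_mem h
  | @W k l h =>
    have h1 := sum_mem h
    have e : ev (fun i => x ^ (i + 2) + y ^ (i + 2)) l = x * mx x 0 l + y * mx y 0 l := by
      rw [ev_add, ← mx_succ, ← mx_succ]; rfl
    rw [mx_cons, mx_cons, e]
    have := add_mem h1 h1
    convert this using 1
    ring

lemma L_mem (h : Wd x y k l) :
    (x + y) * k - x * y * ev (fun i => g x y (i + 1)) l ∈ Cn x y := by
  have h1 := h.pos.hT 0
  have e : fn (g x y (0 + 2)) (fun i => -p x y (i + 1) (0 + 1)) k l =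
      (x + y) * k - x * y * ev (fun i => g x y (i + 1)) l := by
    rw [fn, zero_add, g_two, ev_neg, ← ev_smul, sub_eq_add_neg]
    congr 2
    exact ev_congr (fun i => by rw [zero_add, p_one]) l
  rwa [e] at h1

/-- `I = h₂ k + x² μ(x) + y² μ(y)` -/
lemma I_mem (h : Wd x y k l) :
    g x y 3 * k + x ^ 2 * mx x 0 l + y ^ 2 * mx y 0 l ∈ Cn x y := by
  have h1 := h.pos.hS0
  have h2 := h.pos.fn_mem (zero_mem (Cn x y)) (c := fun i => x * y * (x * y * g x y i))
    fun i => mul_mem e2_mem (mul_mem e2_mem (g_mem _))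
  have h3 := add_mem h1 h2
  rw [fn_add] at h3
  convert h3 using 1
  rw [fn, add_zero, add_assoc]
  congr 1
  have e : x ^ 2 * mx x 0 l + y ^ 2 * mx y 0 l = ev (fun i => x ^ (i + 2 + 1) + y ^ (i + 2 + 1)) l := by
    rw [ev_add, pow_two, pow_two, mul_assoc, mul_assoc, ← mx_succ, ← mx_succ, ← mx_succ, ← mx_succ]
    rfl
  rw [e]
  refine ev_congr (fun i => ?_) l
  rw [powsum_eq]
  rw [show i + 2 + 2 = i + 4 from rfl]
  ring

namespace Inv

lemma one (h : Inv x y P U U' H H') : P (U * U') := by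
  have := h.S 1 [] Wd.nil
  simpa [fS, mx] using this

lemma b (h : Inv x y P U U' H H') : P (U * U' + y * (U * H') + x * (U' * H)) := by
  have := h.A 1 [] Wd.nil
  simpa [fA, mx] using this

lemma d (h : Inv x y P U U' H H') :
    P ((x + y) * (U * U') + x * y * (U * H' + U' * H)) := by
  have := h.V 1 [] Wd.nil
  simpa [fV, mx] using this

lemma Q (hP : IsCone x y P) (h : Inv x y P U U' H H') (hw : Wd x y k l) :
    P (fQ x y k (mx x 0 l) (mx y 0 l) U U' H H') := by
  cases hw with
  | nil =>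
    have := h.d
    simpa [fQ, mx] using this
  | @B k l hw =>
    have hk := hw.pos
    have h1 := L_mem hw
    have h2 : ev (fun i => g x y (i + 2)) l ∈ Cn x y := ev_mem (fun i => g_mem _) hk.hl
    have h3 : ev (fun i => g x y (i + 4)) l ∈ Cn x y := ev_mem (fun i => g_mem _) hk.hl
    have key := hP.add _ _ (hP.add _ _ (hP.mul _ h1 _ h.d)
      (hP.mul _ (mul_mem (e2_mem (x := x) (y := y)) h2) _ h.b)) (hP.mul _ h3 _ h.one)
    convert key using 1
    rw [mx_zero_cons, mx_zero_cons, fQ]
    have r0 := M_rec (x := x) (y := y) 0 l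
    have r1 := M_rec (x := x) (y := y) 1 l
    have r2 := M_rec (x := x) (y := y) 2 l
    simp only [Nat.add_zero, Nat.add_assoc, Nat.reduceAdd] at r0 r1 r2
    rw [r2, r1, r0, mx_eq (x := x) (y := y) l, mx_eq' (x := x) (y := y) l]
    ring
  | @W k l hw =>
    have e : ev (fun i => x ^ (i + 2) + y ^ (i + 2)) l = x * mx x 0 l + y * mx y 0 l := by
      rw [ev_add, ← mx_succ, ← mx_succ]; rfl
    have key := hP.add _ _ (hP.add _ _ (hP.mul _ (sum_mem hw) _ h.d)
      (hP.mul _ (e2_mem (x := x) (y := y)) _ (h.A k l hw))) (hP.mul _ (I_mem hw) _ h.one)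
    convert key using 1
    rw [mx_cons, mx_cons, fQ, fA, e, show 3 = 1 + 2 from rfl, g_succ, show 1 + 1 = 2 from rfl, g_two,
      g_one]
    ring

/-- a forest without its root -/
lemma start (hP : IsCone x y P) (h : P (U * U')) : Inv x y P U U' 0 0 := by
  refine ⟨?_, fun k l hw => ?_, fun k l hw => ?_, fun k l hw => ?_⟩
  · have := hP.mul 0 (zero_mem _) _ h
    simpa using this
  · have := hP.mul _ hw.pos.hk _ h
    simpa [fS] using this
  · have := hP.mul _ (t0_mem hw) _ h
    simpa [fA] using this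
  · have := hP.mul _ (sum_mem hw) _ h
    simpa [fV] using this

lemma J (hP : IsCone x y P) (h : Inv x y P U U' H H') : Inv x y P (U + x * H) (U' + y * H') U U' := by
  refine ⟨h.one, fun k l hw => ?_, fun k l hw => ?_, fun k l hw => ?_⟩
  · have key := hP.add _ _ (h.A k l hw)
      (hP.mul _ (mul_mem (e2_mem (x := x) (y := y)) hw.pos.hk) _ h.N)
    convert key using 1
    rw [fS, fA]; ring
  · have key := hP.add _ _ (hP.add _ _ (hP.mul _ (t0_mem hw) _ h.b) (h.V k l hw))
      (hP.mul _ (mul_mem (e2_mem (x := x) (y := y)) (t0_mem hw)) _ h.N)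
    convert key using 1
    rw [fA, fV]; ring
  · have key := hP.add _ _ (hP.add _ _ (hP.mul _ (sum_mem hw) _ h.b)
      (hP.mul _ (e2_mem (x := x) (y := y)) _
        (hP.add _ _ (hP.mul _ hw.pos.hk _ h.one) (h.A k l hw))))
      (hP.mul _ (mul_mem (e2_mem (x := x) (y := y)) (sum_mem hw)) _ h.N)
    convert key using 1
    rw [fV, fA]; ring

/-- the three forms composed with the leaf move, minus the forms -/
lemma DS (hP : IsCone x y P) (h : Inv x y P U U' H H') (hw : Wd x y k l) :
    P (fS ((x + y) * k) (x * mx x 0 l) (y * mx y 0 l) U U' H H' + x * y * k * (U * U')) := by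
  have := h.S _ _ hw.B
  rw [mx_zero_cons, mx_zero_cons] at this
  exact hP.add _ _ this (hP.mul _ (mul_mem e2_mem hw.pos.hk) _ h.one)

lemma DA (hP : IsCone x y P) (h : Inv x y P U U' H H') (hw : Wd x y k l) :
    P (fQ x y k (mx x 0 l) (mx y 0 l) U U' H H' +
      x * y * (k + mx x 0 l + mx y 0 l) * (U * U')) :=
  hP.add _ _ (h.Q hP hw) (hP.mul _ (mul_mem e2_mem (t0_mem hw)) _ h.one)

lemma DV (hP : IsCone x y P) (h : Inv x y P U U' H H') (hw : Wd x y k l) :
    P ((x + y) * ((x + y) * k + x * mx x 0 l + y * mx y 0 l) * (U * U') +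
      x * y * fS ((x + y) * k + x * mx x 0 l + y * mx y 0 l) (x * (k + mx x 0 l))
        (y * (k + mx y 0 l)) U U' H H') := by
  have := h.S _ _ hw.W'
  rw [mx_cons, mx_cons] at this
  exact hP.add _ _ (hP.mul _ (mul_mem e1_mem (sum_mem hw)) _ h.one) (hP.mul _ e2_mem _ this)

/-- a new leaf at the root -/
lemma D (hP : IsCone x y P) (h : Inv x y P U U' H H') :
    Inv x y P ((1 + x) * U) ((1 + y) * U') H H' := by
  refine ⟨h.N, fun k l hw => ?_, fun k l hw => ?_, fun k l hw => ?_⟩
  · have key := hP.add _ _ (h.S k l hw) (h.DS hP hw)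
    convert key using 1
    simp only [fS]; ring
  · have key := hP.add _ _ (h.A k l hw) (h.DA hP hw)
    convert key using 1
    simp only [fA, fQ]; ring
  · have key := hP.add _ _ (h.V k l hw) (h.DV hP hw)
    convert key using 1
    simp only [fV, fS]; ring

lemma three_mem : (1 + (x + y) + 2 * (x * y)) ∈ Cn x y :=
  add_mem (add_mem (one_mem _) e1_mem) (mul_mem two_mem e2_mem)

/-- a new path with two vertices at the root -/
lemma E (hP : IsCone x y P) (h : Inv x y P U U' H H') :
    Inv x y P ((1 + 2 * x) * U) ((1 + 2 * y) * U') ((1 + x) * H) ((1 + y) * H') := by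
  refine ⟨?_, fun k l hw => ?_, fun k l hw => ?_, fun k l hw => ?_⟩
  · have key := hP.mul _ (add_mem (add_mem (one_mem (Cn x y)) e1_mem) e2_mem) _ h.N
    convert key using 1
    ring
  · have key := hP.add _ _ (hP.add _ _ (hP.mul _ three_mem _ (h.S k l hw)) (h.DS hP hw))
      (hP.mul _ (mul_mem (e2_mem (x := x) (y := y)) hw.pos.hk) _ h.one)
    convert key using 1
    simp only [fS]; ring
  · have key := hP.add _ _ (hP.add _ _ (hP.mul _ three_mem _ (h.A k l hw)) (h.DA hP hw))
      (hP.mul _ (mul_mem (e2_mem (x := x) (y := y)) (t0_mem hw)) _ h.one)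
    convert key using 1
    simp only [fA, fQ]; ring
  · have key := hP.add _ _ (hP.add _ _ (hP.mul _ three_mem _ (h.V k l hw)) (h.DV hP hw))
      (hP.mul _ (mul_mem (e2_mem (x := x) (y := y)) (sum_mem hw)) _ h.one)
    convert key using 1
    simp only [fV, fS]; ring

/-- the whole tree -/
lemma total (hP : IsCone x y P) (h : Inv x y P U U' H H') : P ((U + x * H) * (U' + y * H')) :=
  (h.J hP).one

end Inv

end Pool.Agent.MP24a1b5.CA
end

section

/-!
# Branches

`p = I(L)` and `q = I(L - ρ)` for a rooted tree `(L, ρ)`, the values at `y` have a prime.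
-/

set_option autoImplicit false

namespace Pool.Agent.MP24a1b5.CA

variable {R : Type*} [CommRing R]

/-- the rooted tree can be attached to every vertex of a spine -/
structure WB (x y p p' q q' : R) : Prop where
  ex : ∃ a ∈ Cn x y, ∃ b ∈ Cn x y, ∃ g ∈ Cn x y,
    p * q' = a + b * (1 + x) ∧ p' * q = a + b * (1 + y) ∧
      p * p' = a + b * ((1 + x) * (1 + y)) + x * y * g
  n : q * q' ∈ Cn x y

/-- the stronger condition which is inherited by the branches -/
structure SB (x y p p' q q' : R) : Prop where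
  ex : ∃ a ∈ Cn x y, ∃ b ∈ Cn x y, ∃ g ∈ Cn x y,
    p * q' = a + (x + y + 2 * (x * y)) * b + b * (1 + x) ∧
      p' * q = a + (x + y + 2 * (x * y)) * b + b * (1 + y) ∧
      p * p' = a + (x + y + 2 * (x * y)) * b + b * ((1 + x) * (1 + y)) + x * y * g
  n : q * q' ∈ Cn x y

variable {x y p p' q q' p₁ p₁' q₁ q₁' p₂ p₂' q₂ q₂' U U' H H' k : R} {l : List R} {P : R → Prop}

lemma kap_mem : x + y + 2 * (x * y) ∈ Cn x y := add_mem e1_mem (mul_mem two_mem e2_mem)

lemma SB.weak (h : SB x y p p' q q') : WB x y p p' q q' := by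
  obtain ⟨a, ha, b, hb, g, hg, h1, h2, h3⟩ := h.ex
  exact ⟨⟨a + (x + y + 2 * (x * y)) * b, add_mem ha (mul_mem kap_mem hb), b, hb, g, hg, h1, h2, h3⟩,
    h.n⟩

/-- a single vertex -/
lemma WB.leaf : WB x y (1 + x) (1 + y) 1 1 := by
  refine ⟨⟨0, zero_mem _, 1, one_mem _, 0, zero_mem _, ?_, ?_, ?_⟩, ?_⟩
  · ring
  · ring
  · ring
  · rw [one_mul]; exact one_mem _

/-- the empty branch -/
lemma SB.nil : SB x y 1 1 1 1 := by
  refine ⟨⟨1, one_mem _, 0, zero_mem _, 0, zero_mem _, ?_, ?_, ?_⟩, ?_⟩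
  · ring
  · ring
  · ring
  · rw [one_mul]; exact one_mem _

lemma om_mem : (1 + x) * (1 + y) ∈ Cn x y := by
  have : (1 + x) * (1 + y) = 1 + (x + y) + x * y := by ring
  rw [this]
  exact add_mem (add_mem (one_mem _) e1_mem) e2_mem

lemma WB.tot (h : WB x y p p' q q') : p * p' ∈ Cn x y := by
  obtain ⟨a, ha, b, hb, g, hg, h1, h2, h3⟩ := h.ex
  rw [h3]
  exact add_mem (add_mem ha (mul_mem hb om_mem)) (mul_mem e2_mem hg)

/-- a root with one leaf and two branches -/
theorem SB.node (h₁ : SB x y p₁ p₁' q₁ q₁') (h₂ : SB x y p₂ p₂' q₂ q₂') :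
    SB x y ((1 + x) * (p₁ * p₂) + x * (q₁ * q₂)) ((1 + y) * (p₁' * p₂') + y * (q₁' * q₂'))
      ((1 + x) * (p₁ * p₂)) ((1 + y) * (p₁' * p₂')) := by
  have t1 := h₁.weak.tot
  have t2 := h₂.weak.tot
  obtain ⟨a, ha, b, hb, g, hg, h1, h2, h3⟩ := h₁.ex
  obtain ⟨c, hc, d, hd, k, hk, h4, h5, h6⟩ := h₂.ex
  have n1 := h₁.n
  have n2 := h₂.n
  have e1 : x + y ∈ Cn x y := e1_mem
  have e2 : x * y ∈ Cn x y := e2_mem
  have e0 : (1 : R) ∈ Cn x y := one_mem _
  have om : (1 + x) * (1 + y) ∈ Cn x y := om_mem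
  have hN : ∀ n : ℕ, (n : R) ∈ Cn x y := fun n => natCast_mem _ n
  have hA : a + (x + y + 2 * (x * y)) * b ∈ Cn x y := add_mem ha (mul_mem kap_mem hb)
  have hC : c + (x + y + 2 * (x * y)) * d ∈ Cn x y := add_mem hc (mul_mem kap_mem hd)
  have hX : (a + (x + y + 2 * (x * y)) * b) * d + (c + (x + y + 2 * (x * y)) * d) * b ∈ Cn x y :=
    add_mem (mul_mem hA hd) (mul_mem hC hb)
  have hB : a * c + (1 + x) * (1 + y) * (a * d + c * b) +
      (1 + (2 : ℕ) * (x + y) + (x + y) ^ 2 + x * y + (x + y) * (x * y)) * (b * d) ∈ Cn x y :=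
    add_mem (add_mem (mul_mem ha hc) (mul_mem om (add_mem (mul_mem ha hd) (mul_mem hc hb))))
      (mul_mem (add_mem (add_mem (add_mem (add_mem e0 (mul_mem (hN 2) e1)) (pow_mem e1 2)) e2)
        (mul_mem e1 e2)) (mul_mem hb hd))
  have hE : (x + y) + (x + y) ^ 2 + (3 : ℕ) * (x * y) + (4 : ℕ) * ((x + y) * (x * y)) +
      (3 : ℕ) * (x * y) ^ 2 ∈ Cn x y :=
    add_mem (add_mem (add_mem (add_mem e1 (pow_mem e1 2)) (mul_mem (hN 3) e2))
      (mul_mem (hN 4) (mul_mem e1 e2))) (mul_mem (hN 3) (pow_mem e2 2))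
  have hF : (2 : ℕ) * (x + y) + (7 : ℕ) * (x * y) + (3 : ℕ) * (x + y) ^ 2 +
      (13 : ℕ) * ((x + y) * (x * y)) + (8 : ℕ) * (x * y) ^ 2 + (x + y) ^ 3 +
      (5 : ℕ) * ((x + y) ^ 2 * (x * y)) + (5 : ℕ) * ((x + y) * (x * y) ^ 2) + (x * y) ^ 3 ∈
        Cn x y :=
    add_mem (add_mem (add_mem (add_mem (add_mem (add_mem (add_mem (add_mem (mul_mem (hN 2) e1)
      (mul_mem (hN 7) e2)) (mul_mem (hN 3) (pow_mem e1 2))) (mul_mem (hN 13) (mul_mem e1 e2)))
      (mul_mem (hN 8) (pow_mem e2 2))) (pow_mem e1 3))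
      (mul_mem (hN 5) (mul_mem (pow_mem e1 2) e2))) (mul_mem (hN 5) (mul_mem e1 (pow_mem e2 2))))
      (pow_mem e2 3)
  have hAL : ((x + y) + (x + y) ^ 2 + (3 : ℕ) * (x * y) + (4 : ℕ) * ((x + y) * (x * y)) +
      (3 : ℕ) * (x * y) ^ 2) *
        ((a + (x + y + 2 * (x * y)) * b) * d + (c + (x + y + 2 * (x * y)) * d) * b) +
      ((2 : ℕ) * (x + y) + (7 : ℕ) * (x * y) + (3 : ℕ) * (x + y) ^ 2 +
      (13 : ℕ) * ((x + y) * (x * y)) + (8 : ℕ) * (x * y) ^ 2 + (x + y) ^ 3 +
      (5 : ℕ) * ((x + y) ^ 2 * (x * y)) + (5 : ℕ) * ((x + y) * (x * y) ^ 2) + (x * y) ^ 3) *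
        (b * d) +
      (1 + x) * (1 + y) * (x * y) * (g * (p₂ * p₂') +
        (a + (x + y + 2 * (x * y)) * b + (1 + x) * (1 + y) * b) * k) ∈ Cn x y :=
    add_mem (add_mem (mul_mem hE hX) (mul_mem hF (mul_mem hb hd)))
      (mul_mem (mul_mem om e2) (add_mem (mul_mem hg t2)
        (mul_mem (add_mem hA (mul_mem om hb)) hk)))
  have hG : (1 + x) * (1 + y) *
        ((a + (x + y + 2 * (x * y)) * b) * d + (c + (x + y + 2 * (x * y)) * d) * b) +
      ((2 : ℕ) + (3 : ℕ) * (x + y) + (x + y) ^ 2 + (2 : ℕ) * (x * y) + (x + y) * (x * y)) *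
        (b * d) + (q₁ * q₁') * (q₂ * q₂') ∈ Cn x y :=
    add_mem (add_mem (mul_mem om hX) (mul_mem (add_mem (add_mem (add_mem (add_mem (hN 2)
      (mul_mem (hN 3) e1)) (pow_mem e1 2)) (mul_mem (hN 2) e2)) (mul_mem e1 e2))
      (mul_mem hb hd))) (mul_mem n1 n2)
  refine ⟨⟨_, hAL, _, hB, _, hG, ?_, ?_, ?_⟩, ?_⟩
  · push_cast
    linear_combination (1 + x) * (1 + y) * (p₂ * p₂') * h3 +
      (1 + x) * (1 + y) * (a + (x + y + 2 * (x * y)) * b + (1 + x) * (1 + y) * b) * h6 +
      x * (1 + y) * (p₂' * q₂) * h2 +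
      x * (1 + y) * (a + (x + y + 2 * (x * y)) * b + b * (1 + y)) * h5
  · push_cast
    linear_combination (1 + x) * (1 + y) * (p₂ * p₂') * h3 +
      (1 + x) * (1 + y) * (a + (x + y + 2 * (x * y)) * b + (1 + x) * (1 + y) * b) * h6 +
      y * (1 + x) * (p₂ * q₂') * h1 +
      y * (1 + x) * (a + (x + y + 2 * (x * y)) * b + b * (1 + x)) * h4
  · push_cast
    linear_combination (1 + x) * (1 + y) * (p₂ * p₂') * h3 +
      (1 + x) * (1 + y) * (a + (x + y + 2 * (x * y)) * b + (1 + x) * (1 + y) * b) * h6 +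
      x * (1 + y) * (p₂' * q₂) * h2 +
      x * (1 + y) * (a + (x + y + 2 * (x * y)) * b + b * (1 + y)) * h5 +
      y * (1 + x) * (p₂ * q₂') * h1 +
      y * (1 + x) * (a + (x + y + 2 * (x * y)) * b + b * (1 + x)) * h4
  · have e : (1 + x) * (p₁ * p₂) * ((1 + y) * (p₁' * p₂')) =
        (1 + x) * (1 + y) * ((p₁ * p₁') * (p₂ * p₂')) := by ring
    rw [e]
    exact mul_mem om (mul_mem t1 t2)

/-- attaching a branch to the root -/
theorem Inv.branch (hP : IsCone x y P) (h : Inv x y P U U' H H') (hb : WB x y p p' q q') :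
    Inv x y P (p * U) (p' * U') (q * H) (q' * H') := by
  obtain ⟨a, ha, b, hb', g, hg, h1, h2, h3⟩ := hb.ex
  have e2 : x * y ∈ Cn x y := e2_mem
  have hab : a + b ∈ Cn x y := add_mem ha hb'
  refine ⟨?_, fun k l hw => ?_, fun k l hw => ?_, fun k l hw => ?_⟩
  · have key := hP.mul _ hb.n _ h.N
    have e : q * q' * (H * H') = q * H * (q' * H') := by ring
    rwa [e] at key
  · have key := hP.add _ _ (hP.add _ _ (hP.mul _ hab _ (h.S k l hw)) (hP.mul _ hb' _ (h.DS hP hw)))
      (hP.mul _ (mul_mem (mul_mem e2 hg) hw.pos.hk) _ h.one)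
    have e : fS k (mx x 0 l) (mx y 0 l) (p * U) (p' * U') (q * H) (q' * H') = (a + b) *
        fS k (mx x 0 l) (mx y 0 l) U U' H H' + b * (fS ((x + y) * k) (x * mx x 0 l)
          (y * mx y 0 l) U U' H H' + x * y * k * (U * U')) + x * y * g * k * (U * U') := by
      simp only [fS]
      linear_combination k * (U * U') * h3 + mx x 0 l * (U * H') * h1 +
        mx y 0 l * (U' * H) * h2
    rw [e]; exact key
  · have key := hP.add _ _ (hP.add _ _ (hP.mul _ hab _ (h.A k l hw)) (hP.mul _ hb' _ (h.DA hP hw)))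
      (hP.mul _ (mul_mem (mul_mem e2 hg) (t0_mem hw)) _ h.one)
    have e : fA x y k (mx x 0 l) (mx y 0 l) (p * U) (p' * U') (q * H) (q' * H') = (a + b) *
        fA x y k (mx x 0 l) (mx y 0 l) U U' H H' + b * (fQ x y k (mx x 0 l)
          (mx y 0 l) U U' H H' + x * y * (k + mx x 0 l + mx y 0 l) * (U * U')) +
            x * y * g * (k + mx x 0 l + mx y 0 l) * (U * U') := by
      simp only [fA, fQ]
      linear_combination (k + mx x 0 l + mx y 0 l) * (U * U') * h3 +
        y * (k + mx y 0 l) * (U * H') * h1 + x * (k + mx x 0 l) * (U' * H) * h2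
    rw [e]; exact key
  · have key := hP.add _ _ (hP.add _ _ (hP.mul _ hab _ (h.V k l hw)) (hP.mul _ hb' _ (h.DV hP hw)))
      (hP.mul _ (mul_mem (mul_mem e2 hg) (sum_mem hw)) _ h.one)
    have e : fV x y k (mx x 0 l) (mx y 0 l) (p * U) (p' * U') (q * H) (q' * H') = (a + b) *
        fV x y k (mx x 0 l) (mx y 0 l) U U' H H' + b * ((x + y) *
          ((x + y) * k + x * mx x 0 l + y * mx y 0 l) * (U * U') +
      x * y * fS ((x + y) * k + x * mx x 0 l + y * mx y 0 l) (x * (k + mx x 0 l))
        (y * (k + mx y 0 l)) U U' H H') +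
            x * y * g * ((x + y) * k + x * mx x 0 l + y * mx y 0 l) * (U * U') := by
      simp only [fV, fS]
      linear_combination ((x + y) * k + x * mx x 0 l + y * mx y 0 l) * (U * U') * h3 +
        x * y * (k + mx x 0 l) * (U * H') * h1 + x * y * (k + mx y 0 l) * (U' * H) * h2
    rw [e]; exact key

end Pool.Agent.MP24a1b5.CA
end

section

/-!
# The invariants of a rooted caterpillar

`u`, `v` stand for `I(R - z)` at `x` and `y`, and `h`, `l` for `I(R - N[z])` at `x` and `y`, where `z` is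
an end vertex of the spine of the caterpillar `R`. The invariants `Inv` are preserved if a leaf is added
at `z`, if a new end vertex is added to the spine, and if a new component is started.
-/

set_option autoImplicit false

namespace Pool.Agent.Lib.MP_24a1b5_co.Cat

/-- good pairs of multipliers -/
structure Good (k m : A) : Prop where
  k1 : Mul k
  m1 : Mul m
  i1 : Mul ((x + y) * k - x * y * m)
  i2 : Mul ((x + y) * (x ^ 2 + x * y + y ^ 2) * k - (x * y) ^ 2 * m)

lemma g_two : g 2 = x + y := by rw [g_rec 0, g_zero, g_one]; ring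

lemma g_three : g 3 = x ^ 2 + x * y + y ^ 2 := by rw [g_rec 1, g_two, g_one]; ring

/-- `e₁ ^ n - h_n` -/
lemma mul_pow_sub (n : ℕ) : Mul ((x + y) ^ n - g (n + 1)) := by
  induction n with
  | zero =>
    have e : (x + y) ^ 0 - g (0 + 1) = 0 := by rw [zero_add, g_one]; ring
    rw [e]; exact Mul.zero
  | succ n ih =>
    have e : (x + y) ^ (n + 1) - g (n + 1 + 1) = (x + y) * ((x + y) ^ n - g (n + 1)) +
        x * y * g n := by rw [g_rec]; ring
    rw [e]
    exact (Mul.e1.mul ih).add (Mul.e2.mul (Mul.g n))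

lemma Good.start : Good (x + y) 1 := by
  refine ⟨Mul.e1, Mul.one, ?_, ?_⟩
  · have e : (x + y) * (x + y) - x * y * 1 = g 3 := by rw [g_three]; ring
    rw [e]; exact Mul.g 3
  · have e : (x + y) * (x ^ 2 + x * y + y ^ 2) * (x + y) - (x * y) ^ 2 * 1 =
        g 5 + x * y * g 3 + x * y * g 3 := by
      rw [g_rec 3, g_rec 2, g_three, g_two]; ring
    rw [e]
    exact ((Mul.g 5).add (Mul.e2.mul (Mul.g 3))).add (Mul.e2.mul (Mul.g 3))

/-- `K n = k e₁ ^ n - m e₂ h_(n-1)` -/
lemma Good.kk {k m : A} (h : Good k m) (n : ℕ) : Mul (k * (x + y) ^ n - m * (x * y) * g n) := by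
  cases n with
  | zero =>
    have e : k * (x + y) ^ 0 - m * (x * y) * g 0 = k := by rw [g_zero]; ring
    rw [e]; exact h.k1
  | succ n =>
    have e : k * (x + y) ^ (n + 1) - m * (x * y) * g (n + 1) =
        (x + y) ^ n * ((x + y) * k - x * y * m) + x * y * m * ((x + y) ^ n - g (n + 1)) := by ring
    rw [e]
    exact ((Mul.e1.pow n).mul h.i1).add ((Mul.e2.mul h.m1).mul (mul_pow_sub n))

lemma pi_eq (n : ℕ) : x ^ (n + 1) + y ^ (n + 1) = g (n + 2) - x * y * g n := by
  have h1 := xpow n
  have h2 := ypow n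
  rw [g_rec, pow_succ, pow_succ, h1, h2]
  ring

/-- `k e₁ ^ n + m (x ^ (n+1) + y ^ (n+1))` -/
lemma Good.kp {k m : A} (h : Good k m) (n : ℕ) :
    Mul (k * (x + y) ^ n + m * (x ^ (n + 1) + y ^ (n + 1))) := by
  have e : k * (x + y) ^ n + m * (x ^ (n + 1) + y ^ (n + 1)) =
      (k * (x + y) ^ n - m * (x * y) * g n) + m * g (n + 2) := by rw [pi_eq]; ring
  rw [e]
  exact (h.kk n).add (h.m1.mul (Mul.g _))

/-- the next pair -/
lemma Good.next {k m : A} (h : Good k m) (n : ℕ) :
    Good (k * (x + y) ^ (n + 1) + m * (x ^ (n + 2) + y ^ (n + 2))) (k * (x + y) ^ n) := by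
  have r0 := g_rec n
  have r1 := g_rec (n + 1)
  have r2 := g_rec (n + 2)
  have hpi := pi_eq (n + 1)
  refine ⟨h.kp (n + 1), h.k1.mul (Mul.e1.pow n), ?_, ?_⟩
  · have e : (x + y) * (k * (x + y) ^ (n + 1) + m * (x ^ (n + 2) + y ^ (n + 2))) -
        x * y * (k * (x + y) ^ n) = k * (x + y) ^ n * g 3 - m * (x * y) ^ 2 * g n +
          m * g (n + 4) := by
      rw [g_three]
      linear_combination (x + y) * m * hpi - m * r2 + x * y * m * r0
    rw [e]
    cases n with
    | zero =>
      have e2 : k * (x + y) ^ 0 * g 3 - m * (x * y) ^ 2 * g 0 + m * g (0 + 4) =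
          k * g 3 + m * g 4 := by rw [g_zero]; ring
      rw [e2]
      exact (h.k1.mul (Mul.g 3)).add (h.m1.mul (Mul.g 4))
    | succ n =>
      cases n with
      | zero =>
        have e2 : k * (x + y) ^ (0 + 1) * g 3 - m * (x * y) ^ 2 * g (0 + 1) + m * g (0 + 1 + 4) =
            ((x + y) * (x ^ 2 + x * y + y ^ 2) * k - (x * y) ^ 2 * m) + m * g 5 := by
          rw [zero_add, g_one, g_three]; ring
        rw [e2]
        exact h.i2.add (h.m1.mul (Mul.g 5))
      | succ n =>
        have e2 : k * (x + y) ^ (n + 1 + 1) * g 3 - m * (x * y) ^ 2 * g (n + 1 + 1) +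
            m * g (n + 1 + 1 + 4) =
            g 3 * (k * (x + y) ^ (n + 1 + 1) - m * (x * y) * g (n + 1 + 1)) +
              m * (x * y) * (g (n + 4) + (x * y) ^ 2 * g n) + m * g (n + 1 + 1 + 4) := by
          have s0 := g_rec n
          have s1 := g_rec (n + 1)
          have s2 := g_rec (n + 2)
          rw [g_three]
          linear_combination (-(m * (x * y))) * s2 - m * (x * y) * (x + y) * s1 -
            (m * (x * y)) * (x * y) * s0
        rw [e2]
        exact (((Mul.g 3).mul (h.kk _)).add ((h.m1.mul Mul.e2).mul ((Mul.g _).add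
          ((Mul.e2.pow 2).mul (Mul.g n))))).add (h.m1.mul (Mul.g _))
  · have e : (x + y) * (x ^ 2 + x * y + y ^ 2) * (k * (x + y) ^ (n + 1) +
        m * (x ^ (n + 2) + y ^ (n + 2))) - (x * y) ^ 2 * (k * (x + y) ^ n) =
        k * (x + y) ^ n * (g 5 + x * y * g 3) +
          x * y * g 3 * (k * (x + y) ^ n - m * (x * y) * g n) + m * g 3 * g (n + 4) := by
      rw [g_rec 3, g_rec 2, g_three, g_two]
      linear_combination (x + y) * (x ^ 2 + x * y + y ^ 2) * m * hpi -
        (x ^ 2 + x * y + y ^ 2) * m * r2 + (x ^ 2 + x * y + y ^ 2) * x * y * m * r0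
    rw [e]
    exact (((h.k1.mul (Mul.e1.pow n)).mul ((Mul.g 5).add (Mul.e2.mul (Mul.g 3)))).add
      ((Mul.e2.mul (Mul.g 3)).mul (h.kk n))).add ((h.m1.mul (Mul.g 3)).mul (Mul.g _))

/-- the invariants -/
structure Inv (u v h l : A) : Prop where
  p : Pos (u * v)
  n : Pos (h * l)
  b : Pos (u * v + (x * h * v + y * l * u))
  d : Pos ((x + y) * (u * v) + x * y * (h * v + l * u))
  c0 : Pos (u * v + (h * v + l * u))
  c : ∀ k m, Good k m → ∀ n : ℕ, Pos (k * (x + y) ^ n * (u * v) +
    m * (x ^ (n + 1) * (u * l) + y ^ (n + 1) * (v * h)))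
  yy : ∀ k m, Good k m → ∀ n : ℕ, Pos (k * (x + y) ^ n * ((u + x * h) * (v + y * l)) +
    m * ((x ^ (n + 1) + y ^ (n + 1)) * (u * v) + (x ^ (n + 2) * (h * v) + y ^ (n + 2) * (l * u))))
  mm : ∀ k m, Good k m → ∀ n : ℕ, Pos (k * (x + y) ^ n * ((x + y) * (u * v) +
    x * y * (h * v + l * u)) + m * ((x ^ (n + 2) + y ^ (n + 2)) * (u * v)))

namespace Inv

variable {u v h l : A}

lemma tot (H : Inv u v h l) : Pos ((u + x * h) * (v + y * l)) := by
  have e : (u + x * h) * (v + y * l) = (u * v + (x * h * v + y * l * u)) + x * y * (h * l) := by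
    ring
  rw [e]
  exact H.b.add (Mul.e2 _ H.n)

lemma start : Inv 1 1 0 0 := by
  have e1 := Mul.e1
  refine ⟨?_, ?_, ?_, ?_, ?_, ?_, ?_, ?_⟩
  · simpa using Pos.one
  · simpa using Pos.zero
  · simpa using Pos.one
  · simpa using Mul.e1.pos
  · simpa using Pos.one
  · intro k m hk n
    have := (hk.k1.mul (e1.pow n)).pos
    simpa using this
  · intro k m hk n
    have := (hk.kp n).pos
    simpa using this
  · intro k m hk n
    have := (hk.kp (n + 1)).pos
    have e : k * (x + y) ^ n * ((x + y) * (1 * 1) + x * y * (0 * 1 + 0 * 1)) +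
        m * ((x ^ (n + 2) + y ^ (n + 2)) * (1 * 1)) =
        k * (x + y) ^ (n + 1) + m * (x ^ (n + 1 + 1) + y ^ (n + 1 + 1)) := by ring
    rw [e]; exact this

/-- a new component is started -/
lemma restart (H : Inv u v h l) : Inv (u + x * h) (v + y * l) 0 0 := by
  have ht := H.tot
  refine ⟨ht, ?_, ?_, ?_, ?_, ?_, ?_, ?_⟩
  · simpa using Pos.zero
  · simpa using ht
  · have := Mul.e1 _ ht
    simpa using this
  · simpa using ht
  · intro k m hk n
    have := (hk.k1.mul (Mul.e1.pow n)) _ ht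
    simpa using this
  · intro k m hk n
    have := (hk.kp n) _ ht
    have e : k * (x + y) ^ n * ((u + x * h + x * 0) * (v + y * l + y * 0)) +
        m * ((x ^ (n + 1) + y ^ (n + 1)) * ((u + x * h) * (v + y * l)) +
          (x ^ (n + 2) * (0 * (v + y * l)) + y ^ (n + 2) * (0 * (u + x * h)))) =
        (k * (x + y) ^ n + m * (x ^ (n + 1) + y ^ (n + 1))) * ((u + x * h) * (v + y * l)) := by
      ring
    rw [e]; exact this
  · intro k m hk n
    have := (hk.kp (n + 1)) _ ht
    have e : k * (x + y) ^ n * ((x + y) * ((u + x * h) * (v + y * l)) +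
        x * y * (0 * (v + y * l) + 0 * (u + x * h))) +
        m * ((x ^ (n + 2) + y ^ (n + 2)) * ((u + x * h) * (v + y * l))) =
        (k * (x + y) ^ (n + 1) + m * (x ^ (n + 1 + 1) + y ^ (n + 1 + 1))) *
          ((u + x * h) * (v + y * l)) := by
      ring
    rw [e]; exact this

/-- a leaf is added at the end vertex -/
lemma leaf (H : Inv u v h l) : Inv ((1 + x) * u) ((1 + y) * v) h l := by
  have e1 := Mul.e1
  have e2 := Mul.e2
  have hE : Mul (1 + (x + y) + x * y) := (Mul.one.add e1).add e2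
  have hc := H.c _ _ Good.start 0
  refine ⟨?_, H.n, ?_, ?_, ?_, ?_, ?_, ?_⟩
  · have e : (1 + x) * u * ((1 + y) * v) = (1 + (x + y) + x * y) * (u * v) := by ring
    rw [e]; exact hE _ H.p
  · have e : (1 + x) * u * ((1 + y) * v) + (x * h * ((1 + y) * v) + y * l * ((1 + x) * u)) =
        (u * v + (x * h * v + y * l * u)) + ((x + y) * (u * v) + x * y * (h * v + l * u)) +
          x * y * (u * v) := by ring
    rw [e]; exact (H.b.add H.d).add (e2 _ H.p)
  · have e : (x + y) * ((1 + x) * u * ((1 + y) * v)) +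
        x * y * (h * ((1 + y) * v) + l * ((1 + x) * u)) =
        ((x + y) * (u * v) + x * y * (h * v + l * u)) + (x + y) ^ 2 * (u * v) +
          x * y * ((x + y) * (x + y) ^ 0 * (u * v) +
            1 * (x ^ (0 + 1) * (u * l) + y ^ (0 + 1) * (v * h))) := by ring
    rw [e]; exact (H.d.add (e1.pow 2 _ H.p)).add (e2 _ hc)
  · have e : (1 + x) * u * ((1 + y) * v) + (h * ((1 + y) * v) + l * ((1 + x) * u)) =
        (u * v + (h * v + l * u)) + ((x + y) * (x + y) ^ 0 * (u * v) +
            1 * (x ^ (0 + 1) * (u * l) + y ^ (0 + 1) * (v * h))) + x * y * (u * v) := by ring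
    rw [e]; exact (H.c0.add hc).add (e2 _ H.p)
  · intro k m hk n
    have e : k * (x + y) ^ n * ((1 + x) * u * ((1 + y) * v)) +
        m * (x ^ (n + 1) * ((1 + x) * u * l) + y ^ (n + 1) * ((1 + y) * v * h)) =
        (k * (x + y) ^ n * (u * v) + m * (x ^ (n + 1) * (u * l) + y ^ (n + 1) * (v * h))) +
        (k * (x + y) ^ (n + 1) * (u * v) +
          m * (x ^ (n + 1 + 1) * (u * l) + y ^ (n + 1 + 1) * (v * h))) +
        k * (x + y) ^ n * (x * y) * (u * v) := by ring
    rw [e]
    exact ((H.c k m hk n).add (H.c k m hk (n + 1))).add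
      (((hk.k1.mul (e1.pow n)).mul e2) _ H.p)
  · intro k m hk n
    have hx := xpow n
    have hy := ypow n
    have hr := g_rec n
    have e : k * (x + y) ^ n * (((1 + x) * u + x * h) * ((1 + y) * v + y * l)) +
        m * ((x ^ (n + 1) + y ^ (n + 1)) * ((1 + x) * u * ((1 + y) * v)) +
          (x ^ (n + 2) * (h * ((1 + y) * v)) + y ^ (n + 2) * (l * ((1 + x) * u)))) =
        (k * (x + y) ^ n * ((u + x * h) * (v + y * l)) +
          m * ((x ^ (n + 1) + y ^ (n + 1)) * (u * v) +
            (x ^ (n + 2) * (h * v) + y ^ (n + 2) * (l * u)))) +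
        ((k * (x + y) ^ n - m * (x * y) * g n) * ((x + y) * (u * v) + x * y * (h * v + l * u)) +
          m * (x * y) * g (n + 1) * (u * v + (x * h * v + y * l * u)) +
          m * g (n + 3) * (u * v)) +
        x * y * ((k * (x + y) ^ n + m * (x ^ (n + 1) + y ^ (n + 1))) * (u * v)) := by
      have hr1 := g_rec (n + 1)
      have q1 : x ^ (n + 1) = x * g (n + 1) - x * y * g n := by rw [pow_succ, hx]; ring
      have q2 : y ^ (n + 1) = y * g (n + 1) - x * y * g n := by rw [pow_succ, hy]; ring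
      rw [show x ^ (n + 2) = x * x ^ (n + 1) by ring, show y ^ (n + 2) = y * y ^ (n + 1) by ring,
        q1, q2, hr1, hr]
      ring
    rw [e]
    refine ((H.yy k m hk n).add ?_).add (e2 _ ((hk.kp n) _ H.p))
    exact (((hk.kk n) _ H.d).add (((hk.m1.mul e2).mul (Mul.g _)) _ H.b)).add
      ((hk.m1.mul (Mul.g _)) _ H.p)
  · intro k m hk n
    have e : k * (x + y) ^ n * ((x + y) * ((1 + x) * u * ((1 + y) * v)) +
        x * y * (h * ((1 + y) * v) + l * ((1 + x) * u))) +
        m * ((x ^ (n + 2) + y ^ (n + 2)) * ((1 + x) * u * ((1 + y) * v))) =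
        (k * (x + y) ^ n * ((x + y) * (u * v) + x * y * (h * v + l * u)) +
          m * ((x ^ (n + 2) + y ^ (n + 2)) * (u * v))) +
        (x + y) * ((k * (x + y) ^ (n + 1) + m * (x ^ (n + 1 + 1) + y ^ (n + 1 + 1))) * (u * v)) +
        x * y * ((k * (x + y) ^ (n + 1) + m * (x ^ (n + 2) + y ^ (n + 2))) * (x + y) ^ 0 * (u * v) +
          k * (x + y) ^ n * (x ^ (0 + 1) * (u * l) + y ^ (0 + 1) * (v * h))) := by ring
    rw [e]
    exact ((H.mm k m hk n).add (e1 _ ((hk.kp (n + 1)) _ H.p))).add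
      (e2 _ (H.c _ _ (hk.next n) 0))

/-- a new end vertex is added to the spine -/
lemma spine (H : Inv u v h l) : Inv (u + x * h) (v + y * l) u v := by
  have e1 := Mul.e1
  have e2 := Mul.e2
  have ht := H.tot
  refine ⟨ht, H.p, ?_, ?_, ?_, ?_, ?_, ?_⟩
  · have e : (u + x * h) * (v + y * l) + (x * u * (v + y * l) + y * v * (u + x * h)) =
        (u + x * h) * (v + y * l) + ((x + y) * (u * v) + x * y * (h * v + l * u)) := by ring
    rw [e]; exact ht.add H.d
  · have e : (x + y) * ((u + x * h) * (v + y * l)) +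
        x * y * (u * (v + y * l) + v * (u + x * h)) =
        (x + y) * ((u + x * h) * (v + y * l)) +
          x * y * (u * v + (u * v + (x * h * v + y * l * u))) := by ring
    rw [e]; exact (e1 _ ht).add (e2 _ (H.p.add H.b))
  · have e : (u + x * h) * (v + y * l) + (u * (v + y * l) + v * (u + x * h)) =
        (u + x * h) * (v + y * l) + (u * v + (u * v + (x * h * v + y * l * u))) := by ring
    rw [e]; exact ht.add (H.p.add H.b)
  · intro k m hk n
    have e : k * (x + y) ^ n * ((u + x * h) * (v + y * l)) +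
        m * (x ^ (n + 1) * ((u + x * h) * v) + y ^ (n + 1) * ((v + y * l) * u)) =
        k * (x + y) ^ n * ((u + x * h) * (v + y * l)) +
          m * ((x ^ (n + 1) + y ^ (n + 1)) * (u * v) +
            (x ^ (n + 2) * (h * v) + y ^ (n + 2) * (l * u))) := by ring
    rw [e]; exact H.yy k m hk n
  · intro k m hk n
    have e : k * (x + y) ^ n * ((u + x * h + x * u) * (v + y * l + y * v)) +
        m * ((x ^ (n + 1) + y ^ (n + 1)) * ((u + x * h) * (v + y * l)) +
          (x ^ (n + 2) * (u * (v + y * l)) + y ^ (n + 2) * (v * (u + x * h)))) =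
        (k * (x + y) ^ n + m * (x ^ (n + 1) + y ^ (n + 1))) * ((u + x * h) * (v + y * l)) +
        (k * (x + y) ^ n * ((x + y) * (u * v) + x * y * (h * v + l * u)) +
          m * ((x ^ (n + 2) + y ^ (n + 2)) * (u * v))) +
        x * y * (k * (x + y) ^ n * (u * v) +
          m * (x ^ (n + 1) * (u * l) + y ^ (n + 1) * (v * h))) := by ring
    rw [e]
    exact (((hk.kp n) _ ht).add (H.mm k m hk n)).add (e2 _ (H.c k m hk n))
  · intro k m hk n
    have e : k * (x + y) ^ n * ((x + y) * ((u + x * h) * (v + y * l)) +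
        x * y * (u * (v + y * l) + v * (u + x * h))) +
        m * ((x ^ (n + 2) + y ^ (n + 2)) * ((u + x * h) * (v + y * l))) =
        (k * (x + y) ^ (n + 1) + m * (x ^ (n + 1 + 1) + y ^ (n + 1 + 1))) *
          ((u + x * h) * (v + y * l)) +
        k * (x + y) ^ n * (x * y) * (u * v + (u * v + (x * h * v + y * l * u))) := by ring
    rw [e]
    exact ((hk.kp (n + 1)) _ ht).add
      (((hk.k1.mul (e1.pow n)).mul e2) _ (H.p.add H.b))

end Inv

end Pool.Agent.Lib.MP_24a1b5_co.Cat
end

section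

/-!
# Forests of caterpillars
-/

set_option autoImplicit false
open scoped Classical
open N36365310

namespace Pool.Agent.Lib.MP_24a1b5_co.Cat

open Finset

variable {V : Type*}

/-- the independence polynomial of `G` on `S` -/
noncomputable def ZZ (G : SimpleGraph V) (S : Finset V) : Polynomial ℤ :=
  Z G (fun _ => (Polynomial.X : Polynomial ℤ)) S

/-- the polynomial `f` in the variable `x` -/
noncomputable def ex (f : Polynomial ℤ) : A := Polynomial.C f

/-- the polynomial `f` in the variable `y` -/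
noncomputable def ey (f : Polynomial ℤ) : A := f.map Polynomial.C

lemma ex_add (f g : Polynomial ℤ) : ex (f + g) = ex f + ex g := by simp [ex]
lemma ex_mul (f g : Polynomial ℤ) : ex (f * g) = ex f * ex g := by simp [ex]
lemma ex_X : ex Polynomial.X = x := rfl
lemma ex_one : ex 1 = 1 := by simp [ex]
lemma ey_add (f g : Polynomial ℤ) : ey (f + g) = ey f + ey g := by simp [ey]
lemma ey_mul (f g : Polynomial ℤ) : ey (f * g) = ey f * ey g := by simp [ey]
lemma ey_X : ey Polynomial.X = y := by simp [ey, y]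
lemma ey_one : ey 1 = 1 := by simp [ey]

lemma cf_ex_ey (f : Polynomial ℤ) (i j : ℕ) : cf (ex f * ey f) i j = f.coeff i * f.coeff j := by
  rw [cf_nat, ex, ey, Polynomial.coeff_C_mul, Polynomial.coeff_map, Polynomial.coeff_mul_C]

/-- neighbours of `v` in `S` which have another neighbour in `S` -/
noncomputable def inn (G : SimpleGraph V) (v : V) (S : Finset V) : Finset V :=
  (nb G v S).filter (fun w => ∃ t ∈ S, t ≠ v ∧ G.Adj w t)

lemma mem_inn {G : SimpleGraph V} {v w : V} {S : Finset V} :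
    w ∈ inn G v S ↔ w ∈ S ∧ G.Adj v w ∧ ∃ t ∈ S, t ≠ v ∧ G.Adj w t := by
  simp [inn, mem_nb, and_assoc]

lemma inn_mono {G : SimpleGraph V} {v : V} {S T : Finset V} (h : S ⊆ T) :
    inn G v S ⊆ inn G v T := by
  intro w hw
  rw [mem_inn] at hw ⊢
  obtain ⟨h1, h2, t, h3, h4⟩ := hw
  exact ⟨h h1, h2, t, h h3, h4⟩

/-- every component of `S` is a caterpillar -/
def CatOn (G : SimpleGraph V) (S : Finset V) : Prop := ∀ v ∈ S, (inn G v S).card ≤ 2

lemma CatOn.mono {G : SimpleGraph V} {S T : Finset V} (hT : CatOn G T) (h : S ⊆ T) : CatOn G S :=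
  fun v hv => (card_le_card (inn_mono h)).trans (hT v (h hv))

/-- `z` can be the end vertex of the spine of its component -/
def Adm (G : SimpleGraph V) (S : Finset V) (z : V) : Prop :=
  (inn G z S).card ≤ 1 ∧ ∀ w ∈ nb G z S, ((inn G w S).erase z).card ≤ 1

lemma Adm.mono {G : SimpleGraph V} {S T : Finset V} {z : V} (hT : Adm G T z) (h : S ⊆ T) :
    Adm G S z := by
  refine ⟨(card_le_card (inn_mono h)).trans hT.1, fun w hw => ?_⟩
  rw [mem_nb] at hw
  exact (card_le_card (erase_subset_erase _ (inn_mono h))).trans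
    (hT.2 w (mem_nb.2 ⟨h hw.1, hw.2⟩))

lemma exists_adm {G : SimpleGraph V} (hG : Degen G) {S : Finset V} (hS : S.Nonempty)
    (hC : CatOn G S) : ∃ z ∈ S, Adm G S z := by
  by_cases hT : (S.filter (fun v => 2 ≤ (nb G v S).card)).Nonempty
  · obtain ⟨v, hv, hv1⟩ := hG _ hT
    rw [mem_filter] at hv
    refine ⟨v, hv.1, ?_, ?_⟩
    · refine (card_le_card ?_).trans hv1
      intro w hw
      rw [mem_inn] at hw
      obtain ⟨h1, h2, t, h3, h4, h5⟩ := hw
      rw [mem_nb, mem_filter]
      refine ⟨⟨h1, ?_⟩, h2⟩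
      have : ({v, t} : Finset V) ⊆ nb G w S := by
        intro a ha
        rw [mem_insert, mem_singleton] at ha
        rcases ha with rfl | rfl
        · exact mem_nb.2 ⟨hv.1, h2.symm⟩
        · exact mem_nb.2 ⟨h3, h5⟩
      have h6 := card_le_card this
      rwa [card_pair (Ne.symm h4)] at h6
    · intro w hw
      rw [mem_nb] at hw
      have h1 := hC w hw.1
      have h2 : v ∈ inn G w S := by
        rw [mem_inn]
        refine ⟨hv.1, hw.2.symm, ?_⟩
        obtain ⟨a, ha, haw⟩ := exists_mem_ne (by omega : 1 < (nb G v S).card) w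
        rw [mem_nb] at ha
        exact ⟨a, ha.1, haw, ha.2⟩
      rw [card_erase_of_mem h2]
      omega
  · rw [not_nonempty_iff_eq_empty, filter_eq_empty_iff] at hT
    obtain ⟨z, hz⟩ := hS
    refine ⟨z, hz, ?_, ?_⟩
    · have : inn G z S = ∅ := by
        rw [eq_empty_iff_forall_notMem]
        intro w hw
        rw [mem_inn] at hw
        obtain ⟨h1, h2, t, h3, h4, h5⟩ := hw
        apply hT h1
        have : ({z, t} : Finset V) ⊆ nb G w S := by
          intro a ha
          rw [mem_insert, mem_singleton] at ha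
          rcases ha with rfl | rfl
          · exact mem_nb.2 ⟨hz, h2.symm⟩
          · exact mem_nb.2 ⟨h3, h5⟩
        have h6 := card_le_card this
        rwa [card_pair (Ne.symm h4)] at h6
      rw [this]
      simp
    · intro w hw
      rw [mem_nb] at hw
      have : (inn G w S).erase z = ∅ := by
        rw [eq_empty_iff_forall_notMem]
        intro a ha
        rw [mem_erase, mem_inn] at ha
        obtain ⟨h0, h1, h2, -⟩ := ha
        apply hT hw.1
        have : ({z, a} : Finset V) ⊆ nb G w S := by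
          intro b hb
          rw [mem_insert, mem_singleton] at hb
          rcases hb with rfl | rfl
          · exact mem_nb.2 ⟨hz, hw.2.symm⟩
          · exact mem_nb.2 ⟨h1, h2⟩
        have h6 := card_le_card this
        rwa [card_pair (Ne.symm h0)] at h6
      rw [this]
      simp

lemma ZZ_rec (G : SimpleGraph V) {v : V} {S : Finset V} (hv : v ∈ S) :
    ZZ G S = ZZ G (S.erase v) + Polynomial.X * ZZ G (del G v S) :=
  Z_rec G _ hv

lemma ZZ_empty (G : SimpleGraph V) : ZZ G ∅ = 1 := Z_empty G _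

/-- the state of the rooted forest `(S, z)` satisfies the invariants -/
def St (G : SimpleGraph V) (S : Finset V) (z : V) : Prop :=
  Inv (ex (ZZ G (S.erase z))) (ey (ZZ G (S.erase z))) (ex (ZZ G (del G z S)))
    (ey (ZZ G (del G z S)))

lemma St.tot {G : SimpleGraph V} {S : Finset V} {z : V} (hz : z ∈ S) (h : St G S z) :
    Pos (ex (ZZ G S) * ey (ZZ G S)) := by
  have h1 := Inv.tot h
  rw [ZZ_rec G hz, ex_add, ey_add, ex_mul, ey_mul, ex_X, ey_X]
  exact h1

lemma Inv.of_pos {u v : A} (h : Pos (u * v)) : Inv u v 0 0 := by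
  refine ⟨h, ?_, ?_, ?_, ?_, ?_, ?_, ?_⟩
  · simpa using Pos.zero
  · simpa using h
  · have := Mul.e1 _ h
    simpa using this
  · simpa using h
  · intro k m hk n
    have := (hk.k1.mul (Mul.e1.pow n)) _ h
    simpa using this
  · intro k m hk n
    have := (hk.kp n) _ h
    have e : k * (x + y) ^ n * ((u + x * 0) * (v + y * 0)) +
        m * ((x ^ (n + 1) + y ^ (n + 1)) * (u * v) +
          (x ^ (n + 2) * (0 * v) + y ^ (n + 2) * (0 * u))) =
        (k * (x + y) ^ n + m * (x ^ (n + 1) + y ^ (n + 1))) * (u * v) := by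
      ring
    rw [e]; exact this
  · intro k m hk n
    have := (hk.kp (n + 1)) _ h
    have e : k * (x + y) ^ n * ((x + y) * (u * v) +
        x * y * (0 * v + 0 * u)) +
        m * ((x ^ (n + 2) + y ^ (n + 2)) * (u * v)) =
        (k * (x + y) ^ (n + 1) + m * (x ^ (n + 1 + 1) + y ^ (n + 1 + 1))) * (u * v) := by
      ring
    rw [e]; exact this

theorem key {G : SimpleGraph V} (hG : Degen G) : ∀ (n : ℕ) (S : Finset V), S.card = n →
    CatOn G S → Pos (ex (ZZ G S) * ey (ZZ G S)) ∧ ∀ z ∈ S, Adm G S z → St G S z := by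
  intro n
  induction n using Nat.strong_induction_on with
  | _ n ih =>
  intro S hn hC
  have main : ∀ z ∈ S, Adm G S z → St G S z := by
    intro z hz hA
    by_cases hleaf : ∃ w ∈ nb G z S, ∀ t ∈ S, G.Adj w t → t = z
    · obtain ⟨w, hw, hwt⟩ := hleaf
      rw [mem_nb] at hw
      have hwz : w ≠ z := fun h => G.irrefl (h ▸ hw.2)
      have hsub : S.erase w ⊆ S := erase_subset _ _
      have hlt : (S.erase w).card < n := by rw [← hn]; exact card_erase_lt_of_mem hw.1
      have hz' : z ∈ S.erase w := mem_erase.2 ⟨hwz.symm, hz⟩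
      have h1 : St G (S.erase w) z := (ih _ hlt _ rfl (hC.mono hsub)).2 z hz' (hA.mono hsub)
      have e1 : ZZ G (S.erase z) = (1 + Polynomial.X) * ZZ G ((S.erase w).erase z) := by
        have hw' : w ∈ S.erase z := mem_erase.2 ⟨hwz, hw.1⟩
        rw [ZZ_rec G hw']
        have a1 : (S.erase z).erase w = (S.erase w).erase z := erase_right_comm
        have a2 : del G w (S.erase z) = (S.erase w).erase z := by
          ext u
          simp only [mem_del, mem_erase]
          constructor
          · rintro ⟨⟨h1, h2⟩, h3, -⟩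
            exact ⟨h1, h3, h2⟩
          · rintro ⟨h1, h2, h3⟩
            exact ⟨⟨h1, h3⟩, h2, fun h => h1 (hwt u h3 h)⟩
        rw [a1, a2]
        ring
      have e2 : del G z S = del G z (S.erase w) := by
        ext u
        simp only [mem_del, mem_erase]
        constructor
        · rintro ⟨h1, h2, h3⟩
          exact ⟨⟨fun h => h3 (h ▸ hw.2), h1⟩, h2, h3⟩
        · rintro ⟨⟨-, h1⟩, h2, h3⟩
          exact ⟨h1, h2, h3⟩
      have h2 := Inv.leaf h1
      unfold St
      rw [e1, e2, ex_mul, ey_mul, ex_add, ey_add, ex_one, ey_one, ex_X, ey_X]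
      exact h2
    · push Not at hleaf
      have hlt : (S.erase z).card < n := by rw [← hn]; exact card_erase_lt_of_mem hz
      have hsub : S.erase z ⊆ S := erase_subset _ _
      have hnb : nb G z S ⊆ inn G z S := by
        intro w hw
        obtain ⟨t, ht1, ht2, ht3⟩ := hleaf w hw
        rw [mem_nb] at hw
        rw [mem_inn]
        exact ⟨hw.1, hw.2, t, ht1, ht3, ht2⟩
      have hcard : (nb G z S).card ≤ 1 := (card_le_card hnb).trans hA.1
      rcases (nb G z S).eq_empty_or_nonempty with h0 | ⟨w, hw⟩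
      · have e : del G z S = S.erase z := by
          ext u
          simp only [mem_del, mem_erase]
          constructor
          · rintro ⟨h1, h2, -⟩
            exact ⟨h2, h1⟩
          · rintro ⟨h1, h2⟩
            refine ⟨h2, h1, fun h => ?_⟩
            have : u ∈ nb G z S := mem_nb.2 ⟨h2, h⟩
            rw [h0] at this
            exact absurd this (notMem_empty u)
        have h1 := (ih _ hlt _ rfl (hC.mono hsub)).1
        have h2 := (Inv.of_pos h1).spine
        unfold St
        rw [e]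
        simpa using h2
      · have hw' := mem_nb.1 hw
        have hwz : w ≠ z := fun h => G.irrefl (h ▸ hw'.2)
        have huniq : ∀ u ∈ S, G.Adj z u → u = w := by
          intro u hu hzu
          exact card_le_one.1 hcard u (mem_nb.2 ⟨hu, hzu⟩) w hw
        have hwS : w ∈ S.erase z := mem_erase.2 ⟨hwz, hw'.1⟩
        have hadm : Adm G (S.erase z) w := by
          constructor
          · refine (card_le_card ?_).trans (hA.2 w hw)
            intro a ha
            rw [mem_erase]
            exact ⟨fun h => (notMem_erase z S) (h ▸ (mem_inn.1 ha).1), inn_mono hsub ha⟩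
          · intro b hb
            rw [mem_nb, mem_erase] at hb
            refine (card_le_card (erase_subset_erase w (inn_mono hsub))).trans ?_
            have h1 := hC b hb.1.2
            have h2 : w ∈ inn G b S := by
              rw [mem_inn]
              exact ⟨hw'.1, hb.2.symm, z, hz, Ne.symm hb.1.1, hw'.2.symm⟩
            rw [card_erase_of_mem h2]
            omega
        have h1 : St G (S.erase z) w := (ih _ hlt _ rfl (hC.mono hsub)).2 w hwS hadm
        have e : del G z S = (S.erase z).erase w := by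
          ext u
          simp only [mem_del, mem_erase]
          constructor
          · rintro ⟨h1, h2, h3⟩
            exact ⟨fun h => h3 (h ▸ hw'.2), h2, h1⟩
          · rintro ⟨h1, h2, h3⟩
            exact ⟨h3, h2, fun h => h1 (huniq u h3 h)⟩
        have h2 := Inv.spine h1
        unfold St
        rw [e]
        have e3 : ZZ G (S.erase z) = ZZ G ((S.erase z).erase w) +
            Polynomial.X * ZZ G (del G w (S.erase z)) := ZZ_rec G hwS
        have e4 : ex (ZZ G (S.erase z)) = ex (ZZ G ((S.erase z).erase w)) +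
            x * ex (ZZ G (del G w (S.erase z))) := by
          conv_lhs => rw [e3]
          rw [ex_add, ex_mul, ex_X]
        have e5 : ey (ZZ G (S.erase z)) = ey (ZZ G ((S.erase z).erase w)) +
            y * ey (ZZ G (del G w (S.erase z))) := by
          conv_lhs => rw [e3]
          rw [ey_add, ey_mul, ey_X]
        rw [e4, e5]
        exact h2
  refine ⟨?_, main⟩
  rcases S.eq_empty_or_nonempty with rfl | hS
  · rw [ZZ_empty, ex_one, ey_one, mul_one]
    exact Pos.one
  · obtain ⟨z, hz, hA⟩ := exists_adm hG hS hC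
    exact (main z hz hA).tot hz

lemma coeff_ZZ (G : SimpleGraph V) (S : Finset V) (k : ℕ) : (ZZ G S).coeff k = (cnt G S k : ℤ) := by
  rw [ZZ, Z_const_eq_sum, Polynomial.finsetSum_coeff]
  simp only [Polynomial.coeff_natCast_mul, Polynomial.coeff_X_pow]
  rw [Finset.sum_eq_single k]
  · simp
  · intro b _ hb
    simp [Ne.symm hb]
  · intro hj
    rw [Finset.mem_range, not_lt] at hj
    simp [cnt_eq_zero (G := G) (S := S) (k := k) (by omega)]

/-- log-concavity for forests of caterpillars -/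
theorem lc_cnt {G : SimpleGraph V} (hG : Degen G) {S : Finset V} (hC : CatOn G S) (k : ℕ) :
    cnt G S k * cnt G S (k + 2) ≤ cnt G S (k + 1) ^ 2 := by
  have h := (key hG _ S rfl hC).1
  have h1 := h ((k + 1 : ℕ) : ℤ) ((k + 1 : ℕ) : ℤ) ((k + 2 : ℕ) : ℤ) ((k : ℕ) : ℤ)
    (by push_cast; ring) (by rw [min_eq_right (by push_cast; omega)]; push_cast; omega)
    (by rw [max_eq_left (by push_cast; omega)]; push_cast; omega)
  rw [cf_ex_ey, cf_ex_ey, coeff_ZZ, coeff_ZZ, coeff_ZZ] at h1
  have h2 : ((cnt G S (k + 2) * cnt G S k : ℕ) : ℤ) ≤ ((cnt G S (k + 1) * cnt G S (k + 1) : ℕ) : ℤ) := by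
    push_cast
    exact h1
  have h3 := Int.ofNat_le.1 h2
  nlinarith [h3]

/-- a log-concave sequence which is positive up to some index and zero afterwards is unimodal -/
lemma unimodal_of_lc {a : ℕ → ℕ} {N : ℕ} (hpos : ∀ k ≤ N, 0 < a k) (hz : ∀ k, N < k → a k = 0)
    (hlc : ∀ k, a k * a (k + 2) ≤ a (k + 1) ^ 2) : UnimodalSeq a := by
  have step : ∀ k, a (k + 1) ≤ a k → a (k + 2) ≤ a (k + 1) := by
    intro k hk
    rcases Nat.lt_or_ge N k with h | h
    · rw [hz (k + 2) (by omega)]
      exact Nat.zero_le _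
    · have h1 := hlc k
      have h2 := hpos k h
      have h3 : a k * a (k + 2) ≤ a k * a (k + 1) := by
        calc a k * a (k + 2) ≤ a (k + 1) ^ 2 := h1
          _ = a (k + 1) * a (k + 1) := sq _
          _ ≤ a k * a (k + 1) := Nat.mul_le_mul_right _ hk
      exact Nat.le_of_mul_le_mul_left h3 h2
  have hex : ∃ m, a (m + 1) ≤ a m := ⟨N, by rw [hz (N + 1) (by omega)]; exact Nat.zero_le _⟩
  refine ⟨Nat.find hex, fun i hi => ?_, ?_⟩
  · have := Nat.find_min hex hi
    omega
  · intro i hi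
    induction i, hi using Nat.le_induction with
    | base => exact Nat.find_spec hex
    | succ i _ ih => exact step i ih

lemma indepSeq_eq_cnt [Fintype V] (G : SimpleGraph V) (k : ℕ) :
    indepSeq G k = cnt G Finset.univ k := by
  rw [indepSeq, cnt_eq]
  apply Nat.subtype_card
  intro s
  rw [mem_Ik]
  constructor
  · rintro ⟨-, h1, h2⟩
    exact ⟨h2, fun a ha b hb _ => h1 a ha b hb⟩
  · rintro ⟨h1, h2⟩
    refine ⟨Finset.subset_univ _, fun a ha b hb hab => ?_, h1⟩
    exact h2 ha hb (G.ne_of_adj hab) hab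

/-- forests of caterpillars have log-concave and unimodal independence sequences -/
theorem caterpillar [Fintype V] (G : SimpleGraph V) (hG : G.IsAcyclic)
    (hc : ∀ v, {w | G.Adj v w ∧ ∃ t, t ≠ v ∧ G.Adj w t}.ncard ≤ 2) :
    (∀ k, indepSeq G k * indepSeq G (k + 2) ≤ indepSeq G (k + 1) ^ 2) ∧
      UnimodalSeq (indepSeq G) := by
  have hC : CatOn G (Finset.univ : Finset V) := by
    intro v _
    refine le_trans (le_of_eq ?_) (hc v)
    rw [← Set.ncard_coe_finset]
    congr 1
    ext w
    simp [mem_inn]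
  have hD := degen_of_acyclic hG
  have h1 : ∀ k, indepSeq G k * indepSeq G (k + 2) ≤ indepSeq G (k + 1) ^ 2 := by
    intro k
    rw [indepSeq_eq_cnt, indepSeq_eq_cnt, indepSeq_eq_cnt]
    exact lc_cnt hD hC k
  refine ⟨h1, unimodal_of_lc (N := alpha G Finset.univ) ?_ ?_ h1⟩
  · intro k hk
    rw [indepSeq_eq_cnt]
    exact cnt_pos hk
  · intro k hk
    rw [indepSeq_eq_cnt]
    exact cnt_eq_zero_of_alpha hk

end Pool.Agent.Lib.MP_24a1b5_co.Cat
end

section

/-!
# Paths with pendant paths of length one and two: the graph part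

`Q` is the set of the vertices of the spines. The components of the rest have at most two vertices and
are joined to `Q` by at most one edge.
-/

set_option autoImplicit false
open scoped Classical
open N36365310

namespace Pool.Agent.Lib.MP_24a1b5_co.Pend

open Finset Pool.Agent.Lib.MP_24a1b5_co.Cat

variable {V : Type*}

/-- the conditions on the set of the spine vertices -/
structure Spine (G : SimpleGraph V) (Q : Set V) : Prop where
  q : ∀ v ∈ Q, ∀ S : Finset V, ((nb G v S).filter (fun w => w ∈ Q)).card ≤ 2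
  o : ∀ v, v ∉ Q → ∀ w, w ∉ Q → ∀ u, u ∉ Q → G.Adj v w → G.Adj v u → w = u
  c : ∀ v, v ∉ Q → ∀ w, w ∉ Q → ∀ a ∈ Q, ∀ b ∈ Q, (v = w ∨ G.Adj v w) → G.Adj v a → G.Adj w b →
    v = w ∧ a = b

/-- a family of invariants which is preserved by the four moves -/
structure Moves (I : A → A → A → A → Prop) : Prop where
  tot : ∀ u v h l, I u v h l → Pos ((u + x * h) * (v + y * l))
  ofPos : ∀ u v, Pos (u * v) → I u v 0 0
  leaf : ∀ u v h l, I u v h l → I ((1 + x) * u) ((1 + y) * v) h l
  leg : ∀ u v h l, I u v h l → I ((1 + 2 * x) * u) ((1 + 2 * y) * v) ((1 + x) * h) ((1 + y) * l)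
  spine : ∀ u v h l, I u v h l → I (u + x * h) (v + y * l) u v

/-- the state of the rooted forest `(S, z)` satisfies the invariants -/
def St (I : A → A → A → A → Prop) (G : SimpleGraph V) (S : Finset V) (z : V) : Prop :=
  I (ex (ZZ G (S.erase z))) (ey (ZZ G (S.erase z))) (ex (ZZ G (del G z S)))
    (ey (ZZ G (del G z S)))

/-- `z` has at most one neighbour in `Q` -/
def Adm (G : SimpleGraph V) (Q : Set V) (S : Finset V) (z : V) : Prop :=
  ((nb G z S).filter (fun w => w ∈ Q)).card ≤ 1

lemma nb_mono {G : SimpleGraph V} {v : V} {S T : Finset V} (h : S ⊆ T) : nb G v S ⊆ nb G v T := by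
  intro w hw
  rw [mem_nb] at hw ⊢
  exact ⟨h hw.1, hw.2⟩

lemma Adm.mono {G : SimpleGraph V} {Q : Set V} {S T : Finset V} {z : V} (hT : Adm G Q T z)
    (h : S ⊆ T) : Adm G Q S z :=
  (card_le_card (filter_subset_filter _ (nb_mono h))).trans hT

lemma St.tot {I : A → A → A → A → Prop} (hI : Moves I) {G : SimpleGraph V} {S : Finset V} {z : V}
    (hz : z ∈ S) (h : St I G S z) : Pos (ex (ZZ G S) * ey (ZZ G S)) := by
  have h1 := hI.tot _ _ _ _ h
  rw [ZZ_rec G hz, ex_add, ey_add, ex_mul, ey_mul, ex_X, ey_X]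
  exact h1

lemma ex_two : ex 2 = 2 := by
  have : (2 : Polynomial ℤ) = 1 + 1 := by norm_num
  rw [this, ex_add, ex_one]; norm_num
lemma ey_two : ey 2 = 2 := by
  have : (2 : Polynomial ℤ) = 1 + 1 := by norm_num
  rw [this, ey_add, ey_one]; norm_num

lemma ex_leaf (f : Polynomial ℤ) : ex ((1 + Polynomial.X) * f) = (1 + x) * ex f := by
  rw [ex_mul, ex_add, ex_one, ex_X]
lemma ey_leaf (f : Polynomial ℤ) : ey ((1 + Polynomial.X) * f) = (1 + y) * ey f := by
  rw [ey_mul, ey_add, ey_one, ey_X]
lemma ex_leg (f : Polynomial ℤ) : ex ((1 + 2 * Polynomial.X) * f) = (1 + 2 * x) * ex f := by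
  rw [ex_mul, ex_add, ex_one, ex_mul, ex_two, ex_X]
lemma ey_leg (f : Polynomial ℤ) : ey ((1 + 2 * Polynomial.X) * f) = (1 + 2 * y) * ey f := by
  rw [ey_mul, ey_add, ey_one, ey_mul, ey_two, ey_X]

/-- an isolated vertex -/
lemma ZZ_iso {G : SimpleGraph V} {v : V} {S : Finset V} (hv : v ∈ S)
    (h : ∀ t ∈ S, ¬ G.Adj v t) : ZZ G S = (1 + Polynomial.X) * ZZ G (S.erase v) := by
  have e : del G v S = S.erase v := by
    ext u
    simp only [mem_del, mem_erase]
    constructor
    · rintro ⟨h1, h2, -⟩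
      exact ⟨h2, h1⟩
    · rintro ⟨h1, h2⟩
      exact ⟨h2, h1, h u h2⟩
  rw [ZZ_rec G hv, e]
  ring

/-- a component with two vertices -/
lemma ZZ_two {G : SimpleGraph V} {v a : V} {S : Finset V} (hv : v ∈ S) (ha : a ∈ S)
    (hva : G.Adj v a) (h1 : ∀ t ∈ S, G.Adj v t → t = a) (h2 : ∀ t ∈ S, G.Adj a t → t = v) :
    ZZ G S = (1 + 2 * Polynomial.X) * ZZ G ((S.erase v).erase a) := by
  have hne : a ≠ v := fun h => G.irrefl (h ▸ hva)
  have e : del G v S = (S.erase v).erase a := by
    ext u
    simp only [mem_del, mem_erase]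
    constructor
    · rintro ⟨h3, h4, h5⟩
      exact ⟨fun h => h5 (h ▸ hva), h4, h3⟩
    · rintro ⟨h3, h4, h5⟩
      exact ⟨h5, h4, fun h => h3 (h1 u h5 h)⟩
  have e2 : ZZ G (S.erase v) = (1 + Polynomial.X) * ZZ G ((S.erase v).erase a) := by
    apply ZZ_iso (mem_erase.2 ⟨hne, ha⟩)
    intro t ht hat
    rw [mem_erase] at ht
    exact ht.1 (h2 t ht.2 hat)
  rw [ZZ_rec G hv, e, e2]
  ring

theorem key {I : A → A → A → A → Prop} (hI : Moves I) {G : SimpleGraph V} (hG : Degen G)
    {Q : Set V} (hQ : Spine G Q) : ∀ (n : ℕ) (S : Finset V), S.card = n →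
    Pos (ex (ZZ G S) * ey (ZZ G S)) ∧ ∀ z ∈ S, z ∈ Q → Adm G Q S z → St I G S z := by
  intro n
  induction n using Nat.strong_induction_on with
  | _ n ih =>
  intro S hn
  have main : ∀ z ∈ S, z ∈ Q → Adm G Q S z → St I G S z := by
    intro z hz hzQ hA
    by_cases hout : ∃ w ∈ nb G z S, w ∉ Q
    · obtain ⟨w, hw, hwQ⟩ := hout
      rw [mem_nb] at hw
      have hwz : w ≠ z := fun h => G.irrefl (h ▸ hw.2)
      have hwq : ∀ t ∈ Q, G.Adj w t → t = z := fun t ht hwt =>
        (hQ.c w hwQ w hwQ t ht z hzQ (Or.inl rfl) hwt hw.2.symm).2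
      by_cases hext : ∃ a ∈ S, a ∉ Q ∧ G.Adj w a
      · obtain ⟨a, ha, haQ, hwa⟩ := hext
        have haz : a ≠ z := fun h => haQ (h ▸ hzQ)
        have haw : a ≠ w := fun h => G.irrefl (h ▸ hwa)
        have ha1 : ∀ t, G.Adj a t → t = w := by
          intro t hat
          by_cases htQ : t ∈ Q
          · exact absurd (hQ.c w hwQ a haQ z hzQ t htQ (Or.inr hwa) hw.2.symm hat).1 haw.symm
          · exact hQ.o a haQ t htQ w hwQ hat hwa.symm
        have hw1 : ∀ t, t ≠ z → G.Adj w t → t = a := by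
          intro t htz hwt
          by_cases htQ : t ∈ Q
          · exact absurd (hwq t htQ hwt) htz
          · exact hQ.o w hwQ t htQ a haQ hwt hwa
        have hsub : (S.erase w).erase a ⊆ S := (erase_subset _ _).trans (erase_subset _ _)
        have hlt : ((S.erase w).erase a).card < n := by
          have h1 := card_erase_lt_of_mem hw.1
          have h2 := card_le_card (erase_subset a (S.erase w))
          omega
        have hz' : z ∈ (S.erase w).erase a :=
          mem_erase.2 ⟨haz.symm, mem_erase.2 ⟨hwz.symm, hz⟩⟩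
        have h1 : St I G ((S.erase w).erase a) z := (ih _ hlt _ rfl).2 z hz' hzQ (hA.mono hsub)
        have e1 : ZZ G (S.erase z) =
            (1 + 2 * Polynomial.X) * ZZ G (((S.erase w).erase a).erase z) := by
          have a0 : ZZ G (S.erase z) =
              (1 + 2 * Polynomial.X) * ZZ G (((S.erase z).erase w).erase a) := by
            apply ZZ_two (mem_erase.2 ⟨hwz, hw.1⟩) (mem_erase.2 ⟨haz, ha⟩) hwa
            · intro t ht hwt
              exact hw1 t (mem_erase.1 ht).1 hwt
            · intro t _ hat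
              exact ha1 t hat
          have a1 : ((S.erase z).erase w).erase a = ((S.erase w).erase a).erase z := by
            rw [erase_right_comm (a := z) (b := w), erase_right_comm (a := z) (b := a)]
          rw [a0, a1]
        have e2 : ZZ G (del G z S) = (1 + Polynomial.X) * ZZ G (del G z ((S.erase w).erase a)) := by
          have hamem : a ∈ del G z S := by
            rw [mem_del]
            exact ⟨ha, haz, fun h => hwz (ha1 z h.symm).symm⟩
          have b1 : ZZ G (del G z S) = (1 + Polynomial.X) * ZZ G ((del G z S).erase a) := by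
            apply ZZ_iso hamem
            intro t ht hat
            rw [mem_del] at ht
            exact ht.2.2 ((ha1 t hat) ▸ hw.2)
          have b2 : (del G z S).erase a = del G z ((S.erase w).erase a) := by
            ext u
            simp only [mem_del, mem_erase]
            constructor
            · rintro ⟨h1, h2, h3, h4⟩
              exact ⟨⟨h1, fun h => h4 (h ▸ hw.2), h2⟩, h3, h4⟩
            · rintro ⟨⟨h1, -, h2⟩, h3, h4⟩
              exact ⟨h1, h2, h3, h4⟩
          rw [b1, b2]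
        have h2 := hI.leg _ _ _ _ h1
        unfold St
        rw [e1, e2, ex_leg, ey_leg, ex_leaf, ey_leaf]
        exact h2
      · push Not at hext
        have hwt : ∀ t ∈ S, G.Adj w t → t = z := by
          intro t ht hwt
          by_cases htQ : t ∈ Q
          · exact hwq t htQ hwt
          · exact absurd hwt (hext t ht htQ)
        have hsub : S.erase w ⊆ S := erase_subset _ _
        have hlt : (S.erase w).card < n := by rw [← hn]; exact card_erase_lt_of_mem hw.1
        have hz' : z ∈ S.erase w := mem_erase.2 ⟨hwz.symm, hz⟩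
        have h1 : St I G (S.erase w) z := (ih _ hlt _ rfl).2 z hz' hzQ (hA.mono hsub)
        have e1 : ZZ G (S.erase z) = (1 + Polynomial.X) * ZZ G ((S.erase w).erase z) := by
          have a0 : ZZ G (S.erase z) = (1 + Polynomial.X) * ZZ G ((S.erase z).erase w) := by
            apply ZZ_iso (mem_erase.2 ⟨hwz, hw.1⟩)
            intro t ht hwt'
            rw [mem_erase] at ht
            exact ht.1 (hwt t ht.2 hwt')
          rw [a0, erase_right_comm]
        have e2 : del G z S = del G z (S.erase w) := by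
          ext u
          simp only [mem_del, mem_erase]
          constructor
          · rintro ⟨h1, h2, h3⟩
            exact ⟨⟨fun h => h3 (h ▸ hw.2), h1⟩, h2, h3⟩
          · rintro ⟨⟨-, h1⟩, h2, h3⟩
            exact ⟨h1, h2, h3⟩
        have h2 := hI.leaf _ _ _ _ h1
        unfold St
        rw [e1, e2, ex_leaf, ey_leaf]
        exact h2
    · push Not at hout
      have hlt : (S.erase z).card < n := by rw [← hn]; exact card_erase_lt_of_mem hz
      have hcard : (nb G z S).card ≤ 1 := by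
        refine le_trans (card_le_card ?_) hA
        intro w hw
        rw [mem_filter]
        exact ⟨hw, hout w hw⟩
      rcases (nb G z S).eq_empty_or_nonempty with h0 | ⟨w, hw⟩
      · have e : del G z S = S.erase z := by
          ext u
          simp only [mem_del, mem_erase]
          constructor
          · rintro ⟨h1, h2, -⟩
            exact ⟨h2, h1⟩
          · rintro ⟨h1, h2⟩
            refine ⟨h2, h1, fun h => ?_⟩
            have : u ∈ nb G z S := mem_nb.2 ⟨h2, h⟩
            rw [h0] at this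
            exact absurd this (notMem_empty u)
        have h1 := (ih _ hlt _ rfl).1
        have h2 := hI.spine _ _ _ _ (hI.ofPos _ _ h1)
        unfold St
        rw [e]
        simpa using h2
      · have hw' := mem_nb.1 hw
        have hwz : w ≠ z := fun h => G.irrefl (h ▸ hw'.2)
        have hwQ : w ∈ Q := hout w hw
        have huniq : ∀ u ∈ S, G.Adj z u → u = w := by
          intro u hu hzu
          exact card_le_one.1 hcard u (mem_nb.2 ⟨hu, hzu⟩) w hw
        have hwS : w ∈ S.erase z := mem_erase.2 ⟨hwz, hw'.1⟩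
        have hadm : Adm G Q (S.erase z) w := by
          have h1 := hQ.q w hwQ S
          have h2 : z ∈ (nb G w S).filter (fun w => w ∈ Q) := by
            rw [mem_filter, mem_nb]
            exact ⟨⟨hz, hw'.2.symm⟩, hzQ⟩
          have h3 : (nb G w (S.erase z)).filter (fun w => w ∈ Q) ⊆
              ((nb G w S).filter (fun w => w ∈ Q)).erase z := by
            intro t ht
            rw [mem_filter, mem_nb, mem_erase] at ht
            rw [mem_erase, mem_filter, mem_nb]
            exact ⟨ht.1.1.1, ⟨ht.1.1.2, ht.1.2⟩, ht.2⟩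
          have h4 := card_le_card h3
          rw [card_erase_of_mem h2] at h4
          unfold Adm
          omega
        have h1 : St I G (S.erase z) w := (ih _ hlt _ rfl).2 w hwS hwQ hadm
        have e : del G z S = (S.erase z).erase w := by
          ext u
          simp only [mem_del, mem_erase]
          constructor
          · rintro ⟨h1, h2, h3⟩
            exact ⟨fun h => h3 (h ▸ hw'.2), h2, h1⟩
          · rintro ⟨h1, h2, h3⟩
            exact ⟨h3, h2, fun h => h1 (huniq u h3 h)⟩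
        have h2 := hI.spine _ _ _ _ h1
        unfold St
        rw [e]
        have e3 : ZZ G (S.erase z) = ZZ G ((S.erase z).erase w) +
            Polynomial.X * ZZ G (del G w (S.erase z)) := ZZ_rec G hwS
        have e4 : ex (ZZ G (S.erase z)) = ex (ZZ G ((S.erase z).erase w)) +
            x * ex (ZZ G (del G w (S.erase z))) := by
          conv_lhs => rw [e3]
          rw [ex_add, ex_mul, ex_X]
        have e5 : ey (ZZ G (S.erase z)) = ey (ZZ G ((S.erase z).erase w)) +
            y * ey (ZZ G (del G w (S.erase z))) := by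
          conv_lhs => rw [e3]
          rw [ey_add, ey_mul, ey_X]
        rw [e4, e5]
        exact h2
  refine ⟨?_, main⟩
  rcases (S.filter (fun w => w ∈ Q)).eq_empty_or_nonempty with h0 | h0
  · have hno : ∀ t ∈ S, t ∉ Q := by
      intro t ht htQ
      have : t ∈ S.filter (fun w => w ∈ Q) := mem_filter.2 ⟨ht, htQ⟩
      rw [h0] at this
      exact absurd this (notMem_empty t)
    rcases S.eq_empty_or_nonempty with rfl | ⟨v, hv⟩
    · rw [ZZ_empty, ex_one, ey_one, mul_one]
      exact Pos.one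
    · by_cases hnb : ∃ a ∈ S, G.Adj v a
      · obtain ⟨a, ha, hva⟩ := hnb
        have hne : a ≠ v := fun h => G.irrefl (h ▸ hva)
        have hlt : ((S.erase v).erase a).card < n := by
          have h1 := card_erase_lt_of_mem hv
          have h2 := card_le_card (erase_subset a (S.erase v))
          omega
        have h1 := (ih _ hlt _ rfl).1
        have e1 : ZZ G S = (1 + 2 * Polynomial.X) * ZZ G ((S.erase v).erase a) := by
          apply ZZ_two hv ha hva
          · intro t ht hvt
            exact hQ.o v (hno v hv) t (hno t ht) a (hno a ha) hvt hva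
          · intro t ht hat
            exact hQ.o a (hno a ha) t (hno t ht) v (hno v hv) hat hva.symm
        have hM : Cat.Mul (1 + (x + y) + (x + y) + (x * y + x * y + (x * y + x * y))) :=
          ((Cat.Mul.one.add Cat.Mul.e1).add Cat.Mul.e1).add
            ((Cat.Mul.e2.add Cat.Mul.e2).add (Cat.Mul.e2.add Cat.Mul.e2))
        have h2 := hM _ h1
        have e2 : ex (ZZ G S) * ey (ZZ G S) =
            (1 + (x + y) + (x + y) + (x * y + x * y + (x * y + x * y))) *
              (ex (ZZ G ((S.erase v).erase a)) * ey (ZZ G ((S.erase v).erase a))) := by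
          rw [e1, ex_leg, ey_leg]
          ring
        rw [e2]
        exact h2
      · push Not at hnb
        have hlt : (S.erase v).card < n := by rw [← hn]; exact card_erase_lt_of_mem hv
        have h1 := (ih _ hlt _ rfl).1
        have e1 : ZZ G S = (1 + Polynomial.X) * ZZ G (S.erase v) := ZZ_iso hv hnb
        have hM : Cat.Mul (1 + (x + y) + x * y) := (Cat.Mul.one.add Cat.Mul.e1).add Cat.Mul.e2
        have h2 := hM _ h1
        have e2 : ex (ZZ G S) * ey (ZZ G S) = (1 + (x + y) + x * y) *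
            (ex (ZZ G (S.erase v)) * ey (ZZ G (S.erase v))) := by
          rw [e1, ex_leaf, ey_leaf]
          ring
        rw [e2]
        exact h2
  · obtain ⟨z, hz, hz1⟩ := hG _ h0
    rw [mem_filter] at hz
    refine (main z hz.1 hz.2 ?_).tot hI hz.1
    refine le_trans (card_le_card ?_) hz1
    intro t ht
    rw [mem_filter, mem_nb] at ht
    rw [mem_nb, mem_filter]
    exact ⟨⟨ht.1.1, ht.2⟩, ht.1.2⟩

/-- log-concavity of the numbers of independent sets -/
theorem lc_cnt {I : A → A → A → A → Prop} (hI : Moves I) {G : SimpleGraph V} (hG : Degen G)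
    {Q : Set V} (hQ : Spine G Q) (S : Finset V) (k : ℕ) :
    cnt G S k * cnt G S (k + 2) ≤ cnt G S (k + 1) ^ 2 := by
  have h := (key hI hG hQ _ S rfl).1
  have h1 := h ((k + 1 : ℕ) : ℤ) ((k + 1 : ℕ) : ℤ) ((k + 2 : ℕ) : ℤ) ((k : ℕ) : ℤ)
    (by push_cast; ring) (by rw [min_eq_right (by push_cast; omega)]; push_cast; omega)
    (by rw [max_eq_left (by push_cast; omega)]; push_cast; omega)
  rw [cf_ex_ey, cf_ex_ey, coeff_ZZ, coeff_ZZ, coeff_ZZ] at h1
  have h2 : ((cnt G S (k + 2) * cnt G S k : ℕ) : ℤ) ≤ ((cnt G S (k + 1) * cnt G S (k + 1) : ℕ) : ℤ) := by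
    push_cast
    exact h1
  have h3 := Int.ofNat_le.1 h2
  nlinarith [h3]

/-- the final statement, for every family of invariants -/
theorem main [Fintype V] {I : A → A → A → A → Prop} (hI : Moves I) (G : SimpleGraph V)
    (hG : G.IsAcyclic) (Q : Set V)
    (hq : ∀ v ∈ Q, {w | w ∈ Q ∧ G.Adj v w}.ncard ≤ 2)
    (ho : ∀ v, v ∉ Q → {w | w ∉ Q ∧ G.Adj v w}.ncard ≤ 1)
    (hc : ∀ v, v ∉ Q → ∀ w, w ∉ Q → ∀ a ∈ Q, ∀ b ∈ Q, (v = w ∨ G.Adj v w) →
      G.Adj v a → G.Adj w b → v = w ∧ a = b) :
    (∀ k, indepSeq G k * indepSeq G (k + 2) ≤ indepSeq G (k + 1) ^ 2) ∧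
      UnimodalSeq (indepSeq G) := by
  have hQ : Spine G Q := by
    refine ⟨?_, ?_, hc⟩
    · intro v hv S
      refine le_trans ?_ (hq v hv)
      rw [← Set.ncard_coe_finset]
      apply Set.ncard_le_ncard _ (Set.toFinite _)
      intro w hw
      rw [mem_coe, mem_filter, mem_nb] at hw
      exact ⟨hw.2, hw.1.2⟩
    · intro v hv w hw u hu hvw hvu
      exact (Set.ncard_le_one (Set.toFinite _)).1 (ho v hv) w ⟨hw, hvw⟩ u ⟨hu, hvu⟩
  have hD := degen_of_acyclic hG
  have h1 : ∀ k, indepSeq G k * indepSeq G (k + 2) ≤ indepSeq G (k + 1) ^ 2 := by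
    intro k
    rw [indepSeq_eq_cnt, indepSeq_eq_cnt, indepSeq_eq_cnt]
    exact lc_cnt hI hD hQ _ k
  refine ⟨h1, unimodal_of_lc (N := alpha G Finset.univ) ?_ ?_ h1⟩
  · intro k hk
    rw [indepSeq_eq_cnt]
    exact cnt_pos hk
  · intro k hk
    rw [indepSeq_eq_cnt]
    exact cnt_eq_zero_of_alpha hk

end Pool.Agent.Lib.MP_24a1b5_co.Pend
end

section

/-!
# The invariants of the words are preserved by the four moves
-/

set_option autoImplicit false

namespace Pool.Agent.Lib.MP_24a1b5_co.Pend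

open Pool.Agent.Lib.MP_24a1b5_co.Cat

lemma g_eq (n : ℕ) : Pool.Agent.MP24a1b5.CA.g x y n = g n := by
  induction n using Nat.twoStepInduction with
  | zero => rw [Pool.Agent.MP24a1b5.CA.g_zero, g_zero]
  | one => rw [Pool.Agent.MP24a1b5.CA.g_one, g_one]
  | more n ih1 ih2 => rw [Pool.Agent.MP24a1b5.CA.g_succ, g_rec, ih1, ih2]

lemma mul_of_mem {c : A} (hc : c ∈ Pool.Agent.MP24a1b5.CA.Cn x y) : Mul c := by
  rw [Pool.Agent.MP24a1b5.CA.mem_Cn] at hc
  induction hc using AddSubmonoid.closure_induction with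
  | mem z hz =>
    obtain ⟨a, n, rfl⟩ := hz
    rw [g_eq]
    exact (Mul.e2.pow a).mul (Mul.g n)
  | zero => exact Mul.zero
  | add _ _ _ _ h1 h2 => exact h1.add h2

lemma cone : Pool.Agent.MP24a1b5.CA.IsCone x y Pos :=
  ⟨fun _ _ h1 h2 => h1.add h2, fun _ hc _ hz => mul_of_mem hc _ hz⟩

/-- the invariants of the words -/
def I60 (u v h l : A) : Prop := Pool.Agent.MP24a1b5.CA.Inv x y Pos u v h l

theorem moves : Moves I60 where
  tot _ _ _ _ h := Pool.Agent.MP24a1b5.CA.Inv.total cone h
  ofPos _ _ h := Pool.Agent.MP24a1b5.CA.Inv.start cone h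
  leaf _ _ _ _ h := Pool.Agent.MP24a1b5.CA.Inv.D cone h
  leg _ _ _ _ h := Pool.Agent.MP24a1b5.CA.Inv.E cone h
  spine _ _ _ _ h := Pool.Agent.MP24a1b5.CA.Inv.J cone h

end Pool.Agent.Lib.MP_24a1b5_co.Pend
end

section

/-!
# Forests with a parent function outside the spine
-/

set_option autoImplicit false
open scoped Classical
open N36365310

namespace Pool.Agent.Lib.MP_24a1b5_co.Br

open Finset Pool.Agent.Lib.MP_24a1b5_co.Cat Pool.Agent.Lib.MP_24a1b5_co.Pend
  Pool.Agent.MP24a1b5.CA

variable {V : Type*}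

/-- the edges which are not inside the spine `Q` are given by a parent function -/
structure Par (G : SimpleGraph V) (Q : Set V) (f : V → V) (rk : V → ℕ) : Prop where
  fix : ∀ v ∈ Q, f v = v
  adj : ∀ v, v ∉ Q → G.Adj v (f v)
  lt : ∀ v, v ∉ Q → rk (f v) < rk v
  edge : ∀ v w, v ∉ Q → G.Adj v w → w = f v ∨ (w ∉ Q ∧ v = f w)

variable {G : SimpleGraph V} {Q : Set V} {f : V → V} {rk : V → ℕ}

lemma ZZ_union {S T : Finset V} (hd : Disjoint S T) (ha : ∀ u ∈ S, ∀ w ∈ T, ¬ G.Adj u w) :
    ZZ G (S ∪ T) = ZZ G S * ZZ G T := Z_union' G _ hd ha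

lemma ZZ_single (v : V) : ZZ G {v} = 1 + Polynomial.X := by
  have h1 : ({v} : Finset V).erase v = ∅ := by simp
  have h2 : del G v {v} = ∅ := by
    ext u
    simp only [mem_del, mem_singleton, notMem_empty, iff_false]
    rintro ⟨h1, h2, -⟩
    exact h2 h1
  rw [ZZ_rec G (mem_singleton_self v), h1, h2, ZZ_empty]
  ring

variable [Fintype V]

/-- the descendants of `v` -/
noncomputable def Ds (f : V → V) (v : V) : Finset V := univ.filter fun u => ∃ k, f^[k] u = v

/-- the children of `v` -/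
noncomputable def ch (Q : Set V) (f : V → V) (v : V) : Finset V :=
  univ.filter fun c => c ∉ Q ∧ f c = v

lemma mem_Ds {u v : V} : u ∈ Ds f v ↔ ∃ k, f^[k] u = v := by simp [Ds]

lemma mem_ch {c v : V} : c ∈ ch Q f v ↔ c ∉ Q ∧ f c = v := by simp [ch]

lemma self_mem (v : V) : v ∈ Ds f v := mem_Ds.2 ⟨0, rfl⟩

lemma up {u v : V} (h : f u ∈ Ds f v) : u ∈ Ds f v := by
  obtain ⟨k, hk⟩ := mem_Ds.1 h
  exact mem_Ds.2 ⟨k + 1, by rw [Function.iterate_succ_apply]; exact hk⟩

lemma down {u v : V} (h : u ∈ Ds f v) (hne : u ≠ v) : f u ∈ Ds f v := by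
  obtain ⟨k, hk⟩ := mem_Ds.1 h
  cases k with
  | zero => exact absurd hk hne
  | succ k =>
    rw [Function.iterate_succ_apply] at hk
    exact mem_Ds.2 ⟨k, hk⟩

namespace Par

lemma notMem (h : Par G Q f rk) {u v : V} (hv : v ∉ Q) (hu : u ∈ Ds f v) : u ∉ Q := by
  obtain ⟨k, hk⟩ := mem_Ds.1 hu
  intro hq
  have : ∀ k, f^[k] u = u := by
    intro k
    induction k with
    | zero => rfl
    | succ k ih => rw [Function.iterate_succ_apply, h.fix u hq, ih]
  rw [this] at hk
  exact hv (hk ▸ hq)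

lemma rk_le (h : Par G Q f rk) {u v : V} (hv : v ∉ Q) (hu : u ∈ Ds f v) : rk v ≤ rk u := by
  obtain ⟨k, hk⟩ := mem_Ds.1 hu
  induction k generalizing u with
  | zero => rw [← hk]; rfl
  | succ k ih =>
    rw [Function.iterate_succ_apply] at hk
    have h1 := ih (mem_Ds.2 ⟨k, hk⟩) hk
    have h2 := h.lt u (h.notMem hv hu)
    omega

lemma par_notMem (h : Par G Q f rk) {v : V} (hv : v ∉ Q) : f v ∉ Ds f v := by
  intro h1
  have h2 := h.rk_le hv h1
  have h3 := h.lt v hv
  omega

lemma out (h : Par G Q f rk) {u v t : V} (hv : v ∉ Q) (hu : u ∈ Ds f v) (ht : t ∉ Ds f v)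
    (hut : G.Adj u t) : u = v ∧ t = f v := by
  rcases h.edge u t (h.notMem hv hu) hut with h1 | ⟨-, h1⟩
  · by_cases hne : u = v
    · exact ⟨hne, hne ▸ h1⟩
    · exact absurd (h1 ▸ down hu hne) ht
  · exact absurd (up (h1 ▸ hu)) ht

lemma ch_sub {v c : V} (hc : c ∈ ch Q f v) : Ds f c ⊆ Ds f v := by
  intro u hu
  obtain ⟨k, hk⟩ := mem_Ds.1 hu
  refine mem_Ds.2 ⟨k + 1, ?_⟩
  rw [Function.iterate_succ_apply', hk]
  exact (mem_ch.1 hc).2

lemma ch_ne (h : Par G Q f rk) {v c : V} (hc : c ∈ ch Q f v) : v ∉ Ds f c := by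
  have h1 := mem_ch.1 hc
  have := h.par_notMem h1.1
  rwa [h1.2] at this

lemma ch_lt (h : Par G Q f rk) {v c : V} (hc : c ∈ ch Q f v) : (Ds f c).card < (Ds f v).card := by
  apply card_lt_card
  refine ⟨ch_sub hc, fun h1 => ?_⟩
  exact h.ch_ne hc (h1 (self_mem v))

lemma ch_notMem (h : Par G Q f rk) {v c d : V} (hc : c ∈ ch Q f v) (hd : d ∈ ch Q f v)
    (hne : c ≠ d) {u : V} (hu : u ∈ Ds f c) : u ∉ Ds f d := by
  have h1 := mem_ch.1 hc
  have h2 := mem_ch.1 hd
  obtain ⟨k, hk⟩ := mem_Ds.1 hu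
  induction k generalizing u with
  | zero =>
    intro h3
    have h4 : c ∈ Ds f d := hk ▸ h3
    have h5 := down h4 hne
    rw [h1.2] at h5
    exact h.ch_ne hd h5
  | succ k ih =>
    intro h3
    rw [Function.iterate_succ_apply] at hk
    by_cases hud : u = d
    · have h4 : f u ∈ Ds f c := mem_Ds.2 ⟨k, hk⟩
      rw [hud, h2.2] at h4
      exact h.ch_ne hc h4
    · exact ih (mem_Ds.2 ⟨k, hk⟩) hk (down h3 hud)

lemma ch_adj (h : Par G Q f rk) {v c d : V} (hc : c ∈ ch Q f v) (hd : d ∈ ch Q f v)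
    (hne : c ≠ d) {u w : V} (hu : u ∈ Ds f c) (hw : w ∈ Ds f d) : ¬ G.Adj u w := by
  intro huw
  have h1 := mem_ch.1 hc
  have h2 := h.out h1.1 hu (h.ch_notMem hd hc hne.symm hw) huw
  rw [h1.2] at h2
  exact h.ch_ne hd (h2.2 ▸ hw)

lemma erase_eq (h : Par G Q f rk) {v : V} (hv : v ∉ Q) :
    (Ds f v).erase v = (ch Q f v).biUnion (Ds f) := by
  ext u
  rw [mem_erase, mem_biUnion]
  constructor
  · rintro ⟨h1, h2⟩
    obtain ⟨k, hk⟩ := mem_Ds.1 h2
    cases k with
    | zero => exact absurd hk h1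
    | succ k =>
      rw [Function.iterate_succ_apply'] at hk
      refine ⟨f^[k] u, mem_ch.2 ⟨fun h3 => ?_, hk⟩, mem_Ds.2 ⟨k, rfl⟩⟩
      have h4 := h.fix _ h3
      rw [h4] at hk
      exact hv (hk ▸ h3)
  · rintro ⟨c, hc, hu⟩
    exact ⟨fun h1 => h.ch_ne hc (h1 ▸ hu), ch_sub hc hu⟩

lemma del_eq (h : Par G Q f rk) {v : V} (hv : v ∉ Q) :
    del G v (Ds f v) = (ch Q f v).biUnion (fun c => (Ds f c).erase c) := by
  ext u
  rw [mem_del, mem_biUnion]
  constructor
  · rintro ⟨h1, h2, h3⟩
    have h4 : u ∈ (Ds f v).erase v := mem_erase.2 ⟨h2, h1⟩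
    rw [h.erase_eq hv, mem_biUnion] at h4
    obtain ⟨c, hc, hu⟩ := h4
    refine ⟨c, hc, mem_erase.2 ⟨fun h5 => ?_, hu⟩⟩
    have h6 := mem_ch.1 hc
    have h7 := h.adj c h6.1
    rw [h6.2] at h7
    exact h3 (h5 ▸ h7.symm)
  · rintro ⟨c, hc, hu⟩
    rw [mem_erase] at hu
    have h6 := mem_ch.1 hc
    refine ⟨ch_sub hc hu.2, fun h1 => h.ch_ne hc (h1 ▸ hu.2), fun h1 => ?_⟩
    exact hu.1 (h.out h6.1 hu.2 (h.ch_ne hc) h1.symm).1

end Par

omit [Fintype V] in
lemma ZZ_biUnion (C : Finset V) (F : V → Finset V)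
    (hd : ∀ c ∈ C, ∀ d ∈ C, c ≠ d → ∀ u ∈ F c, u ∉ F d)
    (ha : ∀ c ∈ C, ∀ d ∈ C, c ≠ d → ∀ u ∈ F c, ∀ w ∈ F d, ¬ G.Adj u w) :
    ZZ G (C.biUnion F) = ∏ c ∈ C, ZZ G (F c) := by
  induction C using Finset.induction_on with
  | empty => rw [biUnion_empty, ZZ_empty, prod_empty]
  | insert c C hc ih =>
    rw [biUnion_insert, prod_insert hc, ZZ_union, ih]
    · exact fun a h1 b h2 => hd a (mem_insert_of_mem h1) b (mem_insert_of_mem h2)
    · exact fun a h1 b h2 => ha a (mem_insert_of_mem h1) b (mem_insert_of_mem h2)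
    · rw [disjoint_left]
      intro u hu h1
      obtain ⟨d, h2, h3⟩ := mem_biUnion.1 h1
      exact hd c (mem_insert_self _ _) d (mem_insert_of_mem h2) (fun h => hc (h ▸ h2)) u hu h3
    · intro u hu w h1
      obtain ⟨d, h2, h3⟩ := mem_biUnion.1 h1
      exact ha c (mem_insert_self _ _) d (mem_insert_of_mem h2) (fun h => hc (h ▸ h2)) u hu w h3

lemma ex_one_X : ex (1 + Polynomial.X) = 1 + x := by rw [ex_add, ex_one, ex_X]
lemma ey_one_X : ey (1 + Polynomial.X) = 1 + y := by rw [ey_add, ey_one, ey_X]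

/-- the condition on the branches -/
def Plain (Q : Set V) (f : V → V) (v : V) : Prop :=
  ch Q f v = ∅ ∨ ∃ c ∈ ch Q f v, ch Q f c = ∅ ∧ ((ch Q f v).erase c).card ≤ 2 ∧
    ∀ d ∈ (ch Q f v).erase c, ch Q f d ≠ ∅

lemma Ds_leaf (h : Par G Q f rk) {v : V} (hv : v ∉ Q) (h0 : ch Q f v = ∅) : Ds f v = {v} := by
  have h1 := h.erase_eq hv
  rw [h0, biUnion_empty] at h1
  ext u
  rw [mem_singleton]
  constructor
  · intro hu
    by_contra hne
    have h2 : u ∈ (Ds f v).erase v := mem_erase.2 ⟨hne, hu⟩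
    rw [h1] at h2
    exact absurd h2 (notMem_empty u)
  · rintro rfl
    exact self_mem u

/-- the condition on the data of a branch -/
def SBr (G : SimpleGraph V) (S : Finset V) (v : V) : Prop :=
  SB x y (ex (ZZ G S)) (ey (ZZ G S)) (ex (ZZ G (S.erase v))) (ey (ZZ G (S.erase v)))

theorem strong (h : Par G Q f rk) (hpl : ∀ v, v ∉ Q → Plain Q f v) : ∀ (n : ℕ) (v : V), v ∉ Q →
    (Ds f v).card = n → ch Q f v ≠ ∅ → SBr G (Ds f v) v := by
  intro n
  induction n using Nat.strong_induction_on with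
  | _ n ih =>
  intro v hv hn hne
  rcases hpl v hv with h0 | ⟨c, hc, hc0, hcard, hd⟩
  · exact absurd h0 hne
  have e1 : ZZ G ((Ds f v).erase v) = ∏ d ∈ ch Q f v, ZZ G (Ds f d) := by
    rw [h.erase_eq hv]
    exact ZZ_biUnion _ _ (fun a h1 b h2 h3 u hu => h.ch_notMem h1 h2 h3 hu)
      (fun a h1 b h2 h3 u hu w hw => h.ch_adj h1 h2 h3 hu hw)
  have e2 : ZZ G (del G v (Ds f v)) = ∏ d ∈ ch Q f v, ZZ G ((Ds f d).erase d) := by
    rw [h.del_eq hv]
    exact ZZ_biUnion _ _
      (fun a h1 b h2 h3 u hu h4 => h.ch_notMem h1 h2 h3 (mem_erase.1 hu).2 (mem_erase.1 h4).2)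
      (fun a h1 b h2 h3 u hu w hw => h.ch_adj h1 h2 h3 (mem_erase.1 hu).2 (mem_erase.1 hw).2)
  have hcQ : c ∉ Q := (mem_ch.1 hc).1
  rw [← mul_prod_erase _ _ hc, Ds_leaf h hcQ hc0] at e1 e2
  rw [ZZ_single] at e1
  have e3 : ({c} : Finset V).erase c = ∅ := by simp
  rw [e3, ZZ_empty, one_mul] at e2
  have e4 := ZZ_rec G (self_mem (f := f) v)
  have hS : ∀ d ∈ (ch Q f v).erase c, SBr G (Ds f d) d := by
    intro d hd1
    have h1 := (mem_erase.1 hd1).2
    exact ih _ (hn ▸ h.ch_lt h1) d (mem_ch.1 h1).1 rfl (hd d hd1)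
  have fin : ∀ p q r s : Polynomial ℤ, SB x y (ex p) (ey p) (ex q) (ey q) →
      SB x y (ex r) (ey r) (ex s) (ey s) → ∏ d ∈ (ch Q f v).erase c, ZZ G (Ds f d) = p * r →
      ∏ d ∈ (ch Q f v).erase c, ZZ G ((Ds f d).erase d) = q * s → SBr G (Ds f v) v := by
    intro p q r s h1 h2 h3 h4
    have h5 := h1.node h2
    rw [h3] at e1
    rw [h4] at e2
    unfold SBr
    rw [e4, e1, e2, ex_add, ey_add, ex_mul, ey_mul, ex_one_X, ey_one_X, ex_mul, ey_mul,
      ex_mul, ey_mul, ex_X, ey_X, ex_mul, ey_mul]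
    exact h5
  have hnil : SB x y (ex 1) (ey 1) (ex 1) (ey 1) := by
    rw [ex_one, ey_one]
    exact SB.nil
  have hc3 : ((ch Q f v).erase c).card = 0 ∨ ((ch Q f v).erase c).card = 1 ∨
      ((ch Q f v).erase c).card = 2 := by omega
  rcases hc3 with h5 | h5 | h5
  · rw [card_eq_zero] at h5
    refine fin 1 1 1 1 hnil hnil ?_ ?_ <;> rw [h5, prod_empty, one_mul]
  · obtain ⟨d, hd1⟩ := card_eq_one.1 h5
    refine fin _ _ 1 1 (hS d (by rw [hd1]; exact mem_singleton_self d)) hnil ?_ ?_ <;>
      rw [hd1, prod_singleton, mul_one]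
  · obtain ⟨d, d', hne', hd1⟩ := card_eq_two.1 h5
    refine fin _ _ _ _ (hS d (by rw [hd1]; exact mem_insert_self _ _))
      (hS d' (by rw [hd1]; exact mem_insert_of_mem (mem_singleton_self _))) ?_ ?_ <;>
      rw [hd1, prod_pair hne']

/-- every branch can be attached -/
theorem weak (h : Par G Q f rk) (hpl : ∀ v, v ∉ Q → Plain Q f v) {v : V} (hv : v ∉ Q) :
    WB x y (ex (ZZ G (Ds f v))) (ey (ZZ G (Ds f v))) (ex (ZZ G ((Ds f v).erase v)))
      (ey (ZZ G ((Ds f v).erase v))) := by
  by_cases h0 : ch Q f v = ∅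
  · have e3 : ({v} : Finset V).erase v = ∅ := by simp
    rw [Ds_leaf h hv h0, ZZ_single, e3, ZZ_empty, ex_one_X, ey_one_X, ex_one, ey_one]
    exact WB.leaf
  · exact (strong h hpl _ v hv rfl h0).weak

end Pool.Agent.Lib.MP_24a1b5_co.Br
end

section

/-!
# The induction along the spines
-/

set_option autoImplicit false
open scoped Classical
open N36365310

namespace Pool.Agent.Lib.MP_24a1b5_co.Br

open Finset Pool.Agent.Lib.MP_24a1b5_co.Cat Pool.Agent.Lib.MP_24a1b5_co.Pend
  Pool.Agent.MP24a1b5.CA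

variable {V : Type*} [Fintype V] {G : SimpleGraph V} {Q : Set V} {f : V → V} {rk : V → ℕ}

/-- `S` contains the children of its vertices outside `Q` -/
def Clo (Q : Set V) (f : V → V) (S : Finset V) : Prop :=
  ∀ c, c ∉ Q → f c ∉ Q → f c ∈ S → c ∈ S

lemma Clo.sub (h : Par G Q f rk) {S : Finset V} (hS : Clo Q f S) {v : V} (hv : v ∉ Q)
    (hvS : v ∈ S) : Ds f v ⊆ S := by
  intro u hu
  obtain ⟨k, hk⟩ := mem_Ds.1 hu
  induction k generalizing u with
  | zero =>
    have h1 : u = v := hk
    rw [h1]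
    exact hvS
  | succ k ih =>
    rw [Function.iterate_succ_apply] at hk
    have h1 : f u ∈ Ds f v := mem_Ds.2 ⟨k, hk⟩
    exact hS u (h.notMem hv hu) (h.notMem hv h1) (ih h1 hk)

lemma St_branch {S : Finset V} {z w : V} (h : Par G Q f rk) (hpl : ∀ v, v ∉ Q → Plain Q f v)
    (hzQ : z ∈ Q) (hwQ : w ∉ Q) (hzw : G.Adj z w) (hfw : f w = z)
    (hsub : Ds f w ⊆ S) (h1 : St I60 G (S \ Ds f w) z) : St I60 G S z := by
  have hzD : z ∉ Ds f w := fun h2 => h.notMem hwQ h2 hzQ
  have e1 : ZZ G (S.erase z) = ZZ G (Ds f w) * ZZ G ((S \ Ds f w).erase z) := by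
    rw [← ZZ_union]
    · congr 1
      ext u
      simp only [mem_erase, mem_union, mem_sdiff]
      constructor
      · rintro ⟨h2, h3⟩
        by_cases h4 : u ∈ Ds f w
        · exact Or.inl h4
        · exact Or.inr ⟨h2, h3, h4⟩
      · rintro (h2 | ⟨h2, h3, -⟩)
        · exact ⟨fun h3 => hzD (h3 ▸ h2), hsub h2⟩
        · exact ⟨h2, h3⟩
    · rw [disjoint_left]
      intro u hu h2
      exact (mem_sdiff.1 (mem_erase.1 h2).2).2 hu
    · intro u hu t ht hut
      rw [mem_erase, mem_sdiff] at ht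
      exact ht.1 ((h.out hwQ hu ht.2.2 hut).2.trans hfw)
  have e2 : ZZ G (del G z S) = ZZ G ((Ds f w).erase w) * ZZ G (del G z (S \ Ds f w)) := by
    rw [← ZZ_union]
    · congr 1
      ext u
      simp only [mem_erase, mem_union, mem_sdiff, mem_del]
      constructor
      · rintro ⟨h2, h3, h4⟩
        by_cases h5 : u ∈ Ds f w
        · exact Or.inl ⟨fun h6 => h4 (h6 ▸ hzw), h5⟩
        · exact Or.inr ⟨⟨h2, h5⟩, h3, h4⟩
      · rintro (⟨h2, h3⟩ | ⟨⟨h2, -⟩, h3, h4⟩)
        · exact ⟨hsub h3, fun h4 => hzD (h4 ▸ h3), fun h4 => h2 (h.out hwQ h3 hzD h4.symm).1⟩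
        · exact ⟨h2, h3, h4⟩
    · rw [disjoint_left]
      intro u hu h2
      exact (mem_sdiff.1 (mem_del.1 h2).1).2 (mem_erase.1 hu).2
    · intro u hu t ht hut
      rw [mem_del, mem_sdiff] at ht
      exact (mem_erase.1 hu).1 (h.out hwQ (mem_erase.1 hu).2 ht.1.2 hut).1
  unfold Pend.St at h1 ⊢
  rw [e1, e2, ex_mul, ey_mul, ex_mul, ey_mul]
  exact Inv.branch cone h1 (weak h hpl hwQ)

theorem key (hG : Degen G) (h : Par G Q f rk) (hpl : ∀ v, v ∉ Q → Plain Q f v)
    (hq : ∀ v ∈ Q, ∀ S : Finset V, ((nb G v S).filter (fun w => w ∈ Q)).card ≤ 2) :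
    ∀ (n : ℕ) (S : Finset V), S.card = n → Clo Q f S →
    Pos (ex (ZZ G S) * ey (ZZ G S)) ∧ ∀ z ∈ S, z ∈ Q → Adm G Q S z → St I60 G S z := by
  intro n
  induction n using Nat.strong_induction_on with
  | _ n ih =>
  intro S hn hC
  have main : ∀ z ∈ S, z ∈ Q → Adm G Q S z → St I60 G S z := by
    intro z hz hzQ hA
    by_cases hout : ∃ w ∈ nb G z S, w ∉ Q
    · obtain ⟨w, hw, hwQ⟩ := hout
      rw [mem_nb] at hw
      have hfw : f w = z := by
        rcases h.edge w z hwQ hw.2.symm with h1 | ⟨h1, -⟩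
        · exact h1.symm
        · exact absurd hzQ h1
      have hsub : Ds f w ⊆ S := hC.sub h hwQ hw.1
      have hzD : z ∉ Ds f w := fun h2 => h.notMem hwQ h2 hzQ
      have hlt : (S \ Ds f w).card < n := by
        rw [← hn]
        apply card_lt_card
        refine ⟨sdiff_subset, fun h1 => ?_⟩
        exact (mem_sdiff.1 (h1 hw.1)).2 (self_mem w)
      have hC' : Clo Q f (S \ Ds f w) := by
        intro c h1 h2 h3
        rw [mem_sdiff] at h3 ⊢
        refine ⟨hC c h1 h2 h3.1, fun h4 => ?_⟩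
        by_cases h5 : c = w
        · rw [h5, hfw] at h2
          exact h2 hzQ
        · exact h3.2 (down h4 h5)
      have h1 : St I60 G (S \ Ds f w) z := (ih _ hlt _ rfl hC').2 z (mem_sdiff.2 ⟨hz, hzD⟩) hzQ
        (hA.mono sdiff_subset)
      exact St_branch h hpl hzQ hwQ hw.2 hfw hsub h1
    · push Not at hout
      have hlt : (S.erase z).card < n := by rw [← hn]; exact card_erase_lt_of_mem hz
      have hC' : Clo Q f (S.erase z) := by
        intro c h1 h2 h3
        rw [mem_erase] at h3 ⊢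
        exact ⟨fun h4 => h1 (h4 ▸ hzQ), hC c h1 h2 h3.2⟩
      have hcard : (nb G z S).card ≤ 1 := by
        refine le_trans (card_le_card ?_) hA
        intro w hw
        rw [mem_filter]
        exact ⟨hw, hout w hw⟩
      rcases (nb G z S).eq_empty_or_nonempty with h0 | ⟨w, hw⟩
      · have e : del G z S = S.erase z := by
          ext u
          simp only [mem_del, mem_erase]
          constructor
          · rintro ⟨h1, h2, -⟩
            exact ⟨h2, h1⟩
          · rintro ⟨h1, h2⟩
            refine ⟨h2, h1, fun h => ?_⟩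
            have : u ∈ nb G z S := mem_nb.2 ⟨h2, h⟩
            rw [h0] at this
            exact absurd this (notMem_empty u)
        have h1 := (ih _ hlt _ rfl hC').1
        have h2 := moves.spine _ _ _ _ (moves.ofPos _ _ h1)
        unfold Pend.St
        rw [e]
        simpa using h2
      · have hw' := mem_nb.1 hw
        have hwz : w ≠ z := fun h => G.irrefl (h ▸ hw'.2)
        have hwQ : w ∈ Q := hout w hw
        have huniq : ∀ u ∈ S, G.Adj z u → u = w := by
          intro u hu hzu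
          exact card_le_one.1 hcard u (mem_nb.2 ⟨hu, hzu⟩) w hw
        have hwS : w ∈ S.erase z := mem_erase.2 ⟨hwz, hw'.1⟩
        have hadm : Adm G Q (S.erase z) w := by
          have h1 := hq w hwQ S
          have h2 : z ∈ (nb G w S).filter (fun w => w ∈ Q) := by
            rw [mem_filter, mem_nb]
            exact ⟨⟨hz, hw'.2.symm⟩, hzQ⟩
          have h3 : (nb G w (S.erase z)).filter (fun w => w ∈ Q) ⊆
              ((nb G w S).filter (fun w => w ∈ Q)).erase z := by
            intro t ht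
            rw [mem_filter, mem_nb, mem_erase] at ht
            rw [mem_erase, mem_filter, mem_nb]
            exact ⟨ht.1.1.1, ⟨ht.1.1.2, ht.1.2⟩, ht.2⟩
          have h4 := card_le_card h3
          rw [card_erase_of_mem h2] at h4
          unfold Pend.Adm
          omega
        have h1 : St I60 G (S.erase z) w := (ih _ hlt _ rfl hC').2 w hwS hwQ hadm
        have e : del G z S = (S.erase z).erase w := by
          ext u
          simp only [mem_del, mem_erase]
          constructor
          · rintro ⟨h1, h2, h3⟩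
            exact ⟨fun h => h3 (h ▸ hw'.2), h2, h1⟩
          · rintro ⟨h1, h2, h3⟩
            exact ⟨h3, h2, fun h => h1 (huniq u h3 h)⟩
        have h2 := moves.spine _ _ _ _ h1
        unfold Pend.St
        rw [e]
        have e3 : ZZ G (S.erase z) = ZZ G ((S.erase z).erase w) +
            Polynomial.X * ZZ G (del G w (S.erase z)) := ZZ_rec G hwS
        have e4 : ex (ZZ G (S.erase z)) = ex (ZZ G ((S.erase z).erase w)) +
            x * ex (ZZ G (del G w (S.erase z))) := by
          conv_lhs => rw [e3]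
          rw [ex_add, ex_mul, ex_X]
        have e5 : ey (ZZ G (S.erase z)) = ey (ZZ G ((S.erase z).erase w)) +
            y * ey (ZZ G (del G w (S.erase z))) := by
          conv_lhs => rw [e3]
          rw [ey_add, ey_mul, ey_X]
        rw [e4, e5]
        exact h2
  refine ⟨?_, main⟩
  rcases (S.filter (fun w => w ∈ Q)).eq_empty_or_nonempty with h0 | h0
  · have hno : ∀ t ∈ S, t ∉ Q := by
      intro t ht htQ
      have : t ∈ S.filter (fun w => w ∈ Q) := mem_filter.2 ⟨ht, htQ⟩
      rw [h0] at this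
      exact absurd this (notMem_empty t)
    rcases S.eq_empty_or_nonempty with rfl | hne
    · rw [ZZ_empty, ex_one, ey_one, mul_one]
      exact Pos.one
    · obtain ⟨v, hv, hmin⟩ := exists_min_image S rk hne
      have hvQ := hno v hv
      have hfv : f v ∉ S := by
        intro h1
        have h2 := hmin _ h1
        have h3 := h.lt v hvQ
        omega
      have hsub : Ds f v ⊆ S := hC.sub h hvQ hv
      have hlt : (S \ Ds f v).card < n := by
        rw [← hn]
        apply card_lt_card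
        refine ⟨sdiff_subset, fun h1 => ?_⟩
        exact (mem_sdiff.1 (h1 hv)).2 (self_mem v)
      have hC' : Clo Q f (S \ Ds f v) := by
        intro c h1 h2 h3
        rw [mem_sdiff] at h3 ⊢
        refine ⟨hC c h1 h2 h3.1, fun h4 => ?_⟩
        by_cases h5 : c = v
        · rw [h5] at h3
          exact hfv h3.1
        · exact h3.2 (down h4 h5)
      have h1 := (ih _ hlt _ rfl hC').1
      have e1 : ZZ G S = ZZ G (Ds f v) * ZZ G (S \ Ds f v) := by
        rw [← ZZ_union]
        · congr 1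
          exact (union_sdiff_of_subset hsub).symm
        · exact disjoint_sdiff
        · intro u hu t ht hut
          rw [mem_sdiff] at ht
          exact hfv ((h.out hvQ hu ht.2 hut).2 ▸ ht.1)
      have h2 := mul_of_mem (weak h hpl hvQ).tot _ h1
      have e2 : ex (ZZ G S) * ey (ZZ G S) = ex (ZZ G (Ds f v)) * ey (ZZ G (Ds f v)) *
          (ex (ZZ G (S \ Ds f v)) * ey (ZZ G (S \ Ds f v))) := by
        rw [e1, ex_mul, ey_mul]
        ring
      rw [e2]
      exact h2
  · obtain ⟨z, hz, hz1⟩ := hG _ h0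
    rw [mem_filter] at hz
    refine (main z hz.1 hz.2 ?_).tot moves hz.1
    refine le_trans (card_le_card ?_) hz1
    intro t ht
    rw [mem_filter, mem_nb] at ht
    rw [mem_nb, mem_filter]
    exact ⟨⟨ht.1.1, ht.2⟩, ht.1.2⟩

/-- the final statement with a parent function -/
theorem main (hG : G.IsAcyclic) (h : Par G Q f rk) (hpl : ∀ v, v ∉ Q → Plain Q f v)
    (hq : ∀ v ∈ Q, {w | w ∈ Q ∧ G.Adj v w}.ncard ≤ 2) :
    (∀ k, indepSeq G k * indepSeq G (k + 2) ≤ indepSeq G (k + 1) ^ 2) ∧
      UnimodalSeq (indepSeq G) := by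
  have hq' : ∀ v ∈ Q, ∀ S : Finset V, ((nb G v S).filter (fun w => w ∈ Q)).card ≤ 2 := by
    intro v hv S
    refine le_trans ?_ (hq v hv)
    rw [← Set.ncard_coe_finset]
    apply Set.ncard_le_ncard _ (Set.toFinite _)
    intro w hw
    rw [mem_coe, mem_filter, mem_nb] at hw
    exact ⟨hw.2, hw.1.2⟩
  have hD := degen_of_acyclic hG
  have hC : Clo Q f (Finset.univ : Finset V) := fun c _ _ _ => mem_univ c
  have h1 : ∀ k, indepSeq G k * indepSeq G (k + 2) ≤ indepSeq G (k + 1) ^ 2 := by
    intro k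
    rw [indepSeq_eq_cnt, indepSeq_eq_cnt, indepSeq_eq_cnt]
    have h2 := (key hD h hpl hq' _ Finset.univ rfl hC).1
    have h3 := h2 ((k + 1 : ℕ) : ℤ) ((k + 1 : ℕ) : ℤ) ((k + 2 : ℕ) : ℤ) ((k : ℕ) : ℤ)
      (by push_cast; ring) (by rw [min_eq_right (by push_cast; omega)]; push_cast; omega)
      (by rw [max_eq_left (by push_cast; omega)]; push_cast; omega)
    rw [cf_ex_ey, cf_ex_ey, coeff_ZZ, coeff_ZZ, coeff_ZZ] at h3
    have h4 : ((cnt G Finset.univ (k + 2) * cnt G Finset.univ k : ℕ) : ℤ) ≤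
        ((cnt G Finset.univ (k + 1) * cnt G Finset.univ (k + 1) : ℕ) : ℤ) := by
      push_cast
      exact h3
    have h5 := Int.ofNat_le.1 h4
    nlinarith [h5]
  refine ⟨h1, unimodal_of_lc (N := alpha G Finset.univ) ?_ ?_ h1⟩
  · intro k hk
    rw [indepSeq_eq_cnt]
    exact cnt_pos hk
  · intro k hk
    rw [indepSeq_eq_cnt]
    exact cnt_eq_zero_of_alpha hk

end Pool.Agent.Lib.MP_24a1b5_co.Br
end

section

/-!
# Paths with pendant paths of length one and two: the formulation with walks
-/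

set_option autoImplicit false
open scoped Classical
open N36365310

namespace Pool.Agent.Lib.MP_24a1b5_co.Pend

open Finset Pool.Agent.Lib.MP_24a1b5_co.Cat

variable {V : Type*} {G : SimpleGraph V}

/-- in an acyclic graph two neighbours of `v` which are joined by a walk avoiding `v` are equal -/
lemma eq_of_walk (hG : G.IsAcyclic) {v w u : V} (hw : G.Adj v w) (hu : G.Adj v u)
    (r : G.Walk w u) (hr : v ∉ r.support) : w = u := by
  by_contra hne
  have h1 : r.bypass.IsPath := r.bypass_isPath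
  have h2 : v ∉ r.bypass.support := fun h => hr (r.support_bypass_subset h)
  have h3 : (SimpleGraph.Walk.cons hw.symm (SimpleGraph.Walk.cons hu SimpleGraph.Walk.nil)).IsPath := by
    rw [SimpleGraph.Walk.cons_isPath_iff, SimpleGraph.Walk.cons_isPath_iff]
    refine ⟨⟨SimpleGraph.Walk.IsPath.nil, ?_⟩, ?_⟩
    · simp only [SimpleGraph.Walk.support_nil, List.mem_singleton]
      exact G.ne_of_adj hu
    · simp only [SimpleGraph.Walk.support_cons, SimpleGraph.Walk.support_nil, List.mem_cons,
        List.not_mem_nil, or_false, not_or]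
      exact ⟨(G.ne_of_adj hw).symm, hne⟩
  have h4 := hG.path_unique ⟨r.bypass, h1⟩ ⟨_, h3⟩
  have h5 : r.bypass = SimpleGraph.Walk.cons hw.symm (SimpleGraph.Walk.cons hu SimpleGraph.Walk.nil) :=
    congrArg Subtype.val h4
  apply h2
  rw [h5]
  simp

/-- `w` is joined to the walk `p` by a walk avoiding `v` -/
def Side {a b : V} (p : G.Walk a b) (v w : V) : Prop :=
  ∃ q ∈ p.support, ∃ r : G.Walk w q, v ∉ r.support

lemma eq_of_side (hG : G.IsAcyclic) {a b : V} {p : G.Walk a b} {v w u : V}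
    (hv : v ∉ p.support) (hw : G.Adj v w) (hu : G.Adj v u) (h1 : Side p v w) (h2 : Side p v u) :
    w = u := by
  obtain ⟨q, hq, r, hr⟩ := h1
  obtain ⟨q', hq', r', hr'⟩ := h2
  apply eq_of_walk hG hw hu
    (r.append (((p.takeUntil q hq).reverse.append (p.takeUntil q' hq')).append r'.reverse))
  intro h
  rw [SimpleGraph.Walk.mem_support_append_iff, SimpleGraph.Walk.mem_support_append_iff,
    SimpleGraph.Walk.mem_support_append_iff, SimpleGraph.Walk.support_reverse,
    SimpleGraph.Walk.support_reverse, List.mem_reverse, List.mem_reverse] at h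
  rcases h with h | (h | h) | h
  · exact hr h
  · exact hv (p.support_takeUntil_subset hq h)
  · exact hv (p.support_takeUntil_subset hq' h)
  · exact hr' h

/-- on a path in an acyclic graph each vertex has at most two neighbours, the first one at most
one -/
lemma path_nbrs (hG : G.IsAcyclic) {a b : V} (p : G.Walk a b) (hp : p.IsPath) :
    {w | w ∈ p.support ∧ G.Adj a w}.ncard ≤ 1 ∧
      ∀ v ∈ p.support, {w | w ∈ p.support ∧ G.Adj v w}.ncard ≤ 2 := by
  induction p with
  | nil =>
    have e : ∀ v w : V, (w ∈ (SimpleGraph.Walk.nil : G.Walk v v).support ∧ G.Adj v w) → False := by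
      rintro v w ⟨h1, h2⟩
      rw [SimpleGraph.Walk.support_nil, List.mem_singleton] at h1
      exact G.irrefl (h1 ▸ h2)
    rename_i a
    have e1 : {w | w ∈ (SimpleGraph.Walk.nil : G.Walk a a).support ∧ G.Adj a w} = ∅ := by
      rw [Set.eq_empty_iff_forall_notMem]
      intro w hw
      exact e a w hw
    refine ⟨by rw [e1]; simp, fun v hv => ?_⟩
    rw [SimpleGraph.Walk.support_nil, List.mem_singleton] at hv
    subst hv
    rw [e1]; simp
  | @cons a c b h q ih =>
    rw [SimpleGraph.Walk.cons_isPath_iff] at hp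
    obtain ⟨ih1, ih2⟩ := ih hp.1
    have huniq : ∀ w ∈ q.support, G.Adj a w → w = c := by
      intro w hw haw
      refine (eq_of_walk hG h haw (q.takeUntil w hw) ?_).symm
      intro h1
      exact hp.2 (q.support_takeUntil_subset hw h1)
    have e1 : {w | w ∈ (SimpleGraph.Walk.cons h q).support ∧ G.Adj a w} ⊆ {c} := by
      rintro w ⟨hw, haw⟩
      rw [SimpleGraph.Walk.support_cons, List.mem_cons] at hw
      rcases hw with rfl | hw
      · exact absurd haw G.irrefl
      · exact huniq w hw haw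
    refine ⟨?_, ?_⟩
    · refine (Set.ncard_le_ncard e1 (Set.finite_singleton c)).trans ?_
      simp
    · intro v hv
      rw [SimpleGraph.Walk.support_cons, List.mem_cons] at hv
      rcases hv with rfl | hv
      · refine (Set.ncard_le_ncard e1 (Set.finite_singleton c)).trans ?_
        simp
      · have hfin : {w | w ∈ q.support ∧ G.Adj v w}.Finite :=
          (List.finite_toSet q.support).subset (fun w hw => hw.1)
        by_cases hvc : v = c
        · subst hvc
          have e2 : {w | w ∈ (SimpleGraph.Walk.cons h q).support ∧ G.Adj v w} ⊆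
              insert a {w | w ∈ q.support ∧ G.Adj v w} := by
            rintro w ⟨hw, hvw⟩
            rw [SimpleGraph.Walk.support_cons, List.mem_cons] at hw
            rcases hw with rfl | hw
            · exact Set.mem_insert _ _
            · exact Set.mem_insert_of_mem _ ⟨hw, hvw⟩
          refine (Set.ncard_le_ncard e2 (hfin.insert a)).trans ?_
          refine (Set.ncard_insert_le _ _).trans ?_
          omega
        · have e2 : {w | w ∈ (SimpleGraph.Walk.cons h q).support ∧ G.Adj v w} ⊆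
              {w | w ∈ q.support ∧ G.Adj v w} := by
            rintro w ⟨hw, hvw⟩
            rw [SimpleGraph.Walk.support_cons, List.mem_cons] at hw
            rcases hw with rfl | hw
            · exact absurd (huniq v hv hvw.symm) hvc
            · exact ⟨hw, hvw⟩
          exact (Set.ncard_le_ncard e2 hfin).trans (ih2 v hv)

/-- the conditions of the final statement for one path -/
structure Good (p : Σ a b : V, G.Walk a b) (z : V) : Prop where
  path : p.2.2.IsPath
  reach : G.Reachable z p.1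
  off : ∀ v, G.Reachable z v → v ∉ p.2.2.support →
    (G.neighborSet v).ncard ≤ 2 ∧ ∃ w ∈ p.2.2.support, G.dist v w ≤ 2

/-- a walk of length at most two -/
lemma exists_short {v w : V} (h : G.Reachable v w) (hd : G.dist v w ≤ 2) :
    v = w ∨ G.Adj v w ∨ ∃ c, G.Adj v c ∧ G.Adj c w := by
  obtain ⟨r, hr⟩ := h.exists_walk_length_eq_dist
  rw [← hr] at hd
  cases r with
  | nil => exact Or.inl rfl
  | cons h1 r1 =>
    cases r1 with
    | nil => exact Or.inr (Or.inl h1)
    | cons h2 r2 =>
      cases r2 with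
      | nil => exact Or.inr (Or.inr ⟨_, h1, h2⟩)
      | cons h3 r3 => simp at hd

lemma Good.side {p : Σ a b : V, G.Walk a b} {z : V} (hp : Good p z) {v w : V}
    (hz : G.Reachable z v) (hno : ∀ q ∈ p.2.2.support, ¬ G.Adj v q) (hv : v ∉ p.2.2.support)
    (hw : G.Adj v w) : Side p.2.2 v w := by
  have hwz : G.Reachable z w := hz.trans hw.reachable
  have hwp : w ∉ p.2.2.support := fun h => hno w h hw
  obtain ⟨-, q, hq, hd⟩ := hp.off w hwz hwp
  have hreach : G.Reachable w q := by
    have h1 : G.Reachable p.1 q := (p.2.2.takeUntil q hq).reachable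
    exact hwz.symm.trans (hp.reach.trans h1)
  have hvq : v ≠ q := fun h => hv (h ▸ hq)
  rcases exists_short hreach hd with h | h | ⟨c, h1, h2⟩
  · exact absurd (h ▸ hq) hwp
  · refine ⟨q, hq, SimpleGraph.Walk.cons h SimpleGraph.Walk.nil, ?_⟩
    simp only [SimpleGraph.Walk.support_cons, SimpleGraph.Walk.support_nil, List.mem_cons,
      List.not_mem_nil, or_false, not_or]
    exact ⟨G.ne_of_adj hw, hvq⟩
  · refine ⟨q, hq, SimpleGraph.Walk.cons h1 (SimpleGraph.Walk.cons h2 SimpleGraph.Walk.nil), ?_⟩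
    simp only [SimpleGraph.Walk.support_cons, SimpleGraph.Walk.support_nil, List.mem_cons,
      List.not_mem_nil, or_false, not_or]
    refine ⟨G.ne_of_adj hw, fun h => ?_, hvq⟩
    exact hno q hq (h ▸ h2)

/-- the final statement with walks, for every family of invariants -/
theorem main' [Fintype V] {I : A → A → A → A → Prop} (hI : Moves I) (G : SimpleGraph V)
    (hG : G.IsAcyclic)
    (h : ∀ z : V, ∃ (a b : V) (p : G.Walk a b), p.IsPath ∧ G.Reachable z a ∧
      ∀ v, G.Reachable z v → v ∉ p.support →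
        (G.neighborSet v).ncard ≤ 2 ∧ ∃ w ∈ p.support, G.dist v w ≤ 2) :
    (∀ k, indepSeq G k * indepSeq G (k + 2) ≤ indepSeq G (k + 1) ^ 2) ∧
      UnimodalSeq (indepSeq G) := by
  have h' : ∀ z : V, ∃ p : Σ a b : V, G.Walk a b, Good p z := by
    intro z
    obtain ⟨a, b, p, h1, h2, h3⟩ := h z
    exact ⟨⟨a, b, p⟩, h1, h2, h3⟩
  choose P hP using h'
  let r : V → V := fun v => (G.connectedComponentMk v).out
  have hr : ∀ v, G.Reachable (r v) v := by
    intro v
    have : G.connectedComponentMk (r v) = G.connectedComponentMk v := Quot.out_eq _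
    exact SimpleGraph.ConnectedComponent.exact this
  have hadj : ∀ v w, G.Adj v w → r v = r w := by
    intro v w hvw
    have : G.connectedComponentMk v = G.connectedComponentMk w :=
      SimpleGraph.ConnectedComponent.sound hvw.reachable
    simp only [r, this]
  let Q : Set V := {v | v ∈ (P (r v)).2.2.support}
  have hQ : ∀ v w, G.Adj v w → (w ∈ Q ↔ w ∈ (P (r v)).2.2.support) := by
    intro v w hvw
    rw [hadj v w hvw]
    rfl
  apply main hI G hG Q
  · intro v hv
    refine le_trans ?_ ((path_nbrs hG (P (r v)).2.2 (hP (r v)).path).2 v hv)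
    apply Set.ncard_le_ncard _ (Set.toFinite _)
    rintro w ⟨hw, hvw⟩
    exact ⟨(hQ v w hvw).1 hw, hvw⟩
  · intro v hv
    rw [Set.ncard_le_one (Set.toFinite _)]
    rintro w ⟨hw, hvw⟩ u ⟨hu, hvu⟩
    by_contra hne
    have hwp : w ∉ (P (r v)).2.2.support := fun h => hw ((hQ v w hvw).2 h)
    have hup : u ∉ (P (r v)).2.2.support := fun h => hu ((hQ v u hvu).2 h)
    have hdeg := ((hP (r v)).off v (hr v) hv).1
    have hno : ∀ q ∈ (P (r v)).2.2.support, ¬ G.Adj v q := by
      intro q hq hvq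
      have h1 : ({q, w, u} : Set V) ⊆ G.neighborSet v := by
        intro t ht
        rw [Set.mem_insert_iff, Set.mem_insert_iff, Set.mem_singleton_iff] at ht
        rcases ht with rfl | rfl | rfl
        · exact hvq
        · exact hvw
        · exact hvu
      have h2 := Set.ncard_le_ncard h1 (Set.toFinite _)
      have h3 : ({q, w, u} : Set V).ncard = 3 := by
        apply Set.ncard_eq_three.2
        exact ⟨q, w, u, fun h => hwp (h ▸ hq), fun h => hup (h ▸ hq), hne, rfl⟩
      omega
    exact hne (eq_of_side hG hv hvw hvu ((hP (r v)).side (hr v) hno hv hvw)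
      ((hP (r v)).side (hr v) hno hv hvu))
  · intro v hv w hw a ha b hb hvw hva hwb
    have ha' : a ∈ (P (r v)).2.2.support := (hQ v a hva).1 ha
    have hsa : Side (P (r v)).2.2 v a := by
      refine ⟨a, ha', SimpleGraph.Walk.nil, ?_⟩
      rw [SimpleGraph.Walk.support_nil, List.mem_singleton]
      exact G.ne_of_adj hva
    rcases hvw with rfl | hvw
    · refine ⟨rfl, ?_⟩
      have hb' : b ∈ (P (r v)).2.2.support := (hQ v b hwb).1 hb
      refine eq_of_side hG hv hva hwb hsa ⟨b, hb', SimpleGraph.Walk.nil, ?_⟩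
      rw [SimpleGraph.Walk.support_nil, List.mem_singleton]
      exact G.ne_of_adj hwb
    · exfalso
      have hb' : b ∈ (P (r v)).2.2.support := by
        rw [hadj v w hvw]
        exact (hQ w b hwb).1 hb
      have hvb : v ≠ b := fun h => hv (h ▸ hb)
      have h1 : a = w := by
        refine eq_of_side hG hv hva hvw hsa ⟨b, hb',
          SimpleGraph.Walk.cons hwb SimpleGraph.Walk.nil, ?_⟩
        simp only [SimpleGraph.Walk.support_cons, SimpleGraph.Walk.support_nil, List.mem_cons,
          List.not_mem_nil, or_false, not_or]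
        exact ⟨G.ne_of_adj hvw, hvb⟩
      exact hw (h1 ▸ ha)

end Pool.Agent.Lib.MP_24a1b5_co.Pend
end
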