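import Pool.Agent.Lib.MP_24a1b5_co.Forest

section

set_option autoImplicit false

namespace Pool.Agent.Lib.MP_24a1b5_co

namespace F

variable {V : Type*}

/-- sum over the trees of the forest of a function of the child forest -/
noncomputable def rs (g : F V → ℝ) : F V → ℝ
  | nil => 0
  | cons _ c r => g c + rs g r

/-- sum over all vertices of a function of the child forest -/
noncomputable def ts (g : F V → ℝ) : F V → ℝ
  | nil => 0
  | cons _ c r => g c + ts g c + ts g r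

lemma rs_nonneg {g : F V → ℝ} (hg : ∀ c, 0 ≤ g c) : ∀ f : F V, 0 ≤ rs g f
  | nil => le_rfl
  | cons _ c r => by rw [rs]; exact add_nonneg (hg c) (rs_nonneg hg r)

lemma ts_nonneg {g : F V → ℝ} (hg : ∀ c, 0 ≤ g c) : ∀ f : F V, 0 ≤ ts g f
  | nil => le_rfl
  | cons _ c r => by
      rw [ts]; exact add_nonneg (add_nonneg (hg c) (ts_nonneg hg c)) (ts_nonneg hg r)

lemma rs_mono {g h : F V → ℝ} (H : ∀ c, g c ≤ h c) : ∀ f : F V, rs g f ≤ rs h f
  | nil => le_rfl
  | cons _ c r => by rw [rs, rs]; exact add_le_add (H c) (rs_mono H r)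

lemma ts_mono {g h : F V → ℝ} (H : ∀ c, g c ≤ h c) : ∀ f : F V, ts g f ≤ ts h f
  | nil => le_rfl
  | cons _ c r => by
      rw [ts, ts]; exact add_le_add (add_le_add (H c) (ts_mono H c)) (ts_mono H r)

lemma rs_add (g h : F V → ℝ) : ∀ f : F V, rs (fun c => g c + h c) f = rs g f + rs h f
  | nil => by simp [rs]
  | cons _ c r => by rw [rs, rs, rs, rs_add g h r]; ring

lemma ts_add (g h : F V → ℝ) : ∀ f : F V, ts (fun c => g c + h c) f = ts g f + ts h f
  | nil => by simp [ts]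
  | cons _ c r => by rw [ts, ts, ts, ts_add g h r, ts_add g h c]; ring

lemma rs_mul (a : ℝ) (g : F V → ℝ) : ∀ f : F V, rs (fun c => a * g c) f = a * rs g f
  | nil => by simp [rs]
  | cons _ c r => by rw [rs, rs, rs_mul a g r]; ring

lemma ts_mul (a : ℝ) (g : F V → ℝ) : ∀ f : F V, ts (fun c => a * g c) f = a * ts g f
  | nil => by simp [ts]
  | cons _ c r => by rw [ts, ts, ts_mul a g r, ts_mul a g c]; ring

lemma abs_rs_le (g : F V → ℝ) : ∀ f : F V, |rs g f| ≤ rs (fun c => |g c|) f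
  | nil => by simp [rs]
  | cons _ c r => by
      rw [rs, rs]
      exact (abs_add_le _ _).trans (add_le_add le_rfl (abs_rs_le g r))

lemma ts_one_le : ∀ f : F V, ts (fun _ => (1 : ℝ)) f = sz f
  | nil => by simp [ts, sz]
  | cons _ c r => by rw [ts, sz, ts_one_le c, ts_one_le r]; push_cast; ring

/-- the total of `rs g` over all child forests is the total of `g` without the roots -/
lemma ts_rs (g : F V → ℝ) : ∀ f : F V, ts (fun c => rs g c) f = ts g f - rs g f
  | nil => by simp [ts, rs]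
  | cons _ c r => by rw [ts, ts, rs, ts_rs g c, ts_rs g r]; ring

lemma contraction {g b : F V → ℝ} {θ : ℝ} (hθ0 : 0 ≤ θ) (hg : ∀ c, 0 ≤ g c)
    (H : ∀ c, g c ≤ θ * rs g c + b c) (f : F V) : ts g f ≤ θ * ts g f + ts b f := by
  have h1 : ts g f ≤ ts (fun c => θ * rs g c + b c) f := ts_mono H f
  rw [ts_add, ts_mul, ts_rs] at h1
  have := mul_nonneg hθ0 (rs_nonneg hg f)
  linarith

lemma jensen2 {s a b x y : ℝ} (hs : 1 ≤ s) (ha : 0 ≤ a) (hb : 0 < b) (hx : 0 ≤ x) (hy : 0 ≤ y) :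
    (a * x + b * y) ^ s ≤ (a + b) ^ (s - 1) * (a * x ^ s + b * y ^ s) := by
  have hab : 0 < a + b := by linarith
  have h := (convexOn_rpow hs).2 (Set.mem_Ici.2 hx) (Set.mem_Ici.2 hy)
    (show 0 ≤ a / (a + b) by positivity) (show 0 ≤ b / (a + b) by positivity)
    (show a / (a + b) + b / (a + b) = 1 by field_simp)
  simp only [smul_eq_mul] at h
  have e1 : a * x + b * y = (a + b) * (a / (a + b) * x + b / (a + b) * y) := by
    field_simp
  rw [e1, Real.mul_rpow hab.le (by positivity)]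
  have e2 : (a + b) ^ s = (a + b) ^ (s - 1) * (a + b) := by
    rw [← Real.rpow_add_one hab.ne']; congr 1; ring
  rw [e2, mul_assoc]
  apply mul_le_mul_of_nonneg_left _ (Real.rpow_nonneg hab.le _)
  calc (a + b) * (a / (a + b) * x + b / (a + b) * y) ^ s
      ≤ (a + b) * (a / (a + b) * x ^ s + b / (a + b) * y ^ s) :=
        mul_le_mul_of_nonneg_left h hab.le
    _ = _ := by field_simp

lemma rs_pos {e : F V → ℝ} (he : ∀ c, 0 < e c) : ∀ f : F V, f ≠ nil → 0 < rs e f
  | nil, h => absurd rfl h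
  | cons _ c r, _ => by
      rw [rs]; exact add_pos_of_pos_of_nonneg (he c) (rs_nonneg (fun c => (he c).le) r)

lemma jensen {e x : F V → ℝ} (he : ∀ c, 0 < e c) (hx : ∀ c, 0 ≤ x c) {s : ℝ} (hs : 1 < s) :
    ∀ f : F V, (rs (fun c => e c * x c) f) ^ s ≤
      (rs e f) ^ (s - 1) * rs (fun c => e c * x c ^ s) f
  | nil => by
      simp only [rs]
      rw [Real.zero_rpow (by linarith), mul_zero]
  | cons v c nil => by
      simp only [rs, add_zero]
      have h1 : (e c) ^ s = (e c) ^ (s - 1) * e c := by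
        rw [← Real.rpow_add_one (he c).ne']; congr 1; ring
      rw [Real.mul_rpow (he c).le (hx c), h1, mul_assoc]
  | cons v c (cons v' c' r') => by
      have ih := jensen he hx hs (cons v' c' r')
      have hS := rs_pos he (cons v' c' r') (by simp)
      rw [rs, rs, rs]
      set S := rs e (cons v' c' r')
      set A := rs (fun c => e c * x c) (cons v' c' r') with hA
      set B := rs (fun c => e c * x c ^ s) (cons v' c' r')
      have hA0 : 0 ≤ A := rs_nonneg (fun c => mul_nonneg (he c).le (hx c)) _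
      have h2 := jensen2 hs.le (he c).le hS (hx c) (y := A / S) (by positivity)
      have e1 : S * (A / S) = A := by field_simp
      rw [e1] at h2
      refine h2.trans ?_
      apply mul_le_mul_of_nonneg_left _ (Real.rpow_nonneg (by have := he c; linarith) _)
      apply add_le_add le_rfl
      have h3 : S ^ s = S ^ (s - 1) * S := by
        rw [← Real.rpow_add_one hS.ne']; congr 1; ring
      rw [Real.div_rpow hA0 hS.le, h3, ← mul_div_assoc,
        div_le_iff₀ (mul_pos (Real.rpow_pos_of_pos hS _) hS)]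
      calc S * A ^ s ≤ S * (S ^ (s - 1) * B) := mul_le_mul_of_nonneg_left ih hS.le
        _ = B * (S ^ (s - 1) * S) := by ring

variable (l : ℝ)

/-- probability that all roots are unoccupied -/
noncomputable def Lo : F V → ℝ
  | nil => 1
  | cons _ c r => (1 / (1 + l * Lo c)) * Lo r

/-- probability that the root above the child forest `c` is occupied -/
noncomputable def eps (c : F V) : ℝ := l * Lo l c / (1 + l * Lo l c)

/-- sum over roots of `eps * D` -/
noncomputable def SD : F V → ℝ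
  | nil => 0
  | cons _ c r => eps l c * (1 - SD c) + SD r

/-- difference of conditional means, root in minus root out -/
noncomputable def Dd (c : F V) : ℝ := 1 - SD l c

/-- sum over roots of `eps * B + eps (1 - eps) D ^ 2` -/
noncomputable def SB : F V → ℝ
  | nil => 0
  | cons _ c r => eps l c * (-SB c) + eps l c * (1 - eps l c) * (Dd l c) ^ 2 + SB r

/-- difference of conditional variances -/
noncomputable def Bb (c : F V) : ℝ := - SB l c

/-- mean -/
noncomputable def Mn (f : F V) : ℝ := ts (fun c => eps l c * Dd l c) f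

/-- variance -/
noncomputable def Vr (f : F V) : ℝ :=
  ts (fun c => eps l c * Bb l c + eps l c * (1 - eps l c) * (Dd l c) ^ 2) f

variable {l}

lemma Lo_pos (hl : 0 < l) : ∀ f : F V, 0 < Lo l f
  | nil => one_pos
  | cons _ c r => by
      have h1 := Lo_pos hl c
      have h2 := Lo_pos hl r
      rw [Lo]; positivity

lemma eps_pos (hl : 0 < l) (c : F V) : 0 < eps l c := by
  have := Lo_pos hl c
  rw [eps]; positivity

lemma eps_lt_one (hl : 0 < l) (c : F V) : eps l c < 1 := by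
  have := Lo_pos hl c
  rw [eps, div_lt_one (by positivity)]
  linarith

lemma one_sub_eps (hl : 0 < l) (c : F V) : 1 / (1 + l * Lo l c) = 1 - eps l c := by
  have := Lo_pos hl c
  rw [eps, eq_sub_iff_add_eq, ← add_div, div_self (by positivity)]

lemma Lo_le_exp (hl : 0 < l) : ∀ f : F V, Lo l f ≤ Real.exp (-(rs (eps l) f))
  | nil => by simp [Lo, rs]
  | cons _ c r => by
      have h2 := Lo_le_exp hl r
      rw [Lo, rs, one_sub_eps hl, neg_add, Real.exp_add]
      have h3 := Real.add_one_le_exp (-(eps l c))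
      have h4 := eps_lt_one hl c
      exact mul_le_mul (by linarith) h2 (Lo_pos hl r).le (Real.exp_pos _).le

lemma eps_mul_le (hl : 0 < l) (hl2 : l ≤ 9 / 2) (c : F V) :
    eps l c * (1 + 2 / 9 * Real.exp (rs (eps l) c)) ≤ 1 := by
  have h1 := Lo_pos hl c
  have h2 := Lo_le_exp hl c
  rw [eps, div_mul_eq_mul_div, div_le_one (by positivity)]
  have h3 : Lo l c * Real.exp (rs (eps l) c) ≤ 1 := by
    calc Lo l c * Real.exp (rs (eps l) c)
        ≤ Real.exp (-(rs (eps l) c)) * Real.exp (rs (eps l) c) :=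
          mul_le_mul_of_nonneg_right h2 (Real.exp_pos _).le
      _ = 1 := by rw [← Real.exp_add]; simp
  have h4 : 0 < Lo l c * Real.exp (rs (eps l) c) := by positivity
  nlinarith

lemma SD_eq : ∀ f : F V, SD l f = rs (fun c => eps l c * Dd l c) f
  | nil => rfl
  | cons _ c r => by rw [SD, rs, SD_eq r, Dd]

lemma SB_eq : ∀ f : F V, SB l f =
    rs (fun c => eps l c * Bb l c + eps l c * (1 - eps l c) * (Dd l c) ^ 2) f
  | nil => rfl
  | cons _ c r => by rw [SB, rs, SB_eq r, Bb]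

lemma abs_Dd_le (hl : 0 < l) (c : F V) :
    |Dd l c| ≤ 1 + rs (fun c => eps l c * |Dd l c|) c := by
  rw [Dd, SD_eq]
  calc |1 - rs (fun c => eps l c * Dd l c) c|
      ≤ |(1 : ℝ)| + |rs (fun c => eps l c * Dd l c) c| := abs_sub _ _
    _ ≤ 1 + rs (fun c => |eps l c * Dd l c|) c := by
        rw [abs_one]; exact add_le_add le_rfl (abs_rs_le _ _)
    _ = _ := by
        have : (fun c : F V => |eps l c * Dd l c|) = fun c => eps l c * |Dd l c| := by
          funext c
          rw [abs_mul, abs_of_pos (eps_pos hl c)]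
        rw [this]

lemma abs_Bb_le (hl : 0 < l) (c : F V) :
    |Bb l c| ≤ rs (fun c => eps l c * (|Bb l c| + (Dd l c) ^ 2)) c := by
  rw [Bb, SB_eq, abs_neg]
  refine (abs_rs_le _ _).trans (rs_mono ?_ c)
  intro c
  have h1 := eps_pos hl c
  have h2 := eps_lt_one hl c
  calc |eps l c * Bb l c + eps l c * (1 - eps l c) * (Dd l c) ^ 2|
      ≤ |eps l c * Bb l c| + |eps l c * (1 - eps l c) * (Dd l c) ^ 2| := abs_add_le _ _
    _ = eps l c * |Bb l c| + eps l c * (1 - eps l c) * (Dd l c) ^ 2 := by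
        rw [abs_mul, abs_of_pos h1, abs_of_nonneg (a := eps l c * (1 - eps l c) * (Dd l c) ^ 2)]
        have : 0 ≤ 1 - eps l c := by linarith
        positivity
    _ ≤ _ := by
        have : eps l c * (1 - eps l c) * (Dd l c) ^ 2 ≤ eps l c * (Dd l c) ^ 2 := by
          apply mul_le_mul_of_nonneg_right _ (sq_nonneg _)
          nlinarith
        linarith

/-- cubic lower bound for the exponential -/
lemma exp_cubic (t : ℝ) : 1 + t + t ^ 2 / 2 + t ^ 3 / 6 ≤ Real.exp t := by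
  have hd : ∀ x : ℝ, HasDerivAt (fun x : ℝ => Real.exp x - (1 + x + x ^ 2 / 2 + x ^ 3 / 6))
      (Real.exp x - (1 + x + x ^ 2 / 2)) x := by
    intro x
    have h := ((((hasDerivAt_const x (1 : ℝ)).add (hasDerivAt_id x)).add
      ((hasDerivAt_pow 2 x).div_const 2)).add ((hasDerivAt_pow 3 x).div_const 6))
    exact ((Real.hasDerivAt_exp x).sub h).congr_deriv (by norm_num; ring)
  have hq : ∀ x : ℝ, x ≤ 0 → Real.exp x ≤ 1 + x + x ^ 2 / 2 := by
    intro x hx
    have hd2 : ∀ x : ℝ, HasDerivAt (fun x : ℝ => (1 + x + x ^ 2 / 2) - Real.exp x)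
        ((1 + x) - Real.exp x) x := by
      intro x
      have h := (((hasDerivAt_const x (1 : ℝ)).add (hasDerivAt_id x)).add
        ((hasDerivAt_pow 2 x).div_const 2))
      exact (h.sub (Real.hasDerivAt_exp x)).congr_deriv (by norm_num)
    have hanti : AntitoneOn (fun x : ℝ => (1 + x + x ^ 2 / 2) - Real.exp x)
        (Set.Iic 0) := by
      apply antitoneOn_of_deriv_nonpos (convex_Iic 0)
      · exact fun x _ => (hd2 x).continuousAt.continuousWithinAt
      · exact fun x _ => (hd2 x).differentiableAt.differentiableWithinAt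
      · intro x _
        rw [(hd2 x).deriv]
        have := Real.add_one_le_exp x
        linarith
    have := hanti (Set.mem_Iic.2 hx) (Set.mem_Iic.2 le_rfl) hx
    simp only [Real.exp_zero] at this
    linarith
  rcases le_total 0 t with ht | ht
  · have hmono : MonotoneOn (fun x : ℝ => Real.exp x - (1 + x + x ^ 2 / 2 + x ^ 3 / 6))
        (Set.Ici 0) := by
      apply monotoneOn_of_deriv_nonneg (convex_Ici 0)
      · exact fun x _ => (hd x).continuousAt.continuousWithinAt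
      · exact fun x _ => (hd x).differentiableAt.differentiableWithinAt
      · intro x hx
        rw [interior_Ici, Set.mem_Ioi] at hx
        rw [(hd x).deriv]
        have := Real.quadratic_le_exp_of_nonneg hx.le
        linarith
    have := hmono (Set.mem_Ici.2 le_rfl) (Set.mem_Ici.2 ht) ht
    simp only [Real.exp_zero] at this
    linarith
  · have hanti : AntitoneOn (fun x : ℝ => Real.exp x - (1 + x + x ^ 2 / 2 + x ^ 3 / 6))
        (Set.Iic 0) := by
      apply antitoneOn_of_deriv_nonpos (convex_Iic 0)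
      · exact fun x _ => (hd x).continuousAt.continuousWithinAt
      · exact fun x _ => (hd x).differentiableAt.differentiableWithinAt
      · intro x hx
        rw [interior_Iic, Set.mem_Iio] at hx
        rw [(hd x).deriv]
        have := hq x hx.le
        linarith
    have := hanti (Set.mem_Iic.2 ht) (Set.mem_Iic.2 le_rfl) ht
    simp only [Real.exp_zero] at this
    linarith

/-- numerical inequality: `S ^ (5/4) ≤ (91/100) (1 + (2/9) e ^ S)` -/
lemma num1 {S : ℝ} (hS : 0 ≤ S) :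
    S ^ (5 / 4 : ℝ) ≤ 91 / 100 * (1 + 2 / 9 * Real.exp S) := by
  -- AM-GM
  have h1 : S ^ (5 / 4 : ℝ) ≤ (S ^ 2 / (6 / 5) ^ 3 + 3 * (6 / 5) * S) / 4 := by
    have e1 : S ^ (5 / 4 : ℝ) = S * S ^ (1 / 4 : ℝ) := by
      rcases hS.eq_or_lt with rfl | hS'
      · rw [Real.zero_rpow (by norm_num)]; simp
      · rw [show (5 / 4 : ℝ) = 1 + 1 / 4 by norm_num, Real.rpow_add hS', Real.rpow_one]
    have e2 := Real.geom_mean_le_arith_mean2_weighted (w₁ := 1 / 4) (w₂ := 3 / 4)
      (p₁ := S / (6 / 5) ^ 3) (p₂ := 6 / 5) (by norm_num) (by norm_num) (by positivity)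
      (by norm_num) (by norm_num)
    have e3 : (S / (6 / 5) ^ 3) ^ (1 / 4 : ℝ) * (6 / 5 : ℝ) ^ (3 / 4 : ℝ) = S ^ (1 / 4 : ℝ) := by
      rw [Real.div_rpow hS (by positivity), ← Real.rpow_natCast (6 / 5 : ℝ) 3,
        ← Real.rpow_mul (by norm_num)]
      norm_num
    rw [e3] at e2
    rw [e1]
    calc S * S ^ (1 / 4 : ℝ) ≤ S * (1 / 4 * (S / (6 / 5) ^ 3) + 3 / 4 * (6 / 5)) :=
          mul_le_mul_of_nonneg_left e2 hS
      _ = _ := by ring
  have h2 : Real.exp S ≥ 7.389 * (1 + (S - 2) + (S - 2) ^ 2 / 2 + (S - 2) ^ 3 / 6) := by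
    have e1 : Real.exp S = Real.exp 1 ^ 2 * Real.exp (S - 2) := by
      rw [← Real.exp_nat_mul, ← Real.exp_add]; congr 1; push_cast; ring
    have e2 : (7.389 : ℝ) ≤ Real.exp 1 ^ 2 := by
      have := Real.exp_one_gt_d9
      nlinarith
    have e3 := exp_cubic (S - 2)
    rw [e1, ge_iff_le]
    rcases le_total 0 (1 + (S - 2) + (S - 2) ^ 2 / 2 + (S - 2) ^ 3 / 6) with h | h
    · exact mul_le_mul e2 e3 h (by positivity)
    · have : 0 ≤ Real.exp 1 ^ 2 * Real.exp (S - 2) := by positivity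
      nlinarith
  refine h1.trans ?_
  have h3 : (S ^ 2 / (6 / 5) ^ 3 + 3 * (6 / 5) * S) / 4 ≤ 91 / 100 * (1 + 2 / 9 *
      (7.389 * (1 + (S - 2) + (S - 2) ^ 2 / 2 + (S - 2) ^ 3 / 6))) := by
    have h4 : 0 ≤ S * (S - 2) ^ 2 := by positivity
    have h5 : 0 ≤ (S - 2 + 1 / 20) ^ 2 := by positivity
    norm_num
    nlinarith
  refine h3.trans ?_
  linarith

/-- numerical inequality: `S ^ (1/8) ≤ (4/5) (1 + (2/9) e ^ S)` -/
lemma num2 {S : ℝ} (hS : 0 ≤ S) :
    S ^ (1 / 8 : ℝ) ≤ 4 / 5 * (1 + 2 / 9 * Real.exp S) := by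
  have e2 := Real.geom_mean_le_arith_mean2_weighted (w₁ := 1 / 8) (w₂ := 7 / 8)
    (p₁ := S / (9 / 10) ^ 7) (p₂ := 9 / 10) (by norm_num) (by norm_num) (by positivity)
    (by norm_num) (by norm_num)
  have e3 : (S / (9 / 10) ^ 7) ^ (1 / 8 : ℝ) * (9 / 10 : ℝ) ^ (7 / 8 : ℝ) = S ^ (1 / 8 : ℝ) := by
    rw [Real.div_rpow hS (by positivity), ← Real.rpow_natCast (9 / 10 : ℝ) 7,
      ← Real.rpow_mul (by norm_num)]
    norm_num
  rw [e3] at e2
  have e4 := Real.quadratic_le_exp_of_nonneg hS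
  refine e2.trans ?_
  norm_num
  nlinarith [sq_nonneg (S - 1 / 2)]

end F

end Pool.Agent.Lib.MP_24a1b5_co
end

section

set_option autoImplicit false

namespace Pool.Agent.Lib.MP_24a1b5_co

namespace F

variable {V : Type*} {l : ℝ}

/-- size biased power of the mean difference -/
noncomputable def gD (l : ℝ) (c : F V) : ℝ := eps l c * |Dd l c| ^ (9 / 4 : ℝ)

/-- size biased power of the variance difference -/
noncomputable def gB (l : ℝ) (c : F V) : ℝ := eps l c * |Bb l c| ^ (9 / 8 : ℝ)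

lemma gD_nonneg (hl : 0 < l) (c : F V) : 0 ≤ gD l c :=
  mul_nonneg (eps_pos hl c).le (Real.rpow_nonneg (abs_nonneg _) _)

lemma gB_nonneg (hl : 0 < l) (c : F V) : 0 ≤ gB l c :=
  mul_nonneg (eps_pos hl c).le (Real.rpow_nonneg (abs_nonneg _) _)

lemma num3 {A : ℝ} (hA : 0 ≤ A) : (1 + A) ^ (9 / 4 : ℝ) ≤ 676 + 1.0816 * A ^ (9 / 4 : ℝ) := by
  have h := jensen2 (s := 9 / 4) (a := 1 / 26) (b := 25 / 26) (x := 26) (y := 26 / 25 * A)
    (by norm_num) (by norm_num) (by norm_num) (by norm_num) (by positivity)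
  have e1 : (1 / 26 : ℝ) * 26 + 25 / 26 * (26 / 25 * A) = 1 + A := by ring
  rw [e1, show (1 / 26 : ℝ) + 25 / 26 = 1 by norm_num, Real.one_rpow, one_mul] at h
  refine h.trans ?_
  rw [Real.mul_rpow (by norm_num) hA]
  have e2 : (26 : ℝ) ^ (9 / 4 : ℝ) ≤ 26 ^ (3 : ℕ) := by
    rw [← Real.rpow_natCast]
    exact Real.rpow_le_rpow_of_exponent_le (by norm_num) (by norm_num)
  have e3 : (26 / 25 : ℝ) ^ (9 / 4 : ℝ) ≤ (26 / 25) ^ (3 : ℕ) := by
    rw [← Real.rpow_natCast]
    exact Real.rpow_le_rpow_of_exponent_le (by norm_num) (by norm_num)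
  have h4 : 0 ≤ A ^ (9 / 4 : ℝ) := Real.rpow_nonneg hA _
  have e5 : 25 / 26 * ((26 / 25 : ℝ) ^ (9 / 4 : ℝ) * A ^ (9 / 4 : ℝ)) ≤
      1.0816 * A ^ (9 / 4 : ℝ) := by
    rw [← mul_assoc]
    apply mul_le_mul_of_nonneg_right _ h4
    norm_num at e3 ⊢
    linarith
  have e6 : 1 / 26 * (26 : ℝ) ^ (9 / 4 : ℝ) ≤ 676 := by
    norm_num at e2 ⊢
    linarith
  linarith

lemma gD_step (hl : 0 < l) (hl2 : l ≤ 9 / 2) (c : F V) :
    gD l c ≤ 99 / 100 * rs (gD l) c + 676 * eps l c := by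
  set A := rs (fun c => eps l c * |Dd l c|) c with hA
  have hA0 : 0 ≤ A := rs_nonneg (fun c => mul_nonneg (eps_pos hl c).le (abs_nonneg _)) c
  set S := rs (eps l) c with hS
  have hS0 : 0 ≤ S := rs_nonneg (fun c => (eps_pos hl c).le) c
  have h1 : |Dd l c| ^ (9 / 4 : ℝ) ≤ (1 + A) ^ (9 / 4 : ℝ) :=
    Real.rpow_le_rpow (abs_nonneg _) (abs_Dd_le hl c) (by norm_num)
  have h2 := num3 hA0
  have h3 := jensen (e := eps l) (x := fun c : F V => |Dd l c|) (eps_pos hl)
    (fun c => abs_nonneg _) (s := 9 / 4) (by norm_num) c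
  rw [show (9 / 4 - 1 : ℝ) = 5 / 4 by norm_num] at h3
  have h4 := num1 hS0
  have h5 := eps_mul_le hl hl2 c
  have hg : rs (fun c => eps l c * |Dd l c| ^ (9 / 4 : ℝ)) c = rs (gD l) c := rfl
  rw [hg, ← hA, ← hS] at h3
  have hR : 0 ≤ rs (gD l) c := rs_nonneg (gD_nonneg hl) c
  have he := eps_pos hl c
  have h6 : eps l c * A ^ (9 / 4 : ℝ) ≤ 91 / 100 * rs (gD l) c := by
    calc eps l c * A ^ (9 / 4 : ℝ) ≤ eps l c * (S ^ (5 / 4 : ℝ) * rs (gD l) c) :=
          mul_le_mul_of_nonneg_left h3 he.le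
      _ ≤ eps l c * ((91 / 100 * (1 + 2 / 9 * Real.exp S)) * rs (gD l) c) := by
          apply mul_le_mul_of_nonneg_left _ he.le
          exact mul_le_mul_of_nonneg_right h4 hR
      _ = (eps l c * (1 + 2 / 9 * Real.exp S)) * (91 / 100 * rs (gD l) c) := by ring
      _ ≤ 1 * (91 / 100 * rs (gD l) c) := by
          apply mul_le_mul_of_nonneg_right h5
          positivity
      _ = _ := one_mul _
  calc gD l c = eps l c * |Dd l c| ^ (9 / 4 : ℝ) := rfl
    _ ≤ eps l c * (676 + 1.0816 * A ^ (9 / 4 : ℝ)) :=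
        mul_le_mul_of_nonneg_left (h1.trans h2) he.le
    _ = 676 * eps l c + 1.0816 * (eps l c * A ^ (9 / 4 : ℝ)) := by ring
    _ ≤ 676 * eps l c + 1.0816 * (91 / 100 * rs (gD l) c) := by linarith
    _ ≤ _ := by norm_num; linarith

lemma ts_eps_le (hl : 0 < l) (f : F V) : ts (eps l) f ≤ sz f := by
  rw [← ts_one_le]
  exact ts_mono (fun c => (eps_lt_one hl c).le) f

lemma ts_gD_le (hl : 0 < l) (hl2 : l ≤ 9 / 2) (f : F V) : ts (gD l) f ≤ 67600 * sz f := by
  have h := contraction (θ := 99 / 100) (by norm_num) (gD_nonneg hl) (gD_step hl hl2) f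
  rw [ts_mul] at h
  have := ts_eps_le hl f
  linarith

lemma sq_rpow (x : ℝ) : (x ^ 2) ^ (9 / 8 : ℝ) = |x| ^ (9 / 4 : ℝ) := by
  rw [← sq_abs, ← Real.rpow_natCast, ← Real.rpow_mul (abs_nonneg _)]
  norm_num

lemma num4 {x y : ℝ} (hx : 0 ≤ x) (hy : 0 ≤ y) :
    (x + y) ^ (9 / 8 : ℝ) ≤ 11 / 10 * (x ^ (9 / 8 : ℝ) + y ^ (9 / 8 : ℝ)) := by
  have h := jensen2 (s := 9 / 8) (a := 1) (b := 1) (by norm_num) (by norm_num) (by norm_num)
    hx hy
  simp only [one_mul] at h
  refine h.trans ?_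
  apply mul_le_mul_of_nonneg_right
  · rw [show (1 + 1 : ℝ) = 2 by norm_num, show (9 / 8 - 1 : ℝ) = 1 / 8 by norm_num]
    have h1 : (2 : ℝ) ≤ (11 / 10) ^ (8 : ℕ) := by norm_num
    calc (2 : ℝ) ^ (1 / 8 : ℝ) ≤ ((11 / 10) ^ (8 : ℕ)) ^ (1 / 8 : ℝ) :=
          Real.rpow_le_rpow (by norm_num) h1 (by norm_num)
      _ = 11 / 10 := by
          rw [← Real.rpow_natCast, ← Real.rpow_mul (by norm_num)]
          norm_num
  · have := Real.rpow_nonneg hx (9 / 8 : ℝ)
    have := Real.rpow_nonneg hy (9 / 8 : ℝ)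
    positivity

lemma gB_step (hl : 0 < l) (hl2 : l ≤ 9 / 2) (c : F V) :
    gB l c ≤ 88 / 100 * rs (gB l) c + 88 / 100 * rs (gD l) c := by
  set A := rs (fun c => eps l c * (|Bb l c| + (Dd l c) ^ 2)) c with hA
  have hA0 : 0 ≤ A := rs_nonneg (fun c => mul_nonneg (eps_pos hl c).le
    (add_nonneg (abs_nonneg _) (sq_nonneg _))) c
  set S := rs (eps l) c with hS
  have hS0 : 0 ≤ S := rs_nonneg (fun c => (eps_pos hl c).le) c
  have h1 : |Bb l c| ^ (9 / 8 : ℝ) ≤ A ^ (9 / 8 : ℝ) :=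
    Real.rpow_le_rpow (abs_nonneg _) (abs_Bb_le hl c) (by norm_num)
  have h3 := jensen (e := eps l) (x := fun c : F V => |Bb l c| + (Dd l c) ^ 2) (eps_pos hl)
    (fun c => add_nonneg (abs_nonneg _) (sq_nonneg _)) (s := 9 / 8) (by norm_num) c
  rw [show (9 / 8 - 1 : ℝ) = 1 / 8 by norm_num] at h3
  have h4 := num2 hS0
  have h5 := eps_mul_le hl hl2 c
  rw [← hA, ← hS] at h3
  have he := eps_pos hl c
  have h7 : rs (fun c => eps l c * (|Bb l c| + (Dd l c) ^ 2) ^ (9 / 8 : ℝ)) c ≤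
      11 / 10 * (rs (gB l) c + rs (gD l) c) := by
    rw [← rs_add, ← rs_mul]
    apply rs_mono
    intro c
    have h8 := num4 (abs_nonneg (Bb l c)) (sq_nonneg (Dd l c))
    rw [sq_rpow] at h8
    calc eps l c * (|Bb l c| + (Dd l c) ^ 2) ^ (9 / 8 : ℝ)
        ≤ eps l c * (11 / 10 * (|Bb l c| ^ (9 / 8 : ℝ) + |Dd l c| ^ (9 / 4 : ℝ))) :=
          mul_le_mul_of_nonneg_left h8 (eps_pos hl c).le
      _ = _ := by rw [gB, gD]; ring
  have hR : 0 ≤ rs (gB l) c + rs (gD l) c :=
    add_nonneg (rs_nonneg (gB_nonneg hl) c) (rs_nonneg (gD_nonneg hl) c)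
  calc gB l c = eps l c * |Bb l c| ^ (9 / 8 : ℝ) := rfl
    _ ≤ eps l c * A ^ (9 / 8 : ℝ) := mul_le_mul_of_nonneg_left h1 he.le
    _ ≤ eps l c * (S ^ (1 / 8 : ℝ) * (11 / 10 * (rs (gB l) c + rs (gD l) c))) := by
        apply mul_le_mul_of_nonneg_left _ he.le
        exact h3.trans (mul_le_mul_of_nonneg_left h7 (Real.rpow_nonneg hS0 _))
    _ ≤ eps l c * ((4 / 5 * (1 + 2 / 9 * Real.exp S)) *
          (11 / 10 * (rs (gB l) c + rs (gD l) c))) := by
        apply mul_le_mul_of_nonneg_left _ he.le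
        exact mul_le_mul_of_nonneg_right h4 (by positivity)
    _ = (eps l c * (1 + 2 / 9 * Real.exp S)) *
          (88 / 100 * (rs (gB l) c + rs (gD l) c)) := by ring
    _ ≤ 1 * (88 / 100 * (rs (gB l) c + rs (gD l) c)) := by
        apply mul_le_mul_of_nonneg_right h5
        positivity
    _ = _ := by ring

lemma ts_gB_le (hl : 0 < l) (hl2 : l ≤ 9 / 2) (f : F V) : ts (gB l) f ≤ 540800 * sz f := by
  have h := contraction (θ := 88 / 100) (by norm_num) (gB_nonneg hl) (gB_step hl hl2) f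
  rw [ts_mul, ts_rs] at h
  have h1 := ts_gD_le hl hl2 f
  have h2 := rs_nonneg (gD_nonneg hl) f
  have h3 := ts_nonneg (gD_nonneg hl) f
  linarith

lemma Vr_nonneg_aux (hl : 0 < l) : ∀ f : F V, 0 ≤ Vr l f ∧ 0 ≤ Vr l f - SB l f
  | nil => by simp [Vr, ts, SB]
  | cons v c r => by
      obtain ⟨c1, c2⟩ := Vr_nonneg_aux hl c
      obtain ⟨r1, r2⟩ := Vr_nonneg_aux hl r
      have he := eps_pos hl c
      have he1 := eps_lt_one hl c
      have e1 : Vr l (cons v c r) = eps l c * Bb l c + eps l c * (1 - eps l c) * (Dd l c) ^ 2 +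
          Vr l c + Vr l r := rfl
      have e2 : SB l (cons v c r) = eps l c * (- SB l c) +
          eps l c * (1 - eps l c) * (Dd l c) ^ 2 + SB l r := rfl
      have h1 : 0 ≤ eps l c * (1 - eps l c) * (Dd l c) ^ 2 := by
        have : 0 ≤ 1 - eps l c := by linarith
        positivity
      constructor
      · rw [e1, Bb]
        have h2 : eps l c * (- SB l c) + Vr l c = (1 - eps l c) * Vr l c +
            eps l c * (Vr l c - SB l c) := by ring
        have h3 : 0 ≤ (1 - eps l c) * Vr l c := mul_nonneg (by linarith) c1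
        have h4 := mul_nonneg he.le c2
        linarith
      · rw [e1, e2, Bb]
        linarith

lemma Vr_nonneg (hl : 0 < l) (f : F V) : 0 ≤ Vr l f := (Vr_nonneg_aux hl f).1

lemma Vout_nonneg (hl : 0 < l) (f : F V) : 0 ≤ Vr l f - SB l f := (Vr_nonneg_aux hl f).2

lemma le_one_add_rpow {x s : ℝ} (hx : 0 ≤ x) (hs : 1 ≤ s) : x ≤ 1 + x ^ s := by
  rcases le_total x 1 with h | h
  · have := Real.rpow_nonneg hx s
    linarith
  · have := Real.self_le_rpow_of_one_le h hs
    linarith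

lemma Vr_le (hl : 0 < l) (hl2 : l ≤ 9 / 2) (f : F V) : Vr l f ≤ 1000000 * sz f := by
  have h1 := ts_gD_le hl hl2 f
  have h2 := ts_gB_le hl hl2 f
  have h3 : Vr l f ≤ ts (fun c => (2 * 1 + gB l c) + gD l c) f := by
    apply ts_mono
    intro c
    have he := eps_pos hl c
    have he1 := eps_lt_one hl c
    have a1 : eps l c * Bb l c ≤ eps l c * (1 + |Bb l c| ^ (9 / 8 : ℝ)) := by
      apply mul_le_mul_of_nonneg_left _ he.le
      exact (le_abs_self _).trans (le_one_add_rpow (abs_nonneg _) (by norm_num))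
    have a2 : eps l c * (1 - eps l c) * (Dd l c) ^ 2 ≤
        eps l c * (1 + |Dd l c| ^ (9 / 4 : ℝ)) := by
      have b1 : (Dd l c) ^ 2 ≤ 1 + |Dd l c| ^ (9 / 4 : ℝ) := by
        rw [← sq_rpow]
        exact le_one_add_rpow (sq_nonneg _) (by norm_num)
      have b2 : eps l c * (1 - eps l c) ≤ eps l c := by nlinarith
      exact mul_le_mul b2 b1 (sq_nonneg _) he.le
    have a3 : eps l c * (1 + |Bb l c| ^ (9 / 8 : ℝ)) = eps l c + gB l c := by rw [gB]; ring
    have a4 : eps l c * (1 + |Dd l c| ^ (9 / 4 : ℝ)) = eps l c + gD l c := by rw [gD]; ring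
    linarith
  rw [ts_add, ts_add, ts_mul, ts_one_le] at h3
  have : (0 : ℝ) ≤ sz f := Nat.cast_nonneg _
  linarith

end F

end Pool.Agent.Lib.MP_24a1b5_co
end
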