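import Pool.Agent.Lib.MP_24a1b5_co.Ends

section

set_option autoImplicit false
open Finset
open scoped Classical

namespace Pool.Agent.Lib.MP_24a1b5_co

variable {V : Type*}

section mono
variable (G : SimpleGraph V) {a : V → ℝ}

lemma Z_mono (ha : ∀ v, 0 ≤ a v) {S T : Finset V} (h : S ⊆ T) : Z G a S ≤ Z G a T := by
  rw [Z, Z]
  apply Finset.sum_le_sum_of_subset_of_nonneg (Finset.powerset_mono.2 h)
  intro I _ _
  split_ifs
  · exact Finset.prod_nonneg (fun v _ => ha v)
  · exact le_rfl

lemma one_le_Z (ha : ∀ v, 0 ≤ a v) (S : Finset V) : 1 ≤ Z G a S := by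
  rw [← Z_empty G a]
  exact Z_mono G ha (Finset.empty_subset _)

lemma Z_pos (ha : ∀ v, 0 ≤ a v) (S : Finset V) : 0 < Z G a S :=
  lt_of_lt_of_le one_pos (one_le_Z G ha S)

lemma Z_le_mul (ha : ∀ v, 0 ≤ a v) {l : ℝ} (hl : ∀ v, a v ≤ l) {S : Finset V} {v : V}
    (hv : v ∈ S) : Z G a S ≤ (1 + l) * Z G a (S.erase v) := by
  rw [Z_rec G a hv]
  have h1 := Z_mono G ha (del_subset_erase G v S)
  have h2 := Z_pos G ha (S.erase v)
  have h3 := Z_pos G ha (del G v S)
  have h4 : a v * Z G a (del G v S) ≤ l * Z G a (S.erase v) :=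
    mul_le_mul (hl v) h1 h3.le ((ha v).trans (hl v))
  linarith

lemma Z_le_pow (ha : ∀ v, 0 ≤ a v) {l : ℝ} (hl : ∀ v, a v ≤ l) (hl0 : 0 ≤ l) : ∀ (n : ℕ)
    (S T : Finset V), T ⊆ S → (S \ T).card = n → Z G a S ≤ (1 + l) ^ n * Z G a T := by
  intro n
  induction n with
  | zero =>
    intro S T h1 h2
    rw [Finset.card_eq_zero, Finset.sdiff_eq_empty_iff_subset] at h2
    rw [Finset.Subset.antisymm h1 h2]
    simp
  | succ n ih =>
    intro S T h1 h2
    have hne : (S \ T).Nonempty := by rw [← Finset.card_pos]; omega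
    obtain ⟨v, hv⟩ := hne
    have hv' := Finset.mem_sdiff.1 hv
    have h3 : T ⊆ S.erase v := fun x hx => Finset.mem_erase.2 ⟨fun e => hv'.2 (e ▸ hx), h1 hx⟩
    have h4 : (S.erase v \ T).card = n := by
      have : S.erase v \ T = (S \ T).erase v := by
        ext x
        simp only [Finset.mem_sdiff, Finset.mem_erase]
        tauto
      rw [this, Finset.card_erase_of_mem hv]
      omega
    calc Z G a S ≤ (1 + l) * Z G a (S.erase v) := Z_le_mul G ha hl hv'.1
      _ ≤ (1 + l) * ((1 + l) ^ n * Z G a T) := by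
          apply mul_le_mul_of_nonneg_left (ih _ _ h3 h4)
          linarith
      _ = _ := by ring

end mono

open Polynomial in
/-- the polynomial of `G[S]` -/
noncomputable def Pl (G : SimpleGraph V) (S : Finset V) : Polynomial ℝ :=
  Z G (fun _ => (Polynomial.X : Polynomial ℝ)) S

/-- value -/
noncomputable def W0 (G : SimpleGraph V) (l : ℝ) (S : Finset V) : ℝ := (Pl G S).eval l

/-- `l` times derivative -/
noncomputable def W1 (G : SimpleGraph V) (l : ℝ) (S : Finset V) : ℝ :=
  l * (Polynomial.derivative (Pl G S)).eval l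

section W
variable (G : SimpleGraph V) (l : ℝ)

lemma W0_eq (S : Finset V) : W0 G l S = Z G (fun _ => l) S := by
  rw [W0, Pl]
  have := Z_map G (fun _ => (Polynomial.X : Polynomial ℝ)) (Polynomial.evalRingHom l) S
  simpa using this

lemma W0_rec {v : V} {S : Finset V} (hv : v ∈ S) :
    W0 G l S = W0 G l (S.erase v) + l * W0 G l (del G v S) := by
  rw [W0_eq, W0_eq, W0_eq, Z_rec G _ hv]

lemma W1_rec {v : V} {S : Finset V} (hv : v ∈ S) :
    W1 G l S = W1 G l (S.erase v) + l * (W0 G l (del G v S) + W1 G l (del G v S)) := by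
  rw [W1, Pl, Z_rec G _ hv, ← Pl, ← Pl]
  simp only [Polynomial.derivative_add, Polynomial.derivative_mul, Polynomial.derivative_X,
    one_mul, Polynomial.eval_add, Polynomial.eval_mul, Polynomial.eval_X, W0, W1]
  ring

lemma W1_empty : W1 G l ∅ = 0 := by
  rw [W1, Pl, Z_empty]
  simp

lemma W1_le (hl : 0 ≤ l) : ∀ (n : ℕ) (S : Finset V), S.card = n →
    W1 G l S ≤ l * n * W0 G l S := by
  intro n
  induction n using Nat.strong_induction_on with
  | _ n ih =>
    intro S hS
    rcases S.eq_empty_or_nonempty with rfl | ⟨v, hv⟩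
    · rw [W1_empty]
      simp only [Finset.card_empty] at hS
      subst hS
      simp
    · -- use the identity  X P' = sum of vertices
      have key : ∀ T : Finset V, W1 G l T ≤ l * T.card * W0 G l T := by
        intro T
        have h1 : Polynomial.derivative (Pl G T) =
            ∑ v ∈ T, Pl G (del G v T) := by
          apply Polynomial.ext
          intro k
          rw [Polynomial.coeff_derivative, Polynomial.finsetSum_coeff]
          have key2 : ∀ (T : Finset V) (j : ℕ), (Pl G T).coeff j = cnt G T j := by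
            intro T j
            rw [Pl, Z_const_eq_sum, Polynomial.finsetSum_coeff]
            simp only [Polynomial.coeff_natCast_mul, Polynomial.coeff_X_pow]
            rw [Finset.sum_eq_single j]
            · simp
            · intro b _ hb
              simp [Ne.symm hb]
            · intro hj
              rw [Finset.mem_range, not_lt] at hj
              simp [cnt_eq_zero (G := G) (S := T) (k := j) (by omega)]
          simp only [key2]
          have := succ_mul_cnt G T k
          have h3 : ((k + 1 : ℕ) : ℝ) * cnt G T (k + 1) = ∑ v ∈ T, (cnt G (del G v T) k : ℝ) := by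
            exact_mod_cast this
          rw [← h3]
          push_cast
          ring
        rw [W1, h1, Polynomial.eval_finsetSum]
        have h4 : ∀ v ∈ T, (Pl G (del G v T)).eval l ≤ W0 G l T := by
          intro v _
          change W0 G l (del G v T) ≤ _
          rw [W0_eq, W0_eq]
          exact Z_mono G (fun _ => hl) (del_subset _ _ _)
        have h5 := Finset.sum_le_sum h4
        rw [Finset.sum_const, nsmul_eq_mul] at h5
        have := mul_le_mul_of_nonneg_left h5 hl
        linarith
      rw [← hS]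
      exact key S

end W

/-- number of vertices minus number of edges of `G[S]` -/
noncomputable def kap (G : SimpleGraph V) (S : Finset V) : ℝ := S.card - (e2 G S : ℝ) / 2

lemma kap_erase (G : SimpleGraph V) {v : V} {S : Finset V} (hv : v ∈ S) :
    kap G (S.erase v) = kap G S - 1 + (nb G v S).card := by
  rw [kap, kap, e2_erase G hv, Finset.card_erase_of_mem hv]
  have : 1 ≤ S.card := Finset.card_pos.2 ⟨v, hv⟩
  push_cast [Nat.cast_sub this]
  ring

lemma kap_nonneg {G : SimpleGraph V} (hG : Degen G) (S : Finset V) : 0 ≤ kap G S := by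
  have := e2_le hG S.card S rfl
  rw [kap]
  have : (e2 G S : ℝ) ≤ 2 * S.card := by exact_mod_cast this
  linarith

lemma alpha_erase (G : SimpleGraph V) (v : V) (S : Finset V) :
    alpha G S ≤ alpha G (S.erase v) + 1 := by
  obtain ⟨I, h1, h2, h3⟩ := exists_alpha G S
  have h4 := card_le_alpha (G := G) (S := S.erase v) (I := I.erase v)
    (Finset.erase_subset_erase _ h1) (h2.subset (Finset.erase_subset _ _))
  have h5 := Finset.pred_card_le_card_erase (s := I) (a := v)
  omega

lemma alpha_erase_erase {G : SimpleGraph V} {u v : V} (h : G.Adj u v) (S : Finset V) :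
    alpha G S ≤ alpha G ((S.erase u).erase v) + 1 := by
  obtain ⟨I, h1, h2, h3⟩ := exists_alpha G S
  have h4 := card_le_alpha (G := G) (S := (S.erase u).erase v) (I := (I.erase u).erase v)
    (Finset.erase_subset_erase _ (Finset.erase_subset_erase _ h1))
    (h2.subset ((Finset.erase_subset _ _).trans (Finset.erase_subset _ _)))
  by_cases hu : u ∈ I
  · have hv : v ∉ I.erase u := fun hh => h2 u hu v (Finset.mem_of_mem_erase hh) h
    rw [Finset.erase_eq_of_notMem hv] at h4
    have h5 := Finset.pred_card_le_card_erase (s := I) (a := u)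
    omega
  · rw [Finset.erase_eq_of_notMem hu] at h4
    have h5 := Finset.pred_card_le_card_erase (s := I) (a := v)
    omega

/-- lower bound for the mean -/
noncomputable def gg (G : SimpleGraph V) (S : Finset V) : ℝ :=
  2 / 3 * (alpha G S : ℝ) + kap G S / 8

lemma nb_eq_empty_erase {G : SimpleGraph V} {v u : V} {S : Finset V} (h : nb G v S = {u}) :
    nb G v (S.erase u) = ∅ := by
  ext x
  simp only [mem_nb, Finset.mem_erase, Finset.notMem_empty, iff_false]
  rintro ⟨⟨h1, h2⟩, h3⟩
  have : x ∈ nb G v S := mem_nb.2 ⟨h2, h3⟩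
  rw [h, Finset.mem_singleton] at this
  exact h1 this

lemma del_of_nb_empty {G : SimpleGraph V} {v : V} {S : Finset V} (h : nb G v S = ∅) :
    del G v S = S.erase v := by
  ext x
  rw [mem_del, Finset.mem_erase]
  constructor
  · rintro ⟨h1, h2, h3⟩
    exact ⟨h2, h1⟩
  · rintro ⟨h1, h2⟩
    refine ⟨h2, h1, fun h3 => ?_⟩
    have : x ∈ nb G v S := mem_nb.2 ⟨h2, h3⟩
    rw [h] at this
    simp at this

lemma del_of_nb_single {G : SimpleGraph V} {v u : V} {S : Finset V} (h : nb G v S = {u}) :
    del G v S = (S.erase v).erase u := by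
  ext x
  rw [mem_del, Finset.mem_erase, Finset.mem_erase]
  have hx : ∀ (_ : x ∈ S), (G.Adj v x ↔ x = u) := by
    intro hxS
    have : x ∈ nb G v S ↔ x = u := by rw [h, Finset.mem_singleton]
    rw [mem_nb] at this
    constructor
    · exact fun hh => this.1 ⟨hxS, hh⟩
    · exact fun hh => (this.2 hh).2
  constructor
  · rintro ⟨h1, h2, h3⟩
    exact ⟨fun e => h3 ((hx h1).2 e), h2, h1⟩
  · rintro ⟨h1, h2, h3⟩
    exact ⟨h3, h2, fun e => h1 ((hx h3).1 e)⟩

/-- structure of a finite forest near its boundary -/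
lemma local_structure {G : SimpleGraph V} (hG : Degen G) {S : Finset V} (hS : S.Nonempty) :
    (∃ v ∈ S, nb G v S = ∅) ∨
    ∃ u ∈ S, ∃ x ∈ S, G.Adj u x ∧ nb G x S = {u} ∧
      ((∃ y ∈ S, y ≠ x ∧ nb G y S = {u}) ∨ nb G u S = {x} ∨
        ∃ w, w ≠ x ∧ nb G u S = {x, w}) := by
  by_cases h0 : ∃ v ∈ S, nb G v S = ∅
  · exact Or.inl h0
  · right
    push Not at h0
    have hpos : ∀ v ∈ S, 1 ≤ (nb G v S).card := fun v hv =>
      Finset.card_pos.2 (h0 v hv)
    -- a leaf's neighbourhood
    have hleaf : ∀ u ∈ S, ∀ x ∈ S, G.Adj u x → (nb G x S).card ≤ 1 → nb G x S = {u} := by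
      intro u hu x hx hux hc
      have h1 : u ∈ nb G x S := mem_nb.2 ⟨hu, hux.symm⟩
      exact Finset.eq_singleton_iff_unique_mem.2 ⟨h1, fun y hy =>
        Finset.card_le_one.1 hc y hy u h1⟩
    by_cases hA : (S.filter (fun v => ¬ (nb G v S).card ≤ 1)).Nonempty
    · obtain ⟨u, hu, hu1⟩ := hG _ hA
      rw [Finset.mem_filter] at hu
      obtain ⟨huS, hu2⟩ := hu
      -- leaf neighbours of u
      have hsplit : nb G u S = nb G u (S.filter (fun v => ¬ (nb G v S).card ≤ 1)) ∪
          (nb G u S).filter (fun x => (nb G x S).card ≤ 1) := by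
        ext y
        simp only [mem_nb, Finset.mem_union, Finset.mem_filter]
        tauto
      have hcard : (nb G u S).card ≤
          (nb G u (S.filter (fun v => ¬ (nb G v S).card ≤ 1))).card +
          ((nb G u S).filter (fun x => (nb G x S).card ≤ 1)).card := by
        conv_lhs => rw [hsplit]
        exact Finset.card_union_le _ _
      have hl1 : 1 ≤ ((nb G u S).filter (fun x => (nb G x S).card ≤ 1)).card := by omega
      obtain ⟨x, hx⟩ := Finset.card_pos.1 hl1
      have hx' := Finset.mem_filter.1 hx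
      have hx2 := mem_nb.1 hx'.1
      refine ⟨u, huS, x, hx2.1, hx2.2, hleaf u huS x hx2.1 hx2.2 hx'.2, ?_⟩
      by_cases hl2 : 2 ≤ ((nb G u S).filter (fun x => (nb G x S).card ≤ 1)).card
      · left
        obtain ⟨y, hy, hyx⟩ := Finset.exists_mem_ne (by omega :
          1 < ((nb G u S).filter (fun x => (nb G x S).card ≤ 1)).card) x
        have hy' := Finset.mem_filter.1 hy
        have hy2 := mem_nb.1 hy'.1
        exact ⟨y, hy2.1, hyx, hleaf u huS y hy2.1 hy2.2 hy'.2⟩
      · right; right
        have hc2 : (nb G u S).card = 2 := by omega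
        obtain ⟨w, hw, hwx⟩ := Finset.exists_mem_ne (by omega : 1 < (nb G u S).card) x
        refine ⟨w, hwx, ?_⟩
        symm
        apply Finset.eq_of_subset_of_card_le
        · intro y hy
          rw [Finset.mem_insert, Finset.mem_singleton] at hy
          rcases hy with rfl | rfl
          · exact hx'.1
          · exact hw
        · rw [hc2, Finset.card_pair (Ne.symm hwx)]
    · rw [Finset.not_nonempty_iff_eq_empty, Finset.filter_eq_empty_iff] at hA
      push Not at hA
      obtain ⟨u, hu⟩ := hS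
      obtain ⟨x, hx⟩ := Finset.card_pos.1 (hpos u hu)
      have hx2 := mem_nb.1 hx
      refine ⟨u, hu, x, hx2.1, hx2.2, hleaf u hu x hx2.1 hx2.2 (hA hx2.1), Or.inr (Or.inl ?_)⟩
      exact hleaf x hx2.1 u hu hx2.2.symm (hA hu)

lemma mean_lower {G : SimpleGraph V} (hG : Degen G) : ∀ (n : ℕ) (S : Finset V), S.card = n →
    gg G S * W0 G (9 / 2) S ≤ W1 G (9 / 2) S := by
  intro n
  induction n using Nat.strong_induction_on with
  | _ n ih =>
  intro S hn
  have hpos : ∀ T : Finset V, 0 < W0 G (9 / 2) T := by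
    intro T
    rw [W0_eq]
    exact Z_pos G (fun _ => by norm_num) T
  rcases S.eq_empty_or_nonempty with rfl | hS
  · rw [W1_empty]
    have : gg G (∅ : Finset V) = 0 := by
      simp [gg, kap, e2, alpha]
    rw [this, zero_mul]
  rcases local_structure hG hS with ⟨v, hv, hv0⟩ | ⟨u, hu, x, hx, hux, hxn, hcase⟩
  · -- isolated vertex
    have hd := del_of_nb_empty hv0
    have i1 := ih _ (by rw [← hn]; exact Finset.card_erase_lt_of_mem hv) (S.erase v) rfl
    rw [W0_rec G _ hv, W1_rec G _ hv, hd]
    have hk := kap_erase G hv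
    rw [hv0, Finset.card_empty, Nat.cast_zero, add_zero] at hk
    have ha : (alpha G S : ℝ) ≤ alpha G (S.erase v) + 1 := by exact_mod_cast alpha_erase G v S
    have hp := hpos (S.erase v)
    have hg : gg G S ≤ gg G (S.erase v) + 19 / 24 := by
      rw [gg, gg, hk]; linarith
    nlinarith
  · have hux' : u ≠ x := G.ne_of_adj hux
    have huE : u ∈ S.erase x := Finset.mem_erase.2 ⟨hux', hu⟩
    have hxE : x ∈ S.erase u := Finset.mem_erase.2 ⟨hux'.symm, hx⟩
    have c1 : (S.erase x).card < n := by rw [← hn]; exact Finset.card_erase_lt_of_mem hx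
    have c2 : ((S.erase x).erase u).card < n :=
      lt_of_le_of_lt (Finset.card_le_card (Finset.erase_subset _ _)) c1
    have hcomm : (S.erase u).erase x = (S.erase x).erase u := Finset.erase_right_comm
    rcases hcase with ⟨y, hy, hyx, hyn⟩ | hun | ⟨w, hwx, hun⟩
    · -- two leaves
      have huy : G.Adj y u := by
        have : u ∈ nb G y S := by rw [hyn]; exact Finset.mem_singleton_self _
        exact (mem_nb.1 this).2
      have hyu : y ≠ u := G.ne_of_adj huy
      have hd := del_of_nb_single hxn
      have i1 := ih _ c1 (S.erase x) rfl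
      have i2 := ih _ c2 ((S.erase x).erase u) rfl
      have hk1 := kap_erase G hx
      rw [hxn, Finset.card_singleton, Nat.cast_one, sub_add_cancel] at hk1
      have hk2 := kap_erase G huE
      have hnb : (1 : ℝ) ≤ (nb G u (S.erase x)).card := by
        have : 1 ≤ (nb G u (S.erase x)).card := by
          apply Finset.card_pos.2
          exact ⟨y, mem_nb.2 ⟨Finset.mem_erase.2 ⟨hyx, hy⟩, huy.symm⟩⟩
        exact_mod_cast this
      have a1 : (alpha G S : ℝ) ≤ alpha G (S.erase x) + 1 := by exact_mod_cast alpha_erase G x S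
      have a2 : (alpha G S : ℝ) ≤ alpha G ((S.erase x).erase u) + 1 := by
        exact_mod_cast alpha_erase_erase hux.symm S
      have g1 : gg G S ≤ gg G (S.erase x) + 2 / 3 := by rw [gg, gg, hk1]; linarith
      have g2 : gg G S ≤ gg G ((S.erase x).erase u) + 2 / 3 := by
        rw [gg, gg, hk2, hk1]; linarith
      have e1 := W0_rec G (9 / 2) hx
      have e2 := W1_rec G (9 / 2) hx
      rw [hd] at e1 e2
      -- comparison of W0 (S.erase x) and W0 ((S.erase x).erase u)
      have hyS2 : y ∈ (S.erase x).erase u :=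
        Finset.mem_erase.2 ⟨hyu, Finset.mem_erase.2 ⟨hyx, hy⟩⟩
      have hynb : nb G y ((S.erase x).erase u) = ∅ := by
        ext z
        simp only [mem_nb, Finset.mem_erase, Finset.notMem_empty, iff_false]
        rintro ⟨⟨h1, h2, h3⟩, h4⟩
        have : z ∈ nb G y S := mem_nb.2 ⟨h3, h4⟩
        rw [hyn, Finset.mem_singleton] at this
        exact h1 this
      have e3 := W0_rec G (9 / 2) hyS2
      rw [del_of_nb_empty hynb] at e3
      have e4 := W0_rec G (9 / 2) huE
      have e5 : W0 G (9 / 2) (del G u (S.erase x)) ≤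
          W0 G (9 / 2) (((S.erase x).erase u).erase y) := by
        rw [W0_eq, W0_eq]
        apply Z_mono G (fun _ => by norm_num)
        intro z hz
        rw [mem_del] at hz
        rw [Finset.mem_erase, Finset.mem_erase]
        refine ⟨fun e => hz.2.2 (e ▸ huy.symm), hz.2.1, hz.1⟩
      have p1 := hpos (S.erase x)
      have p2 := hpos ((S.erase x).erase u)
      have q1 := mul_le_mul_of_nonneg_right g1 p1.le
      have q2 := mul_le_mul_of_nonneg_right g2 p2.le
      rw [e1, e2]
      nlinarith
    · -- isolated edge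
      have hd := del_of_nb_single hun
      have hk1 := kap_erase G hu
      rw [hun, Finset.card_singleton, Nat.cast_one, sub_add_cancel] at hk1
      have hk2 := kap_erase G hxE
      have hnb := nb_eq_empty_erase hxn
      rw [hnb, Finset.card_empty, Nat.cast_zero, add_zero] at hk2
      have i2 := ih _ c2 ((S.erase x).erase u) rfl
      rw [← hcomm] at i2
      have a2 : (alpha G S : ℝ) ≤ alpha G ((S.erase u).erase x) + 1 := by
        exact_mod_cast alpha_erase_erase hux S
      have g2 : gg G S ≤ gg G ((S.erase u).erase x) + 19 / 24 := by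
        rw [gg, gg, hk2, hk1]; linarith
      have e1 := W0_rec G (9 / 2) hu
      have e2 := W1_rec G (9 / 2) hu
      rw [hd] at e1 e2
      have e3 := W0_rec G (9 / 2) hxE
      have e4 := W1_rec G (9 / 2) hxE
      rw [del_of_nb_empty hnb] at e3 e4
      have p2 := hpos ((S.erase u).erase x)
      have q2 := mul_le_mul_of_nonneg_right g2 p2.le
      rw [e1, e2, e3, e4]
      nlinarith
    · -- pendant path
      have hwn : w ∈ nb G u S := by rw [hun]; simp
      have hw := (mem_nb.1 hwn)
      have hwu : w ≠ u := (G.ne_of_adj hw.2).symm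
      have hwE : w ∈ (S.erase u).erase x :=
        Finset.mem_erase.2 ⟨hwx, Finset.mem_erase.2 ⟨hwu, hw.1⟩⟩
      have hd : del G u S = ((S.erase u).erase x).erase w := by
        ext z
        rw [mem_del, Finset.mem_erase, Finset.mem_erase, Finset.mem_erase]
        have hz : ∀ (_ : z ∈ S), (G.Adj u z ↔ z = x ∨ z = w) := by
          intro hzS
          have : z ∈ nb G u S ↔ z = x ∨ z = w := by
            rw [hun, Finset.mem_insert, Finset.mem_singleton]
          rw [mem_nb] at this
          constructor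
          · exact fun hh => this.1 ⟨hzS, hh⟩
          · exact fun hh => (this.2 hh).2
        constructor
        · rintro ⟨h1, h2, h3⟩
          rw [hz h1, not_or] at h3
          exact ⟨h3.2, h3.1, h2, h1⟩
        · rintro ⟨h1, h2, h3, h4⟩
          refine ⟨h4, h3, ?_⟩
          rw [hz h4, not_or]
          exact ⟨h2, h1⟩
      have c3 : (((S.erase u).erase x).erase w).card < n := by
        rw [hcomm]
        exact lt_of_le_of_lt (Finset.card_le_card (Finset.erase_subset _ _)) c2
      have hk1 := kap_erase G hu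
      have hcd : ((nb G u S).card : ℝ) = 2 := by
        rw [hun, Finset.card_pair (Ne.symm hwx)]; norm_num
      rw [hcd] at hk1
      have hk2 := kap_erase G hxE
      have hnb := nb_eq_empty_erase hxn
      rw [hnb, Finset.card_empty, Nat.cast_zero, add_zero] at hk2
      have hk3 := kap_erase G hwE
      have i2 := ih _ c2 ((S.erase x).erase u) rfl
      rw [← hcomm] at i2
      have i3 := ih _ c3 (((S.erase u).erase x).erase w) rfl
      have a2 : (alpha G S : ℝ) ≤ alpha G ((S.erase u).erase x) + 1 := by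
        exact_mod_cast alpha_erase_erase hux S
      have a3 : (alpha G ((S.erase u).erase x) : ℝ) ≤
          alpha G (((S.erase u).erase x).erase w) + 1 := by
        exact_mod_cast alpha_erase G w _
      have g2 : gg G S ≤ gg G ((S.erase u).erase x) + 2 / 3 := by
        rw [gg, gg, hk2, hk1]; linarith
      set T := (S.erase u).erase x with hT
      have g3 : gg G T ≤ gg G (T.erase w) + 2 / 3 - (((nb G w T).card : ℝ) - 1) / 8 := by
        rw [gg, gg, hk3]; linarith
      have e1 := W0_rec G (9 / 2) hu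
      have e2 := W1_rec G (9 / 2) hu
      rw [hd] at e1 e2
      have e3 := W0_rec G (9 / 2) hxE
      have e4 := W1_rec G (9 / 2) hxE
      rw [del_of_nb_empty hnb] at e3 e4
      rw [← hT] at e3 e4
      have p2 := hpos T
      have p3 := hpos (T.erase w)
      have q2 := mul_le_mul_of_nonneg_right g2 p2.le
      have q3 := mul_le_mul_of_nonneg_right g2 p3.le
      have q4 := mul_le_mul_of_nonneg_right g3 p3.le
      -- W0 T versus W0 (T.erase w)
      have e5 := W0_rec G (9 / 2) hwE
      have hdsub : del G w T ⊆ T.erase w := del_subset_erase G w T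
      have hcard : (T.erase w \ del G w T).card = (nb G w T).card := by
        congr 1
        ext z
        simp only [Finset.mem_sdiff, Finset.mem_erase, mem_del, mem_nb]
        constructor
        · rintro ⟨⟨h1, h2⟩, h3⟩
          refine ⟨h2, ?_⟩
          by_contra h4
          exact h3 ⟨h2, h1, h4⟩
        · rintro ⟨h1, h2⟩
          exact ⟨⟨fun e => G.irrefl (e ▸ h2), h1⟩, fun h3 => h3.2.2 h2⟩
      have e6 := Z_le_pow G (a := fun _ => (9 / 2 : ℝ)) (fun _ => by norm_num) (l := 9 / 2)
        (fun _ => le_rfl) (by norm_num) _ _ _ hdsub hcard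
      rw [← W0_eq, ← W0_eq] at e6
      have p4 := hpos (del G w T)
      have hfin : 0 ≤ 5 / 6 * W0 G (9 / 2) T +
          9 / 2 * (-1 / 3 + (((nb G w T).card : ℝ) - 1) / 8) * W0 G (9 / 2) (T.erase w) := by
        rw [e5]
        rcases Nat.lt_or_ge (nb G w T).card 3 with hlt | hge
        · interval_cases hc : (nb G w T).card
          · norm_num at e6 ⊢
            nlinarith
          · norm_num at e6 ⊢
            nlinarith
          · norm_num at e6 ⊢
            nlinarith
        · have : (3 : ℝ) ≤ (nb G w T).card := by exact_mod_cast hge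
          have h1 : -(1 / 12 : ℝ) ≤ -1 / 3 + (((nb G w T).card : ℝ) - 1) / 8 := by linarith
          have h2 := mul_le_mul_of_nonneg_right h1 p3.le
          nlinarith
      rw [e1, e2, e3, e4]
      nlinarith

end Pool.Agent.Lib.MP_24a1b5_co
end

section

set_option autoImplicit false
open Finset
open scoped Classical

namespace Pool.Agent.Lib.MP_24a1b5_co

variable {V : Type*}

lemma Z_congr {R : Type*} [CommSemiring R] (G : SimpleGraph V) {a b : V → R} {S : Finset V}
    (h : ∀ v ∈ S, a v = b v) : Z G a S = Z G b S := by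
  rw [Z, Z]
  apply Finset.sum_congr rfl
  intro I hI
  rw [Finset.mem_powerset] at hI
  split_ifs
  · exact Finset.prod_congr rfl (fun v hv => h v (hI hv))
  · rfl

lemma Z_of_ind {R : Type*} [CommSemiring R] (G : SimpleGraph V) (a : V → R) {S : Finset V}
    (h : Ind G S) : Z G a S = ∏ v ∈ S, (1 + a v) := by
  rw [Z, Finset.prod_one_add]
  apply Finset.sum_congr rfl
  intro I hI
  rw [Finset.mem_powerset] at hI
  rw [if_pos (h.subset hI)]

/-- activity `s` on `W` and `l` elsewhere -/
noncomputable def act (W : Finset V) (s l : ℝ) : V → ℝ := fun v => if v ∈ W then s else l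

lemma norm_Z_le (G : SimpleGraph V) {z : ℂ} {s l : ℝ} (hz : ‖z‖ ≤ l)
    (hzs : ‖1 + z‖ ≤ 1 + s) {W : Finset V} (hW : Ind G W) : ∀ (n : ℕ) (S : Finset V),
    S.card = n → ‖Z G (fun _ => z) S‖ ≤ Z G (act W s l) S := by
  intro n
  induction n using Nat.strong_induction_on with
  | _ n ih =>
  intro S hn
  have hl : 0 ≤ l := (norm_nonneg z).trans hz
  by_cases h : S ⊆ W
  · rw [Z_of_ind G _ (hW.subset h), Z_of_ind G _ (hW.subset h), norm_prod]
    apply Finset.prod_le_prod (fun _ _ => norm_nonneg _)
    intro v hv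
    rw [act, if_pos (h hv)]
    exact hzs
  · rw [Finset.not_subset] at h
    obtain ⟨v, hv, hvW⟩ := h
    have c1 : (S.erase v).card < n := by rw [← hn]; exact Finset.card_erase_lt_of_mem hv
    have c2 : (del G v S).card < n :=
      lt_of_le_of_lt (Finset.card_le_card (del_subset_erase G v S)) c1
    have i1 := ih _ c1 (S.erase v) rfl
    have i2 := ih _ c2 (del G v S) rfl
    rw [Z_rec G _ hv, Z_rec G (act W s l) hv]
    have hact : act W s l v = l := by rw [act, if_neg hvW]
    rw [hact]
    calc ‖Z G (fun _ => z) (S.erase v) + z * Z G (fun _ => z) (del G v S)‖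
        ≤ ‖Z G (fun _ => z) (S.erase v)‖ + ‖z * Z G (fun _ => z) (del G v S)‖ :=
          norm_add_le _ _
      _ ≤ Z G (act W s l) (S.erase v) + l * Z G (act W s l) (del G v S) := by
          rw [norm_mul]
          exact add_le_add i1 (mul_le_mul hz i2 (norm_nonneg _) hl)

lemma act_nonneg {W : Finset V} {s l : ℝ} (hs : 0 ≤ s) (hl : 0 ≤ l) (v : V) :
    0 ≤ act W s l v := by
  rw [act]; split_ifs <;> assumption

lemma act_le {W : Finset V} {s l : ℝ} (hsl : s ≤ l) (v : V) :
    act W s l v ≤ l := by
  rw [act]; split_ifs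
  · exact hsl
  · exact le_rfl

lemma Z_act_le (G : SimpleGraph V) {s l : ℝ} (hs : 0 ≤ s) (hsl : s ≤ l)
    {S : Finset V} (W : Finset V) : W ⊆ low G S →
    Z G (act W s l) S ≤ (1 - (l - s) / (1 + l) ^ 3) ^ W.card * Z G (fun _ => l) S := by
  have hl : 0 ≤ l := hs.trans hsl
  have hρ : 0 ≤ 1 - (l - s) / (1 + l) ^ 3 := by
    have h1 : (l - s) / (1 + l) ^ 3 ≤ 1 := by
      rw [div_le_one (by positivity)]
      nlinarith [sq_nonneg l, mul_nonneg hl hl, mul_nonneg (mul_nonneg hl hl) hl]
    linarith
  induction W using Finset.induction_on with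
  | empty =>
    intro _
    have : Z G (act ∅ s l) S = Z G (fun _ => l) S := Z_congr G (fun v _ => by simp [act])
    rw [this]; simp
  | insert w W hw ih =>
    intro hsub
    have hwl : w ∈ low G S := hsub (Finset.mem_insert_self _ _)
    have ih' := ih ((Finset.subset_insert _ _).trans hsub)
    rw [low, Finset.mem_filter] at hwl
    obtain ⟨hwS, hw2⟩ := hwl
    have e1 := Z_rec G (act (insert w W) s l) hwS
    have e2 := Z_rec G (act W s l) hwS
    have c1 : Z G (act (insert w W) s l) (S.erase w) = Z G (act W s l) (S.erase w) := by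
      apply Z_congr
      intro v hv
      have : v ≠ w := (Finset.mem_erase.1 hv).1
      simp [act, this]
    have c2 : Z G (act (insert w W) s l) (del G w S) = Z G (act W s l) (del G w S) := by
      apply Z_congr
      intro v hv
      have : v ≠ w := (mem_del.1 hv).2.1
      simp [act, this]
    have a1 : act (insert w W) s l w = s := by simp [act]
    have a2 : act W s l w = l := by simp [act, hw]
    rw [c1, c2, a1] at e1
    rw [a2] at e2
    have hnn := act_nonneg (W := W) hs hl
    have hll := act_le (W := W) hsl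
    have hpd := Z_pos G hnn (del G w S)
    have hcard : (S \ del G w S).card ≤ 3 := by
      have : S \ del G w S ⊆ insert w (nb G w S) := by
        intro y hy
        rw [Finset.mem_sdiff, mem_del, not_and, not_and, not_not] at hy
        rw [Finset.mem_insert, mem_nb]
        by_cases e : y = w
        · exact Or.inl e
        · exact Or.inr ⟨hy.1, hy.2 hy.1 e⟩
      calc _ ≤ (insert w (nb G w S)).card := Finset.card_le_card this
        _ ≤ (nb G w S).card + 1 := Finset.card_insert_le _ _
        _ ≤ 3 := by omega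
    have e3 : Z G (act W s l) S ≤ (1 + l) ^ 3 * Z G (act W s l) (del G w S) := by
      calc _ ≤ _ := Z_le_pow G hnn hll hl _ S _ (del_subset G w S) rfl
        _ ≤ _ := by
          apply mul_le_mul_of_nonneg_right _ hpd.le
          exact pow_le_pow_right₀ (by linarith) hcard
    have e4 : Z G (act (insert w W) s l) S ≤
        (1 - (l - s) / (1 + l) ^ 3) * Z G (act W s l) S := by
      have h3 : (l - s) / (1 + l) ^ 3 * Z G (act W s l) S ≤
          (l - s) * Z G (act W s l) (del G w S) := by
        rw [div_mul_eq_mul_div, div_le_iff₀ (by positivity)]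
        calc (l - s) * Z G (act W s l) S
            ≤ (l - s) * ((1 + l) ^ 3 * Z G (act W s l) (del G w S)) :=
              mul_le_mul_of_nonneg_left e3 (by linarith)
          _ = _ := by ring
      have e5 : Z G (act (insert w W) s l) S =
          Z G (act W s l) S - (l - s) * Z G (act W s l) (del G w S) := by
        rw [e1, e2]; ring
      have e6 : (1 - (l - s) / (1 + l) ^ 3) * Z G (act W s l) S =
          Z G (act W s l) S - (l - s) / (1 + l) ^ 3 * Z G (act W s l) S := by ring
      rw [e5, e6]
      linarith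
    rw [Finset.card_insert_of_notMem hw, pow_succ']
    calc _ ≤ _ := e4
      _ ≤ (1 - (l - s) / (1 + l) ^ 3) *
          ((1 - (l - s) / (1 + l) ^ 3) ^ W.card * Z G (fun _ => l) S) :=
          mul_le_mul_of_nonneg_left ih' hρ
      _ = _ := by ring

lemma exists_ind_low {G : SimpleGraph V} (hG : G.IsAcyclic) (S : Finset V) :
    ∃ W ⊆ low G S, Ind G W ∧ S.card ≤ 6 * W.card := by
  obtain ⟨P, hP⟩ := two_color hG
  have h1 := card_low (degen_of_acyclic hG) S
  have h2 := Finset.card_filter_add_card_filter_not (s := low G S) P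
  have i1 : Ind G ((low G S).filter P) := by
    intro a ha b hb hab
    rw [Finset.mem_filter] at ha hb
    exact hP a b hab ⟨fun _ => hb.2, fun _ => ha.2⟩
  have i2 : Ind G ((low G S).filter (fun v => ¬ P v)) := by
    intro a ha b hb hab
    rw [Finset.mem_filter] at ha hb
    exact hP a b hab ⟨fun h => absurd h ha.2, fun h => absurd h hb.2⟩
  by_cases h : S.card ≤ 6 * ((low G S).filter P).card
  · exact ⟨_, Finset.filter_subset _ _, i1, h⟩
  · exact ⟨_, Finset.filter_subset _ _, i2, by omega⟩

lemma norm_one_add_sq (l φ : ℝ) :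
    ‖1 + (l : ℂ) * Complex.exp (φ * Complex.I)‖ ^ 2 = (1 + l) ^ 2 - 2 * l * (1 - Real.cos φ) := by
  rw [← Complex.normSq_eq_norm_sq, Complex.normSq_apply]
  have h1 : (1 + (l : ℂ) * Complex.exp (φ * Complex.I)).re = 1 + l * Real.cos φ := by
    rw [Complex.add_re, Complex.re_ofReal_mul, Complex.exp_ofReal_mul_I_re, Complex.one_re]
  have h2 : (1 + (l : ℂ) * Complex.exp (φ * Complex.I)).im = l * Real.sin φ := by
    rw [Complex.add_im, Complex.im_ofReal_mul, Complex.exp_ofReal_mul_I_im, Complex.one_im]
    ring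
  rw [h1, h2]
  have h3 := Real.sin_sq_add_cos_sq φ
  linear_combination l ^ 2 * h3

/-- decay of the characteristic function -/
lemma decay {G : SimpleGraph V} (hG : G.IsAcyclic) (S : Finset V) {l φ : ℝ} (h1 : 1 / 36 ≤ l)
    (h2 : l ≤ 9 / 2) (hφ : |φ| ≤ Real.pi) :
    ‖Z G (fun _ => (l : ℂ) * Complex.exp (φ * Complex.I)) S‖ ≤
      Real.exp (-(S.card * φ ^ 2 / 10000000)) * Z G (fun _ => l) S := by
  obtain ⟨W, hW1, hW2, hW3⟩ := exists_ind_low hG S
  have hl0 : 0 < l := by linarith
  set z : ℂ := (l : ℂ) * Complex.exp (φ * Complex.I) with hz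
  have hzn : ‖z‖ = l := by
    rw [hz, norm_mul, Complex.norm_exp_ofReal_mul_I, mul_one, Complex.norm_real,
      Real.norm_of_nonneg hl0.le]
  set s : ℝ := max (‖1 + z‖ - 1) 0 with hs
  have hs0 : 0 ≤ s := le_max_right _ _
  have hsz : ‖1 + z‖ ≤ 1 + s := by
    have := le_max_left (‖1 + z‖ - 1) 0
    rw [← hs] at this
    linarith
  have hnorm := norm_one_add_sq l φ
  rw [← hz] at hnorm
  have hc0 : 0 ≤ 1 - Real.cos φ := by linarith [Real.cos_le_one φ]
  have hc2 : 1 - Real.cos φ ≤ 2 := by linarith [Real.neg_one_le_cos φ]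
  have hnn := norm_nonneg (1 + z)
  have hn1 : ‖1 + z‖ ≤ 1 + l := by
    calc ‖1 + z‖ ≤ ‖(1 : ℂ)‖ + ‖z‖ := norm_add_le _ _
      _ = 1 + l := by rw [norm_one, hzn]
  -- l - s ≥ l (1 - cos φ) / (2 (1 + l))
  have hls : l * (1 - Real.cos φ) / (2 * (1 + l)) ≤ l - s := by
    rcases max_cases (‖1 + z‖ - 1) 0 with ⟨he, hh⟩ | ⟨he, hh⟩
    · rw [hs, he, div_le_iff₀ (by linarith)]
      nlinarith
    · rw [hs, he, div_le_iff₀ (by linarith)]
      nlinarith
  have hsl : s ≤ l := by
    have : 0 ≤ l * (1 - Real.cos φ) / (2 * (1 + l)) := by positivity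
    linarith
  have b1 := norm_Z_le G hzn.le hsz hW2 S.card S rfl
  have b2 := Z_act_le G hs0 hsl W hW1
  have hZp := Z_pos G (a := fun _ => l) (fun _ => hl0.le) S
  refine (b1.trans b2).trans (mul_le_mul_of_nonneg_right ?_ hZp.le)
  -- exponential bound
  have hcos := Real.cos_le_one_sub_mul_cos_sq hφ
  have hpi := Real.pi_lt_four
  have hpi2 : (2 : ℝ) / Real.pi ^ 2 ≥ 1 / 8 := by
    rw [ge_iff_le, div_le_div_iff₀ (by norm_num) (by positivity)]
    nlinarith [Real.pi_pos]
  have hcq : φ ^ 2 / 8 ≤ 1 - Real.cos φ := by nlinarith [sq_nonneg φ]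
  have hkey : φ ^ 2 / 1000000 ≤ (l - s) / (1 + l) ^ 3 := by
    have t1 : (1 + l) ^ 4 ≤ 916 := by
      have : (1 + l) ^ 4 ≤ (11 / 2 : ℝ) ^ 4 := by
        apply pow_le_pow_left₀ (by linarith); linarith
      linarith [show (11 / 2 : ℝ) ^ 4 ≤ 916 by norm_num]
    have t2 : l * (1 - Real.cos φ) / (2 * (1 + l)) / (1 + l) ^ 3 ≤ (l - s) / (1 + l) ^ 3 :=
      div_le_div_of_nonneg_right hls (by positivity)
    refine le_trans ?_ t2
    rw [div_div, show 2 * (1 + l) * (1 + l) ^ 3 = 2 * (1 + l) ^ 4 by ring,
      div_le_div_iff₀ (by norm_num) (by positivity)]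
    have t3 : φ ^ 2 / 8 / 36 ≤ l * (1 - Real.cos φ) := by
      calc φ ^ 2 / 8 / 36 = 1 / 36 * (φ ^ 2 / 8) := by ring
        _ ≤ l * (1 - Real.cos φ) := mul_le_mul h1 hcq (by positivity) hl0.le
    nlinarith [sq_nonneg φ]
  have hexp : 1 - (l - s) / (1 + l) ^ 3 ≤ Real.exp (-(φ ^ 2 / 1000000)) := by
    have := Real.add_one_le_exp (-((l - s) / (1 + l) ^ 3))
    calc 1 - (l - s) / (1 + l) ^ 3 ≤ Real.exp (-((l - s) / (1 + l) ^ 3)) := by linarith
      _ ≤ _ := Real.exp_le_exp.2 (by linarith)
  have hρ : 0 ≤ 1 - (l - s) / (1 + l) ^ 3 := by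
    have h1 : (l - s) / (1 + l) ^ 3 ≤ 1 := by
      rw [div_le_one (by positivity)]
      nlinarith [sq_nonneg l, mul_pos hl0 hl0, mul_pos (mul_pos hl0 hl0) hl0]
    linarith
  calc (1 - (l - s) / (1 + l) ^ 3) ^ W.card ≤ (Real.exp (-(φ ^ 2 / 1000000))) ^ W.card :=
        pow_le_pow_left₀ hρ hexp _
    _ = Real.exp (-(W.card * (φ ^ 2 / 1000000))) := by
        rw [← Real.exp_nat_mul]; ring_nf
    _ ≤ _ := by
        rw [Real.exp_le_exp, neg_le_neg_iff]
        have : (S.card : ℝ) ≤ 6 * W.card := by exact_mod_cast hW3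
        nlinarith [sq_nonneg φ]

end Pool.Agent.Lib.MP_24a1b5_co
end
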